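import Pool.Agent.V5helper53.TM.Sieve2
import Pool.Agent.W5h7.SNL.Assemble

set_option autoImplicit false

/-!
# A one-parameter family of `s` integers with small sum, completed by integers of a given size
-/

namespace Pool.Agent.V5helper53.TM

open Finset Filter Topology
open Pool.Agent.TH285.SN (Adm rad rad_le_of one_le_rad)
open Pool.Agent.W5h7.SNL (NoSub adm_append noSub_append rad_append_le)

/-- a one-parameter family of `s` pairwise coprime integers of size `v ^ (d + s)`, with radical at most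
`C v ^ s` and sum at most `C v ^ d` -/
structure Blk (s d : ℕ) (C : ℝ) (v0 : ℕ) (i0 : Fin s) (f : ℕ → Fin s → ℤ) (ρ : ℕ → ℕ) : Prop where
  C1 : 1 ≤ C
  v1 : 1 ≤ v0
  cop : ∀ v, v0 ≤ v → ∀ i j, i ≠ j → IsCoprime (f v i) (f v j)
  ev : ∀ v, v0 ≤ v → Even (∑ i, f v i)
  s0 : ∀ v, v0 ≤ v → ∑ i, f v i ≠ 0
  up : ∀ v, v0 ≤ v → ∀ i, |((f v i : ℤ) : ℝ)| ≤ C * (v : ℝ) ^ (d + s)
  sm : ∀ v, v0 ≤ v → |((∑ i, f v i : ℤ) : ℝ)| ≤ C * (v : ℝ) ^ d
  lo : ∀ v, v0 ≤ v → (v : ℝ) ^ (d + s) ≤ |((f v i0 : ℤ) : ℝ)|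
  sub : ∀ v, v0 ≤ v → ∀ A : Finset (Fin s), A.Nonempty → A ≠ univ →
    (v : ℝ) ^ (d + s - 1) ≤ C * |((∑ i ∈ A, f v i : ℤ) : ℝ)|
  rpos : ∀ v, v0 ≤ v → 0 < ρ v
  rle : ∀ v, v0 ≤ v → (ρ v : ℝ) ≤ C * (v : ℝ) ^ s
  rdvd : ∀ v, v0 ≤ v → ∀ p : ℕ, p.Prime → ∀ i, (p : ℤ) ∣ f v i → p ∣ ρ v
  inj : ∀ v w, v0 ≤ v → v0 ≤ w → |f v i0| = |f w i0| → v = w

/-- the family with positive sums -/
def sg {s : ℕ} (f : ℕ → Fin s → ℤ) (v : ℕ) (i : Fin s) : ℤ := (∑ j, f v j).sign * f v i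

theorem sg_sum {s : ℕ} (f : ℕ → Fin s → ℤ) (v : ℕ) (A : Finset (Fin s)) :
    ∑ i ∈ A, sg f v i = (∑ j, f v j).sign * ∑ i ∈ A, f v i := by
  unfold sg
  rw [mul_sum]

theorem sign_cases {S : ℤ} (hS : S ≠ 0) : S.sign = 1 ∨ S.sign = -1 := by
  rcases lt_or_gt_of_ne hS with h | h
  · right; exact Int.sign_eq_neg_one_of_neg h
  · left; exact Int.sign_eq_one_of_pos h

theorem Blk.sg {s d : ℕ} {C : ℝ} {v0 : ℕ} {i0 : Fin s} {f : ℕ → Fin s → ℤ} {ρ : ℕ → ℕ}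
    (h : Blk s d C v0 i0 f ρ) :
    Blk s d C v0 i0 (sg f) ρ ∧ ∀ v, v0 ≤ v → 0 < ∑ i, TM.sg f v i := by
  have habs : ∀ v, v0 ≤ v → ∀ i, |TM.sg f v i| = |f v i| := by
    intro v hv i
    unfold TM.sg
    rcases sign_cases (h.s0 v hv) with h1 | h1 <;> rw [h1]
    · rw [one_mul]
    · rw [neg_one_mul, abs_neg]
  have habs2 : ∀ v, v0 ≤ v → ∀ A : Finset (Fin s), |∑ i ∈ A, TM.sg f v i| = |∑ i ∈ A, f v i| := by
    intro v hv A
    rw [sg_sum]
    rcases sign_cases (h.s0 v hv) with h1 | h1 <;> rw [h1]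
    · rw [one_mul]
    · rw [neg_one_mul, abs_neg]
  refine ⟨⟨h.C1, h.v1, ?_, ?_, ?_, ?_, ?_, ?_, ?_, h.rpos, h.rle, ?_, ?_⟩, ?_⟩
  · intro v hv i j hij
    have h2 := h.cop v hv i j hij
    unfold TM.sg
    rcases sign_cases (h.s0 v hv) with h1 | h1 <;> rw [h1]
    · rw [one_mul, one_mul]; exact h2
    · rw [neg_one_mul, neg_one_mul]; exact h2.neg_neg
  · intro v hv
    rw [sg_sum]
    exact (h.ev v hv).mul_left _
  · intro v hv
    rw [sg_sum]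
    have h2 := h.s0 v hv
    rcases sign_cases (h.s0 v hv) with h1 | h1 <;> rw [h1]
    · rw [one_mul]; exact h2
    · rw [neg_one_mul]; exact neg_ne_zero.2 h2
  · intro v hv i
    rw [← Int.cast_abs, habs v hv i, Int.cast_abs]
    exact h.up v hv i
  · intro v hv
    rw [← Int.cast_abs, habs2 v hv univ, Int.cast_abs]
    exact h.sm v hv
  · intro v hv
    rw [← Int.cast_abs, habs v hv i0, Int.cast_abs]
    exact h.lo v hv
  · intro v hv A h1 h2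
    rw [← Int.cast_abs, habs2 v hv A, Int.cast_abs]
    exact h.sub v hv A h1 h2
  · intro v hv p hp i hpi
    refine h.rdvd v hv p hp i ?_
    unfold TM.sg at hpi
    rcases sign_cases (h.s0 v hv) with h1 | h1 <;> rw [h1] at hpi
    · rwa [one_mul] at hpi
    · rwa [neg_one_mul, dvd_neg] at hpi
  · intro v w hv hw hvw
    rw [habs v hv i0, habs w hw i0] at hvw
    exact h.inj v w hv hw hvw
  · intro v hv
    rw [sg_sum]
    rcases lt_or_gt_of_ne (h.s0 v hv) with h1 | h1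
    · rw [Int.sign_eq_neg_one_of_neg h1]; linarith
    · rw [Int.sign_eq_one_of_pos h1]; linarith

/-- one tuple -/
theorem one_tuple {s k : ℕ} {f : Fin s → ℤ} {z : Fin (k + 2) → ℤ} {ρ : ℕ} (hρ : 0 < ρ)
    (hf0 : ∀ i, f i ≠ 0) (hff : ∀ i j, i ≠ j → IsCoprime (f i) (f j))
    (hrd : ∀ p : ℕ, p.Prime → ∀ i, (p : ℤ) ∣ f i → p ∣ ρ)
    (hS : 0 < ∑ i, f i) (hz1 : ∀ j, IsCoprime (z j) ((2 * ρ : ℕ) : ℤ))
    (hz2 : ∀ i j, i ≠ j → IsCoprime (z i) (z j)) (hz3 : ∑ j, z j = -∑ i, f i)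
    (hz4 : ∀ j, j ≠ Fin.last (k + 1) → 0 < z j)
    (hA : ∀ A : Finset (Fin s), A.Nonempty → A ≠ univ → ∑ j, |z j| < |∑ i ∈ A, f i|) :
    Adm (Fin.append f z) ∧ NoSub (Fin.append f z) ∧
      rad (Fin.append f z) ≤ ρ * ∏ j, (z j).natAbs := by
  classical
  have hd : ∀ J : Finset (Fin (k + 2)), J.Nonempty → ∑ j ∈ J, z j ≠ 0 := by
    intro J hJ
    by_cases hl : Fin.last (k + 1) ∈ J
    · have h1 : ∑ j ∈ J, z j + ∑ j ∈ Jᶜ, z j = -∑ i, f i := by rw [sum_add_sum_compl, hz3]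
      have h2 : 0 ≤ ∑ j ∈ Jᶜ, z j := by
        refine sum_nonneg fun j hj => (hz4 j ?_).le
        rintro rfl
        exact (Finset.mem_compl.1 hj) hl
      intro h3
      linarith
    · have : 0 < ∑ j ∈ J, z j := by
        refine sum_pos (fun j hj => hz4 j ?_) hJ
        rintro rfl
        exact hl hj
      exact this.ne'
  have hd0 : ∀ j, z j ≠ 0 := fun j => by
    have := hd {j} (singleton_nonempty j)
    simpa using this
  have hfd : ∀ i j, IsCoprime (f i) (z j) := by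
    intro i j
    rw [Int.isCoprime_iff_gcd_eq_one]
    by_contra hg
    obtain ⟨p, hp, hpg⟩ := Nat.exists_prime_and_dvd hg
    have h1 : (p : ℤ) ∣ f i := Int.natCast_dvd.mpr (hpg.trans (Nat.gcd_dvd_left _ _))
    have h2 : (p : ℤ) ∣ z j := Int.natCast_dvd.mpr (hpg.trans (Nat.gcd_dvd_right _ _))
    have h3 : p ∣ ρ := hrd p hp i h1
    have h4 : (p : ℤ) ∣ ((2 * ρ : ℕ) : ℤ) := by exact_mod_cast Dvd.dvd.mul_left h3 2
    have h5 := (hz1 j).isUnit_of_dvd' h2 h4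
    exact (Nat.prime_iff_prime_int.mp hp).not_unit h5
  have hsum : ∑ i, f i + ∑ j, z j = 0 := by rw [hz3]; ring
  refine ⟨adm_append hf0 hd0 hff hz2 hfd hsum, noSub_append hsum hd hA, ?_⟩
  refine rad_append_le f z (Nat.mul_pos hρ (prod_pos fun j _ => Int.natAbs_pos.2 (hd0 j))) ?_ ?_
  · intro p hp i hpi
    exact (hrd p hp i hpi).mul_right _
  · intro p hp j hpj
    have h1 : p ∣ (z j).natAbs := Int.natCast_dvd.mp hpj
    exact (h1.trans (dvd_prod_of_mem (fun j => (z j).natAbs) (mem_univ j))).mul_left _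

end Pool.Agent.V5helper53.TM
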