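import Pool.Agent.V5helper53.TM.Block

set_option autoImplicit false

namespace Pool.Agent.V5helper53.TM

open Finset Filter Topology
open Pool.Agent.TH285.SN (Adm rad rad_le_of one_le_rad)
open Pool.Agent.W5h7.SNL (NoSub adm_append noSub_append rad_append_le)

theorem sum_abs_le {k : ℕ} {z : Fin (k + 2) → ℤ} {S Z : ℝ}
    (h1 : ∀ j, j ≠ Fin.last (k + 1) → |((z j : ℤ) : ℝ)| ≤ Z)
    (h2 : |((∑ j, z j : ℤ) : ℝ)| ≤ S) :
    |((z (Fin.last (k + 1)) : ℤ) : ℝ)| ≤ S + (k + 1) * Z ∧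
    ∑ j, |((z j : ℤ) : ℝ)| ≤ S + 2 * (k + 1) * Z ∧
    (0 ≤ Z → 0 ≤ S → ((∏ j, (z j).natAbs : ℕ) : ℝ) ≤ Z ^ (k + 1) * (S + (k + 1) * Z)) := by
  have e1 : ∑ j, z j = ∑ j : Fin (k + 1), z (Fin.castSucc j) + z (Fin.last (k + 1)) :=
    Fin.sum_univ_castSucc _
  have e2 : ∑ j, |((z j : ℤ) : ℝ)| =
    ∑ j : Fin (k + 1), |((z (Fin.castSucc j) : ℤ) : ℝ)| + |((z (Fin.last (k + 1)) : ℤ) : ℝ)| :=
    Fin.sum_univ_castSucc _
  have h3 : ∀ j : Fin (k + 1), |((z (Fin.castSucc j) : ℤ) : ℝ)| ≤ Z := fun j =>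
    h1 _ (Fin.castSucc_lt_last j).ne
  have h4 : ∑ j : Fin (k + 1), |((z (Fin.castSucc j) : ℤ) : ℝ)| ≤ (k + 1) * Z := by
    calc ∑ j : Fin (k + 1), |((z (Fin.castSucc j) : ℤ) : ℝ)| ≤ ∑ _j : Fin (k + 1), Z :=
          sum_le_sum fun j _ => h3 j
      _ = (k + 1) * Z := by simp
  have h5 : |((z (Fin.last (k + 1)) : ℤ) : ℝ)| ≤ S + (k + 1) * Z := by
    have e3 : ((z (Fin.last (k + 1)) : ℤ) : ℝ) = ((∑ j, z j : ℤ) : ℝ) -
        ∑ j : Fin (k + 1), ((z (Fin.castSucc j) : ℤ) : ℝ) := by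
      rw [e1]; push_cast; ring
    rw [e3]
    have h6 := abs_sub ((∑ j, z j : ℤ) : ℝ) (∑ j : Fin (k + 1), ((z (Fin.castSucc j) : ℤ) : ℝ))
    have h7 : |∑ j : Fin (k + 1), ((z (Fin.castSucc j) : ℤ) : ℝ)| ≤
      ∑ j : Fin (k + 1), |((z (Fin.castSucc j) : ℤ) : ℝ)| := abs_sum_le_sum_abs _ _
    linarith
  refine ⟨h5, by rw [e2]; linarith, fun hZ hS => ?_⟩
  have e3 : ((∏ j, (z j).natAbs : ℕ) : ℝ) = ∏ j, |((z j : ℤ) : ℝ)| := by
    push_cast
    refine prod_congr rfl fun j _ => ?_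
    rw [Nat.cast_natAbs, Int.cast_abs]
  rw [e3, Fin.prod_univ_castSucc]
  have h6 : ∏ j : Fin (k + 1), |((z (Fin.castSucc j) : ℤ) : ℝ)| ≤ Z ^ (k + 1) := by
    calc ∏ j : Fin (k + 1), |((z (Fin.castSucc j) : ℤ) : ℝ)| ≤ ∏ _j : Fin (k + 1), Z :=
          prod_le_prod (fun _ _ => abs_nonneg _) fun j _ => h3 j
      _ = Z ^ (k + 1) := by simp
  have h7 : 0 ≤ ∏ j : Fin (k + 1), |((z (Fin.castSucc j) : ℤ) : ℝ)| :=
    prod_nonneg fun _ _ => abs_nonneg _
  calc _ ≤ Z ^ (k + 1) * |((z (Fin.last (k + 1)) : ℤ) : ℝ)| :=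
        mul_le_mul_of_nonneg_right h6 (abs_nonneg _)
    _ ≤ _ := mul_le_mul_of_nonneg_left h5 (by positivity)

theorem block_Y {s d k : ℕ} (hs : 2 ≤ s) (hk : Even k) {C : ℝ} {v0 : ℕ} {i0 : Fin s}
    {f : ℕ → Fin s → ℤ} {ρ : ℕ → ℕ} (h : Blk s d C v0 i0 f ρ)
    (hpos : ∀ v, v0 ≤ v → 0 < ∑ i, f v i) (θ ε M K : ℝ) (hε : 0 < ε) (hεθ : ε < θ)
    (hθd : θ ≤ d) (hM : 0 < M) (hK : 0 < K)
    (hMd : M * ((d + s : ℕ) + (k + 1) * θ) < (d + s : ℕ)) :
    ∀ᶠ Y : ℝ in atTop, ∃ F : Finset (Fin (s + (k + 2)) → ℤ), (∀ x ∈ F, Adm x ∧ NoSub x ∧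
      (∀ i, |((x i : ℤ) : ℝ)| ≤ (C + 2 * (k + 1)) * Y ^ (d + s)) ∧
      K * (rad x : ℝ) ^ M < |((x (Fin.castAdd (k + 2) i0) : ℤ) : ℝ)|) ∧
      Y ^ (1 + (k + 1) * (θ - ε) - ε) ≤ #F := by
  classical
  have hC1 := h.C1
  have hθ0 : 0 < θ := hε.trans hεθ
  set C2 : ℝ := C * 2 ^ (k + 1) * (C + 2 * (k + 1)) with hC2
  have hC20 : 0 < C2 := by positivity
  have t := tuples k ((d : ℝ) + s + 1) ε (by positivity) hε
  have e1 : ∀ᶠ Y : ℝ in atTop, 2 ≤ Y ^ θ := (tendsto_rpow_atTop hθ0).eventually_ge_atTop _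
  have e2 : ∀ᶠ Y : ℝ in atTop, 2 ≤ Y ^ (θ - ε) :=
    (tendsto_rpow_atTop (by linarith)).eventually_ge_atTop _
  have e3 : ∀ᶠ Y : ℝ in atTop, 2 * C ^ 2 ≤ Y := eventually_ge_atTop _
  have e4 : ∀ᶠ Y : ℝ in atTop, C * (C + 4 * (k + 1)) * 2 ^ (d + s - 1) < Y := eventually_gt_atTop _
  have e5 : ∀ᶠ Y : ℝ in atTop, K * C2 ^ M * 2 ^ (d + s) <
      Y ^ (((d + s : ℕ) : ℝ) - M * ((d + s : ℕ) + (k + 1) * θ)) :=
    (tendsto_rpow_atTop (by linarith)).eventually_gt_atTop _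
  have e6 : ∀ᶠ Y : ℝ in atTop, 4 * 2 ^ (k + 1) ≤ Y ^ ε :=
    (tendsto_rpow_atTop hε).eventually_ge_atTop _
  filter_upwards [t, e1, e2, e3, e4, e5, e6, eventually_ge_atTop (2 * (v0 : ℝ)),
    eventually_ge_atTop 4] with Y t e1 e2 e3 e4 e5 e6 e7 e8
  have hY0 : 0 < Y := by linarith
  have hY1 : 1 ≤ Y := by linarith
  set Z : ℕ := ⌊Y ^ θ⌋₊ with hZ
  have hZ1 : (Z : ℝ) ≤ Y ^ θ := Nat.floor_le (by positivity)
  have hZ2 : Y ^ θ / 2 ≤ Z := by
    have := Nat.lt_floor_add_one (Y ^ θ)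
    rw [← hZ] at this
    linarith
  have hZε : Y ^ ε ≤ Z := by
    refine le_trans ?_ hZ2
    have h1 : Y ^ θ = Y ^ (θ - ε) * Y ^ ε := by rw [← Real.rpow_add hY0]; ring_nf
    have h2 : 0 < Y ^ ε := by positivity
    rw [h1]
    nlinarith
  have hYd : Y ^ θ ≤ Y ^ d := by
    rw [← Real.rpow_natCast Y d]
    exact Real.rpow_le_rpow_of_exponent_le hY1 hθd
  have hZd : (Z : ℝ) ≤ Y ^ d := hZ1.trans hYd
  have hZC : (Z : ℝ) ≤ Y ^ ((d : ℝ) + s + 1) := by
    refine hZ1.trans (Real.rpow_le_rpow_of_exponent_le hY1 ?_)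
    have : (0 : ℝ) ≤ s := Nat.cast_nonneg _
    linarith
  set V : Finset ℕ := Ioc ⌊Y / 2⌋₊ ⌊Y⌋₊ with hV
  have hvlo : ∀ v ∈ V, Y / 2 ≤ v := by
    intro v hv
    have h1 := Nat.lt_floor_add_one (Y / 2)
    have h2 := (mem_Ioc.1 hv).1
    have h3 : (⌊Y / 2⌋₊ : ℝ) + 1 ≤ v := by exact_mod_cast h2
    linarith
  have hvhi : ∀ v ∈ V, (v : ℝ) ≤ Y := by
    intro v hv
    have h2 := (mem_Ioc.1 hv).2
    have h3 : (v : ℝ) ≤ ⌊Y⌋₊ := by exact_mod_cast h2
    exact h3.trans (Nat.floor_le hY0.le)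
  have hv0 : ∀ v ∈ V, v0 ≤ v := by
    intro v hv
    have h1 := hvlo v hv
    have h2 : (v0 : ℝ) ≤ v := by linarith
    exact_mod_cast h2
  have hVc : Y / 4 ≤ #V := by
    rw [hV, Nat.card_Ioc]
    have h1 := Nat.lt_floor_add_one Y
    have h2 := Nat.floor_le (show (0 : ℝ) ≤ Y / 2 by positivity)
    have h3 : ⌊Y / 2⌋₊ ≤ ⌊Y⌋₊ := Nat.floor_le_floor (by linarith)
    rw [Nat.cast_sub h3]
    linarith
  have hstep : ∀ v : ℕ, ∃ G : Finset (Fin (k + 2) → ℤ), v ∈ V →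
      (∀ z ∈ G, (∀ i, IsCoprime (z i) ((2 * ρ v : ℕ) : ℤ)) ∧
        (∀ i j, i ≠ j → IsCoprime (z i) (z j)) ∧ ∑ i, z i = -∑ i, f v i ∧
        ∀ i, i ≠ Fin.last (k + 1) → (Z : ℤ) < z i ∧ z i ≤ 2 * Z) ∧
        ((Z : ℝ) * Y ^ (-ε)) ^ (k + 1) ≤ #G := by
    intro v
    by_cases hv : v ∈ V
    · have hv1 := hv0 v hv
      obtain ⟨G, hG⟩ := t (-∑ i, f v i) (2 * ρ v) Z (neg_ne_zero.2 (h.s0 v hv1))
        (Nat.mul_pos two_pos (h.rpos v hv1)) (even_two_mul _) (by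
          obtain ⟨a, ha⟩ := h.ev v hv1
          obtain ⟨b, hb⟩ := hk
          refine ⟨-a - b, ?_⟩
          rw [ha, hb]; push_cast; ring) (by
          have h1 := h.sm v hv1
          have h2 := h.rle v hv1
          have h3 : (((-∑ i, f v i).natAbs : ℕ) : ℝ) = |((∑ i, f v i : ℤ) : ℝ)| := by
            rw [Int.natAbs_neg, Nat.cast_natAbs, Int.cast_abs]
          rw [Nat.cast_mul, h3]
          push_cast
          have h4 := hvhi v hv
          have h5 : (0 : ℝ) ≤ v := Nat.cast_nonneg _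
          calc 2 * (ρ v : ℝ) * |∑ i, ((f v i : ℤ) : ℝ)|
              ≤ 2 * (C * Y ^ s) * (C * Y ^ d) := by
                push_cast at h1
                have h6 : (v : ℝ) ^ s ≤ Y ^ s := by gcongr
                have h7 : (v : ℝ) ^ d ≤ Y ^ d := by gcongr
                have h8 : (ρ v : ℝ) ≤ C * Y ^ s := h2.trans (by gcongr)
                have h9 : |∑ i, ((f v i : ℤ) : ℝ)| ≤ C * Y ^ d := h1.trans (by gcongr)
                gcongr
            _ = (2 * C ^ 2) * (Y ^ s * Y ^ d) := by ring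
            _ ≤ Y * (Y ^ s * Y ^ d) := by gcongr
            _ = Y ^ ((d : ℝ) + s + 1) := by
                rw [← Nat.cast_add, Real.rpow_add_one hY0.ne', Real.rpow_natCast]
                ring) hZε hZC
      exact ⟨G, fun _ => hG⟩
    · exact ⟨∅, fun h => absurd h hv⟩
  choose G hG using hstep
  -- properties of the tuples
  have hone : ∀ v ∈ V, ∀ z ∈ G v, Adm (Fin.append (f v) z) ∧ NoSub (Fin.append (f v) z) ∧
      (∀ i, |((Fin.append (f v) z i : ℤ) : ℝ)| ≤ (C + 2 * (k + 1)) * Y ^ (d + s)) ∧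
      K * (rad (Fin.append (f v) z) : ℝ) ^ M < |((f v i0 : ℤ) : ℝ)| := by
    intro v hv z hz
    have hv1 := hv0 v hv
    have hvY := hvhi v hv
    have hvY2 := hvlo v hv
    have hvn : (0 : ℝ) ≤ v := Nat.cast_nonneg _
    obtain ⟨b1, b2, b3, b4⟩ := (hG v hv).1 z hz
    have hzpos : ∀ j, j ≠ Fin.last (k + 1) → 0 < z j := fun j hj =>
      lt_of_le_of_lt (Int.natCast_nonneg Z) (b4 j hj).1
    have hz1 : ∀ j, j ≠ Fin.last (k + 1) → |((z j : ℤ) : ℝ)| ≤ 2 * Y ^ θ := by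
      intro j hj
      have h1 := hzpos j hj
      have h2 : (0 : ℝ) < z j := by exact_mod_cast h1
      rw [abs_of_pos h2]
      have h3 : ((z j : ℤ) : ℝ) ≤ 2 * Z := by exact_mod_cast (b4 j hj).2
      linarith
    have hS : |((∑ j, z j : ℤ) : ℝ)| ≤ C * Y ^ d := by
      rw [b3, Int.cast_neg, abs_neg]
      refine (h.sm v hv1).trans ?_
      have h7 : (v : ℝ) ^ d ≤ Y ^ d := by gcongr
      gcongr
    obtain ⟨c1, c2, c3⟩ := sum_abs_le hz1 hS
    have hYθ0 : 0 ≤ Y ^ θ := by positivity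
    have hA : ∀ A : Finset (Fin s), A.Nonempty → A ≠ univ →
        ∑ j, |z j| < |∑ i ∈ A, f v i| := by
      intro A hA1 hA2
      have h1 := h.sub v hv1 A hA1 hA2
      have h2 : (Y / 2) ^ (d + s - 1) ≤ (v : ℝ) ^ (d + s - 1) := by gcongr
      have h3 : ∑ j, |((z j : ℤ) : ℝ)| ≤ (C + 4 * (k + 1)) * Y ^ d := by
        calc ∑ j, |((z j : ℤ) : ℝ)| ≤ C * Y ^ d + 2 * (k + 1) * (2 * Y ^ θ) := c2
          _ ≤ C * Y ^ d + 2 * (k + 1) * (2 * Y ^ d) := by gcongr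
          _ = _ := by ring
      have h4 : C * ((C + 4 * (k + 1)) * Y ^ d) < C * |((∑ i ∈ A, f v i : ℤ) : ℝ)| := by
        refine lt_of_lt_of_le ?_ (h2.trans h1)
        rw [div_pow, lt_div_iff₀ (by positivity)]
        calc C * ((C + 4 * (k + 1)) * Y ^ d) * 2 ^ (d + s - 1)
            = C * (C + 4 * (k + 1)) * 2 ^ (d + s - 1) * Y ^ d := by ring
          _ < Y * Y ^ d := by gcongr
          _ = Y ^ (d + 1) := by rw [pow_succ]; ring
          _ ≤ Y ^ (d + s - 1) := pow_le_pow_right₀ hY1 (by omega)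
      have h5 : (C + 4 * (k + 1)) * Y ^ d < |((∑ i ∈ A, f v i : ℤ) : ℝ)| :=
        lt_of_mul_lt_mul_left h4 (by linarith)
      have h6 : ((∑ j, |z j| : ℤ) : ℝ) < ((|∑ i ∈ A, f v i| : ℤ) : ℝ) := by
        push_cast
        push_cast at h5
        linarith
      exact_mod_cast h6
    have hf0 : ∀ i, f v i ≠ 0 := by
      intro i hi
      have h1 := h.sub v hv1 {i} (singleton_nonempty i) (by
        intro h2
        have h3 := congrArg card h2
        rw [card_singleton, card_univ, Fintype.card_fin] at h3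
        omega)
      rw [sum_singleton, hi] at h1
      simp only [Int.cast_zero, abs_zero, mul_zero] at h1
      have h2 : 0 < (v : ℝ) ^ (d + s - 1) := by
        have : (0 : ℝ) < v := by linarith
        positivity
      linarith
    obtain ⟨a1, a2, a3⟩ := one_tuple (h.rpos v hv1) hf0 (h.cop v hv1) (h.rdvd v hv1) (hpos v hv1)
      b1 b2 b3 hzpos hA
    refine ⟨a1, a2, ?_, ?_⟩
    · intro i
      refine Fin.addCases (fun i => ?_) (fun j => ?_) i
      · rw [Fin.append_left]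
        refine (h.up v hv1 i).trans ?_
        have h1 : (v : ℝ) ^ (d + s) ≤ Y ^ (d + s) := by gcongr
        have h2 : (0 : ℝ) ≤ 2 * (k + 1) := by positivity
        have h3 : C ≤ C + 2 * (k + 1) := by linarith
        gcongr
      · rw [Fin.append_right]
        have h1 : Y ^ d ≤ Y ^ (d + s) := pow_le_pow_right₀ hY1 (by omega)
        by_cases hj : j = Fin.last (k + 1)
        · rw [hj]
          calc |((z (Fin.last (k + 1)) : ℤ) : ℝ)| ≤ C * Y ^ d + (k + 1) * (2 * Y ^ θ) := c1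
            _ ≤ C * Y ^ (d + s) + (k + 1) * (2 * Y ^ (d + s)) := by
                have h4 := hYd.trans h1
                gcongr
            _ = _ := by ring
        · calc |((z j : ℤ) : ℝ)| ≤ 2 * Y ^ θ := hz1 j hj
            _ ≤ 2 * Y ^ (d + s) := by
                have h4 := hYd.trans h1
                gcongr
            _ ≤ (C + 2 * (k + 1)) * Y ^ (d + s) := by
                have h5 : (0 : ℝ) ≤ k := Nat.cast_nonneg _
                have h6 : (2 : ℝ) ≤ C + 2 * (k + 1) := by linarith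
                gcongr
    · have hr : (rad (Fin.append (f v) z) : ℝ) ≤ C2 * Y ^ ((d + s : ℕ) + (k + 1) * θ) := by
        have h1 : (rad (Fin.append (f v) z) : ℝ) ≤ (ρ v : ℝ) * ((∏ j, (z j).natAbs : ℕ) : ℝ) := by
          exact_mod_cast a3
        have h2 : (ρ v : ℝ) ≤ C * Y ^ s := by
          refine (h.rle v hv1).trans ?_
          have : (v : ℝ) ^ s ≤ Y ^ s := by gcongr
          gcongr
        have h3 := c3 (by positivity) (by positivity)
        have h4 : C * Y ^ d + (k + 1) * (2 * Y ^ θ) ≤ (C + 2 * (k + 1)) * Y ^ d := by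
          calc C * Y ^ d + (k + 1) * (2 * Y ^ θ) ≤ C * Y ^ d + (k + 1) * (2 * Y ^ d) := by gcongr
            _ = _ := by ring
        calc (rad (Fin.append (f v) z) : ℝ)
            ≤ (ρ v : ℝ) * ((∏ j, (z j).natAbs : ℕ) : ℝ) := h1
          _ ≤ (C * Y ^ s) * ((2 * Y ^ θ) ^ (k + 1) * ((C + 2 * (k + 1)) * Y ^ d)) := by
              have h5 : ((∏ j, (z j).natAbs : ℕ) : ℝ) ≤
                (2 * Y ^ θ) ^ (k + 1) * ((C + 2 * (k + 1)) * Y ^ d) := h3.trans (by gcongr)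
              gcongr
          _ = C2 * (Y ^ (d + s) * (Y ^ θ) ^ (k + 1)) := by rw [hC2, mul_pow, pow_add]; ring
          _ = C2 * Y ^ ((d + s : ℕ) + (k + 1) * θ) := by
              rw [Real.rpow_add hY0, Real.rpow_natCast, ← Real.rpow_natCast (Y ^ θ) (k + 1),
                ← Real.rpow_mul hY0.le]
              push_cast
              ring_nf
      have h1 : K * (rad (Fin.append (f v) z) : ℝ) ^ M < (Y / 2) ^ (d + s) := by
        have h2 : (rad (Fin.append (f v) z) : ℝ) ^ M ≤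
            (C2 * Y ^ ((d + s : ℕ) + (k + 1) * θ)) ^ M :=
          Real.rpow_le_rpow (Nat.cast_nonneg _) hr hM.le
        rw [Real.mul_rpow hC20.le (by positivity), ← Real.rpow_mul hY0.le] at h2
        rw [div_pow, lt_div_iff₀ (by positivity)]
        calc K * (rad (Fin.append (f v) z) : ℝ) ^ M * 2 ^ (d + s)
            ≤ K * (C2 ^ M * Y ^ (((d + s : ℕ) + (k + 1) * θ) * M)) * 2 ^ (d + s) := by gcongr
          _ = (K * C2 ^ M * 2 ^ (d + s)) * Y ^ (((d + s : ℕ) + (k + 1) * θ) * M) := by ring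
          _ < Y ^ (((d + s : ℕ) : ℝ) - M * ((d + s : ℕ) + (k + 1) * θ)) *
              Y ^ (((d + s : ℕ) + (k + 1) * θ) * M) := by
              have : 0 < Y ^ (((d + s : ℕ) + (k + 1) * θ) * M) := by positivity
              gcongr
          _ = Y ^ (d + s) := by
              rw [← Real.rpow_add hY0, ← Real.rpow_natCast Y (d + s)]
              congr 1
              ring
      have h2 : (Y / 2) ^ (d + s) ≤ (v : ℝ) ^ (d + s) := by gcongr
      exact lt_of_lt_of_le h1 (h2.trans (h.lo v hv1))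
  refine ⟨V.biUnion (fun v => (G v).image (fun z => Fin.append (f v) z)), ?_, ?_⟩
  · intro x hx
    obtain ⟨v, hv, hx2⟩ := mem_biUnion.1 hx
    obtain ⟨z, hz, rfl⟩ := mem_image.1 hx2
    obtain ⟨a1, a2, a3, a4⟩ := hone v hv z hz
    refine ⟨a1, a2, a3, ?_⟩
    rw [Fin.append_left]
    exact a4
  · rw [card_biUnion]
    · have h6 : ∀ v ∈ V, ((Z : ℝ) * Y ^ (-ε)) ^ (k + 1) ≤
          ((#((G v).image (fun z => Fin.append (f v) z)) : ℕ) : ℝ) := by
        intro v hv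
        rw [card_image_of_injective]
        · exact (hG v hv).2
        · intro a b hab
          funext j
          have := congrFun hab (Fin.natAdd s j)
          simpa using this
      push_cast
      calc Y ^ (1 + (k + 1) * (θ - ε) - ε)
          ≤ Y / 4 * (Y ^ θ / 2 * Y ^ (-ε)) ^ (k + 1) := by
            have h1 : Y ^ θ / 2 * Y ^ (-ε) = Y ^ (θ - ε) / 2 := by
              rw [sub_eq_add_neg, Real.rpow_add hY0]; ring
            have h2 : (Y ^ (θ - ε) / 2) ^ (k + 1) = Y ^ ((k + 1) * (θ - ε)) / 2 ^ (k + 1) := by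
              rw [div_pow, ← Real.rpow_natCast (Y ^ (θ - ε)) (k + 1), ← Real.rpow_mul hY0.le]
              push_cast
              ring_nf
            rw [h1, h2, Real.rpow_sub hY0, Real.rpow_add hY0, Real.rpow_one]
            have h3 : Y / 4 * (Y ^ ((k + 1) * (θ - ε)) / 2 ^ (k + 1)) =
              Y * Y ^ ((k + 1) * (θ - ε)) / (4 * 2 ^ (k + 1)) := by field_simp
            rw [h3]
            gcongr
        _ ≤ #V * ((Z : ℝ) * Y ^ (-ε)) ^ (k + 1) := by gcongr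
        _ = ∑ v ∈ V, ((Z : ℝ) * Y ^ (-ε)) ^ (k + 1) := by rw [sum_const, nsmul_eq_mul]
        _ ≤ _ := sum_le_sum h6
    · intro a ha b hb hab
      rw [Function.onFun, disjoint_left]
      intro x hx1 hx2
      obtain ⟨z1, _, rfl⟩ := mem_image.1 hx1
      obtain ⟨z2, _, hx⟩ := mem_image.1 hx2
      apply hab
      refine h.inj a b (hv0 a ha) (hv0 b hb) ?_
      have := congrFun hx (Fin.castAdd (k + 2) i0)
      simp only [Fin.append_left] at this
      rw [this]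

end Pool.Agent.V5helper53.TM
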