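import Pool.Agent.V5helper53.TM.Par

set_option autoImplicit false

/-!
# The block for even `n`
-/

namespace Pool.Agent.V5helper53.TM

open Finset Filter Topology

theorem main4 {D P G κ u m y w c2 c3 : ℝ} (hκ : κ = 9 * D) (hu : u = 3 * D * P)
    (hG : 4 * G = 3 * u ^ 2 + 1) (hw : 3 * w = D * P ^ 3) (hc3 : 6 * c3 = D * (D - 1) * (D - 2))
    (hc2 : 2 * c2 = (D - 1) * (D - 2)) :
    2 * (D * (2 * G * P) * (m ^ 2 * y)) + 2 * (c3 * (2 * G * P) ^ 3 * y) -
      (κ ^ 2 * w * (m ^ 2 * y) + (D - 1) * (2 * G) * (κ * w * (m * y)) + c2 * (2 * G) ^ 2 * (w * y)) -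
      D * P * (m ^ 2 * y - (D - 1) * (2 * G * u * P) * (m * y) + c2 * (2 * G * u * P) ^ 2 * y) = 0 := by
  have hG' : G = (3 * (3 * D * P) ^ 2 + 1) / 4 := by rw [← hu]; linarith
  have hw' : w = D * P ^ 3 / 3 := by linarith
  have hc3' : c3 = D * (D - 1) * (D - 2) / 6 := by linarith
  have hc2' : c2 = (D - 1) * (D - 2) / 2 := by linarith
  rw [hκ, hu, hG', hw', hc3', hc2']
  ring

theorem choose_two_real (n : ℕ) : 2 * ((n + 1).choose 2 : ℝ) = (n + 1) * n := by
  induction n with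
  | zero => simp
  | succ n ih =>
    rw [Nat.choose_succ_succ' (n + 1) 1, Nat.choose_one_right]
    push_cast
    linear_combination ih

theorem choose_three_real (n : ℕ) : 6 * ((n + 2).choose 3 : ℝ) = (n + 2) * (n + 1) * n := by
  induction n with
  | zero => simp
  | succ n ih =>
    rw [Nat.choose_succ_succ' (n + 2) 2]
    have := choose_two_real (n + 1)
    push_cast at this ⊢
    linear_combination ih + 3 * this

section

variable {d D P G κ u E : ℕ} (h : Par d D P G κ u E)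

include h

theorem Par.sum_le : ∃ C : ℝ, 0 ≤ C ∧ ∀ m : ℝ, 1 ≤ m →
    |(m + 2 * G * P) ^ D - (m - 2 * G * P) ^ D - (κ * m + 2 * G) ^ (D - 1) -
      D * P * (m - 2 * G * u * P) ^ (D - 1)| ≤ C * m ^ d := by
  obtain ⟨C1, hC1, t1⟩ := taylor (2 * G * P) D 4
  obtain ⟨C2, hC2, t2⟩ := taylor (-(2 * G * P)) D 4
  obtain ⟨C3, hC3, t3⟩ := taylor (2 * G) (D - 1) 3
  obtain ⟨C4, hC4, t4⟩ := taylor (-(2 * G * u * P)) (D - 1) 3
  have hD := h.hD
  have hκ1 : (1 : ℝ) ≤ κ := by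
    have : 1 ≤ κ := by rw [h.hκ]; omega
    exact_mod_cast this
  refine ⟨C1 + C2 + C3 * κ ^ d + D * P * C4, by positivity, fun m hm => ?_⟩
  have s1 := t1 m hm
  have s2 := t2 m hm
  have s3 := t3 (κ * m) (by nlinarith)
  have s4 := t4 m hm
  set y : ℝ := m ^ (d + 1) with hy
  set w : ℝ := (κ : ℝ) ^ (d + 1) with hw
  have q0 : D - 1 = d + 3 := by omega
  have q1 : D - 2 = d + 2 := by omega
  have q2 : D - 3 = d + 1 := by omega
  have q3 : D - 4 = d := by omega
  have q4 : d + 3 - 1 = d + 2 := by omega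
  have q5 : d + 3 - 2 = d + 1 := by omega
  have q6 : d + 3 - 3 = d := by omega
  simp only [sum_range_succ, sum_range_zero, Nat.choose_zero_right, Nat.choose_one_right,
      pow_zero, pow_one, Nat.cast_one, one_mul, zero_add, Nat.sub_zero, mul_one, q0, q1, q2, q3,
      q4, q5, q6] at s1 s2 s3 s4
  have y1 : m ^ (d + 3) = m ^ 2 * y := by rw [hy]; ring
  have y2 : m ^ (d + 2) = m * y := by rw [hy]; ring
  have x1 : (κ * m) ^ (d + 3) = κ ^ 2 * w * (m ^ 2 * y) := by rw [hy, hw]; ring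
  have x2 : (κ * m) ^ (d + 2) = κ * w * (m * y) := by rw [hy, hw]; ring
  have x3 : (κ * m) ^ (d + 1) = w * y := by rw [hy, hw]; ring
  have x4 : (κ * m) ^ d = κ ^ d * m ^ d := mul_pow _ _ _
  rw [y1, y2, ← hy] at s1 s2 s4
  rw [x1, x2, x3, x4] at s3
  have hDr : (D : ℝ) = d + 4 := by exact_mod_cast hD
  have hc3 : 6 * (D.choose 3 : ℝ) = D * (D - 1) * (D - 2) := by
    have := choose_three_real (d + 2)
    have e : d + 2 + 2 = D := by omega
    rw [e] at this
    rw [this, hDr]; push_cast; ring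
  have hc2 : 2 * ((d + 3).choose 2 : ℝ) = (D - 1) * (D - 2) := by
    have := choose_two_real (d + 2)
    have e : d + 2 + 1 = d + 3 := by omega
    rw [e] at this
    rw [this, hDr]; push_cast; ring
  have hm4 := main4 (D := (D : ℝ)) (P := P) (G := G) (κ := κ) (u := u) (m := m) (y := y) (w := w)
    (c2 := ((d + 3).choose 2 : ℝ)) (c3 := (D.choose 3 : ℝ)) (by exact_mod_cast h.hκ)
    (by exact_mod_cast h.hu) (by exact_mod_cast h.hG) (by rw [hw]; exact_mod_cast h.hw) hc3 hc2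
  rw [q0]
  have hd3 : ((d + 3 : ℕ) : ℝ) = D - 1 := by rw [hDr]; push_cast; ring
  rw [hd3] at s3 s4
  set T1 : ℝ := m ^ D + (D : ℝ) * (2 * G * P) * (m ^ 2 * y) +
    (D.choose 2 : ℝ) * (2 * G * P) ^ 2 * (m * y) + (D.choose 3 : ℝ) * (2 * G * P) ^ 3 * y with hT1
  set T2 : ℝ := m ^ D + (D : ℝ) * -(2 * G * P) * (m ^ 2 * y) +
    (D.choose 2 : ℝ) * (-(2 * G * P)) ^ 2 * (m * y) + (D.choose 3 : ℝ) * (-(2 * G * P)) ^ 3 * y with hT2
  set T3 : ℝ := κ ^ 2 * w * (m ^ 2 * y) + (D - 1) * (2 * G) * (κ * w * (m * y)) +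
    ((d + 3).choose 2 : ℝ) * (2 * G) ^ 2 * (w * y) with hT3
  set T4 : ℝ := m ^ 2 * y + (D - 1) * -(2 * G * u * P) * (m * y) +
    ((d + 3).choose 2 : ℝ) * (-(2 * G * u * P)) ^ 2 * y with hT4
  have hT : T1 - T2 - T3 - D * P * T4 = 0 := by
    rw [hT1, hT2, hT3, hT4]
    linear_combination hm4
  have e : (m + 2 * G * P) ^ D - (m - 2 * G * P) ^ D - (κ * m + 2 * G) ^ (d + 3) -
      D * P * (m - 2 * G * u * P) ^ (d + 3) =
      ((m + 2 * G * P) ^ D - T1) - ((m + -(2 * G * P)) ^ D - T2) -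
        ((κ * m + 2 * G) ^ (d + 3) - T3) - D * P * ((m + -(2 * G * u * P)) ^ (d + 3) - T4) := by
    rw [← sub_eq_add_neg, ← sub_eq_add_neg]
    linear_combination hT
  rw [e]
  have hDP : (0 : ℝ) ≤ D * P := by positivity
  calc _ ≤ |(m + 2 * G * P) ^ D - T1| + |(m + -(2 * G * P)) ^ D - T2| +
        |(κ * m + 2 * G) ^ (d + 3) - T3| + |D * P * ((m + -(2 * G * u * P)) ^ (d + 3) - T4)| := by
        refine (abs_sub _ _).trans (add_le_add_left ?_ _)
        refine (abs_sub _ _).trans (add_le_add_left ?_ _)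
        exact abs_sub _ _
    _ ≤ C1 * m ^ d + C2 * m ^ d + C3 * (κ ^ d * m ^ d) + D * P * (C4 * m ^ d) := by
        rw [abs_mul, abs_of_nonneg hDP]
        gcongr
    _ = _ := by ring

end

/-- the four polynomials -/
def f4 (D P G κ u E : ℕ) (v : ℕ) : Fin 4 → ℤ :=
  ![((E * (1 + 6 * D * G * v) : ℤ) + 2 * G * P) ^ D, -((E * (1 + 6 * D * G * v) : ℤ) - 2 * G * P) ^ D,
    -(κ * (E * (1 + 6 * D * G * v) : ℤ) + 2 * G) ^ (D - 1),
    -(D * P * ((E * (1 + 6 * D * G * v) : ℤ) - 2 * G * u * P) ^ (D - 1))]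

theorem subsets4' : ∀ S : Finset (Fin 4), S ≠ ∅ → S ≠ univ →
    ∃ i, S = {i} ∨ S = {i}ᶜ ∨ (i ≠ 0 ∧ (S = {0, i} ∨ S = {0, i}ᶜ)) := by
  decide

theorem blk4 {d D P G κ u E : ℕ} (h : Par d D P G κ u E) : ∃ (C : ℝ) (v0 : ℕ) (i0 : Fin 4)
    (f : ℕ → Fin 4 → ℤ) (ρ : ℕ → ℕ), Blk 4 d C v0 i0 f ρ := by
  obtain ⟨CT, hCT, hT⟩ := h.sum_le
  have hD := h.hD
  have hD1 : D = D - 1 + 1 := by omega
  have hDev : Even (D - 1) := by
    obtain ⟨t, ht⟩ := h.hDo
    exact ⟨t, by omega⟩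
  have hE1 : 1 ≤ E := by
    obtain ⟨t, ht⟩ := h.hEo; omega
  have hG1 : 1 ≤ G := by
    obtain ⟨t, ht⟩ := h.hGo; omega
  have hP1 : 1 ≤ P := by
    obtain ⟨t, ht⟩ := h.hPo; omega
  have hu1 : 1 ≤ u := by
    rw [h.hu]; exact Nat.mul_pos (by omega) hP1
  have hκ1 : 1 ≤ κ := by rw [h.hκ]; omega
  have hEr : (1 : ℝ) ≤ E := by exact_mod_cast hE1
  have hGr : (1 : ℝ) ≤ G := by exact_mod_cast hG1
  have hPr : (1 : ℝ) ≤ P := by exact_mod_cast hP1
  have hur : (1 : ℝ) ≤ u := by exact_mod_cast hu1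
  have hκr : (1 : ℝ) ≤ κ := by exact_mod_cast hκ1
  have hDr : (4 : ℝ) ≤ D := by
    have : 4 ≤ D := by omega
    exact_mod_cast this
  set μ : ℕ → ℕ := fun v => E * (1 + 6 * D * G * v) with hμ
  have hμZ : ∀ v, ((μ v : ℕ) : ℤ) = E * (1 + 6 * D * G * v) := fun v => by
    rw [hμ]; push_cast; ring
  have hμR : ∀ v, ((μ v : ℕ) : ℝ) = E * (1 + 6 * D * G * v) := fun v => by
    rw [hμ]; push_cast; ring
  have hμge : ∀ v, v ≤ μ v := by
    intro v
    have h1 : v ≤ 6 * D * G * v := by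
      have : 1 ≤ 6 * D * G := Nat.mul_pos (by omega) hG1
      nlinarith
    have h2 : 1 + 6 * D * G * v ≤ E * (1 + 6 * D * G * v) := Nat.le_mul_of_pos_left _ hE1
    show v ≤ E * (1 + 6 * D * G * v)
    omega
  set A0 : ℝ := E * (1 + 6 * D * G) with hA0
  have hA01 : 1 ≤ A0 := by
    have h1 : (1 : ℝ) ≤ 1 + 6 * D * G := by
      have : (0 : ℝ) ≤ 6 * D * G := by positivity
      linarith
    rw [hA0]; exact one_le_mul_of_one_le_of_one_le hEr h1
  have hμle : ∀ v : ℕ, 1 ≤ v → ((μ v : ℕ) : ℝ) ≤ A0 * v := by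
    intro v hv
    have hv' : (1 : ℝ) ≤ v := by exact_mod_cast hv
    rw [hμR, hA0]
    have : (1 + 6 * (D : ℝ) * G * v) ≤ (1 + 6 * D * G) * v := by
      have : (0 : ℝ) ≤ 6 * D * G := by positivity
      nlinarith
    calc (E : ℝ) * (1 + 6 * D * G * v) ≤ E * ((1 + 6 * D * G) * v) := by gcongr
      _ = _ := by ring
  set N : ℝ := 2 * G * P with hN
  set c : ℝ := 2 * G * u * P with hc
  have hN0 : 0 < N := by positivity
  have hc0 : 0 < c := by positivity
  have hNc : N ≤ c := by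
    rw [hN, hc]
    have : 2 * (G : ℝ) * u * P = 2 * G * P * u := by ring
    rw [this]
    exact le_mul_of_one_le_right (by positivity) hur
  set Cu : ℝ := (1 + N) ^ D + (κ + 2 * G) ^ (D - 1) + D * P with hCu
  have hCu0 : 0 ≤ Cu := by positivity
  set Cs : ℝ := 2 ^ (D + 1) with hCs
  set Cr : ℝ := (1 + N) * (κ + 2 * G) * (D * P) with hCr
  have hCr0 : 0 ≤ Cr := by positivity
  obtain ⟨v0, hv0⟩ := exists_nat_ge (2 * c + (κ + 2 * G) ^ (D - 1) + D * P + 2 ^ (D + 1) * CT + 2)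
  set C : ℝ := Cu * A0 ^ D + CT * A0 ^ d + Cs + Cr * A0 ^ 4 + 1 with hC
  have p1 : 0 ≤ Cu * A0 ^ D := by positivity
  have p2 : 0 ≤ CT * A0 ^ d := by positivity
  have p3 : 0 ≤ Cs := by positivity
  have p4 : 0 ≤ Cr * A0 ^ 4 := by positivity
  have hκG : 0 ≤ ((κ : ℝ) + 2 * G) ^ (D - 1) := by positivity
  have hDP : 0 ≤ (D : ℝ) * P := by positivity
  have hCT2 : 0 ≤ 2 ^ (D + 1) * CT := by positivity
  -- consequences for large v
  have big : ∀ v : ℕ, v0 ≤ v → 2 * c ≤ μ v ∧ (κ + 2 * G) ^ (D - 1) + 1 ≤ (μ v : ℝ) ∧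
      D * P + 1 ≤ (μ v : ℝ) ∧ 2 ^ (D + 1) * CT ≤ (μ v : ℝ) ∧ (1 : ℝ) ≤ μ v := by
    intro v hv
    have h1 : (v0 : ℝ) ≤ μ v := by exact_mod_cast hv.trans (hμge v)
    refine ⟨?_, ?_, ?_, ?_, ?_⟩ <;> linarith
  have hv01 : 1 ≤ v0 := by
    have : (1 : ℝ) ≤ v0 := by linarith
    exact_mod_cast this
  -- real values
  have hr0 : ∀ v, ((f4 D P G κ u E v 0 : ℤ) : ℝ) = (μ v + N) ^ D := by
    intro v; simp [f4, hμR, hN]
  have hr1 : ∀ v, ((f4 D P G κ u E v 1 : ℤ) : ℝ) = -(μ v - N) ^ D := by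
    intro v; simp [f4, hμR, hN]
  have hr2 : ∀ v, ((f4 D P G κ u E v 2 : ℤ) : ℝ) = -(κ * μ v + 2 * G) ^ (D - 1) := by
    intro v; simp [f4, hμR]
  have hr3 : ∀ v, ((f4 D P G κ u E v 3 : ℤ) : ℝ) = -(D * P * (μ v - c) ^ (D - 1)) := by
    intro v; simp [f4, hμR, hc]
  have hsumR : ∀ v, ((∑ i, f4 D P G κ u E v i : ℤ) : ℝ) = (μ v + N) ^ D - (μ v - N) ^ D -
      (κ * μ v + 2 * G) ^ (D - 1) - D * P * (μ v - c) ^ (D - 1) := by
    intro v
    rw [Fin.sum_univ_four]
    push_cast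
    rw [hr0, hr1, hr2, hr3]
    ring
  have hsmall : ∀ v, v0 ≤ v → |((∑ i, f4 D P G κ u E v i : ℤ) : ℝ)| ≤ CT * (μ v : ℝ) ^ d := by
    intro v hv
    rw [hsumR]
    exact hT _ (big v hv).2.2.2.2
  have hpowD : ∀ x : ℝ, x ^ D = x * x ^ (D - 1) := by
    intro x
    conv_lhs => rw [hD1]
    rw [pow_succ']
  have hDd : D - 1 = d + 3 := by omega
  -- lower bounds
  have low : ∀ v, v0 ≤ v → (∀ i, (μ v : ℝ) ^ (D - 1) / 2 ^ D ≤ |((f4 D P G κ u E v i : ℤ) : ℝ)|) ∧
      (∀ i, i ≠ 0 → (μ v : ℝ) ^ (D - 1) / 2 ^ D ≤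
        |((f4 D P G κ u E v 0 + f4 D P G κ u E v i : ℤ) : ℝ)|) ∧
      |((∑ i, f4 D P G κ u E v i : ℤ) : ℝ)| ≤ (μ v : ℝ) ^ (D - 1) / 2 ^ D / 2 := by
    intro v hv
    obtain ⟨b1, b2, b3, b4, b5⟩ := big v hv
    set m : ℝ := (μ v : ℝ) with hm
    have hm0 : 0 < m := by linarith
    have hmN : m / 2 ≤ m - N := by linarith
    have hmc : m / 2 ≤ m - c := by linarith
    have hmD0 : 0 ≤ m ^ (D - 1) := by positivity
    have h2D : (1 : ℝ) ≤ 2 ^ D := one_le_pow₀ (by norm_num)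
    have h2D1 : (1 : ℝ) ≤ 2 ^ (D - 1) := one_le_pow₀ (by norm_num)
    have hle : m ^ (D - 1) / 2 ^ D ≤ m ^ (D - 1) := div_le_self hmD0 h2D
    have l3 : m ^ (D - 1) / 2 ^ D ≤ (m - c) ^ (D - 1) := by
      calc m ^ (D - 1) / 2 ^ D ≤ m ^ (D - 1) / 2 ^ (D - 1) := by
            have : (2 : ℝ) ^ (D - 1) ≤ 2 ^ D := pow_le_pow_right₀ (by norm_num) (Nat.sub_le _ _)
            gcongr
        _ = (m / 2) ^ (D - 1) := by rw [div_pow]
        _ ≤ (m - c) ^ (D - 1) := pow_le_pow_left₀ (by positivity) hmc _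
    have l3' : (m - c) ^ (D - 1) ≤ D * P * (m - c) ^ (D - 1) := by
      have h1 : 0 ≤ (m - c) ^ (D - 1) := pow_nonneg (by linarith) _
      have h2 : (1 : ℝ) ≤ D * P := by
        have h3 : (D : ℝ) ≤ D * P := le_mul_of_one_le_right (by linarith) hPr
        linarith
      exact le_mul_of_one_le_left h1 h2
    have hκm : m ≤ κ * m := le_mul_of_one_le_left hm0.le hκr
    have l2 : m ^ (D - 1) ≤ (κ * m + 2 * G) ^ (D - 1) :=
      pow_le_pow_left₀ hm0.le (by linarith) _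
    have h2G : κ * m + 2 * G ≤ (κ + 2 * G) * m := by
      have h1 : 2 * (G : ℝ) ≤ 2 * G * m := le_mul_of_one_le_right (by positivity) b5
      have h2 : ((κ : ℝ) + 2 * G) * m = κ * m + 2 * G * m := by ring
      rw [h2]; linarith
    have l0 : m ^ D ≤ (m + N) ^ D := pow_le_pow_left₀ hm0.le (by linarith) _
    have l0' : m ^ (D - 1) ≤ m ^ D := pow_le_pow_right₀ b5 (Nat.sub_le _ _)
    have l1 : m ^ (D - 1) / 2 ^ D ≤ (m - N) ^ D := by
      calc m ^ (D - 1) / 2 ^ D ≤ m ^ D / 2 ^ D := by gcongr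
        _ = (m / 2) ^ D := by rw [div_pow]
        _ ≤ (m - N) ^ D := pow_le_pow_left₀ (by positivity) hmN _
    have hmN0 : 0 ≤ (m - N) ^ D := pow_nonneg (by linarith) _
    have hmc0 : 0 ≤ (m - c) ^ (D - 1) := pow_nonneg (by linarith) _
    refine ⟨?_, ?_, ?_⟩
    · intro i
      fin_cases i
      · show _ ≤ |((f4 D P G κ u E v 0 : ℤ) : ℝ)|
        rw [hr0]
        exact (hle.trans (l0'.trans l0)).trans (le_abs_self _)
      · show _ ≤ |((f4 D P G κ u E v 1 : ℤ) : ℝ)|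
        rw [hr1, abs_neg]
        exact l1.trans (le_abs_self _)
      · show _ ≤ |((f4 D P G κ u E v 2 : ℤ) : ℝ)|
        rw [hr2, abs_neg]
        exact (hle.trans l2).trans (le_abs_self _)
      · show _ ≤ |((f4 D P G κ u E v 3 : ℤ) : ℝ)|
        rw [hr3, abs_neg]
        exact (l3.trans l3').trans (le_abs_self _)
    · intro i hi
      fin_cases i
      · exact absurd rfl hi
      · show _ ≤ |((f4 D P G κ u E v 0 + f4 D P G κ u E v 1 : ℤ) : ℝ)|
        rw [Int.cast_add, hr0, hr1]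
        refine le_trans ?_ (le_abs_self _)
        have h3 := pow_sub_pow_ge (a := m + N) (b := m - N) (by linarith) (by linarith) (D - 1)
        rw [← hD1] at h3
        have h4 : m ^ (D - 1) ≤ (m + N) ^ (D - 1) := pow_le_pow_left₀ hm0.le (by linarith) _
        have h5 : 1 ≤ m + N - (m - N) := by
          have h7 : (1 : ℝ) ≤ G * P := one_le_mul_of_one_le_of_one_le hGr hPr
          have : 1 ≤ N := by rw [hN, mul_assoc]; linarith
          linarith
        have h6 : 0 ≤ (m + N) ^ (D - 1) := by positivity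
        have h7 : (m + N) ^ (D - 1) ≤ (m + N - (m - N)) * (m + N) ^ (D - 1) :=
          le_mul_of_one_le_left h6 h5
        linarith
      · show _ ≤ |((f4 D P G κ u E v 0 + f4 D P G κ u E v 2 : ℤ) : ℝ)|
        rw [Int.cast_add, hr0, hr2]
        refine le_trans ?_ (le_abs_self _)
        have h3 : (κ * m + 2 * G) ^ (D - 1) ≤ (κ + 2 * G) ^ (D - 1) * m ^ (D - 1) := by
          rw [← mul_pow]
          exact pow_le_pow_left₀ (by positivity) h2G _
        have h4 := hpowD m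
        rw [h4] at l0
        have h5 : ((κ + 2 * G) ^ (D - 1) + 1) * m ^ (D - 1) ≤ m * m ^ (D - 1) := by gcongr
        linarith
      · show _ ≤ |((f4 D P G κ u E v 0 + f4 D P G κ u E v 3 : ℤ) : ℝ)|
        rw [Int.cast_add, hr0, hr3]
        refine le_trans ?_ (le_abs_self _)
        have h3 : D * P * (m - c) ^ (D - 1) ≤ D * P * m ^ (D - 1) := by
          have : (m - c) ^ (D - 1) ≤ m ^ (D - 1) :=
            pow_le_pow_left₀ (by linarith) (by linarith) _
          gcongr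
        have h4 := hpowD m
        rw [h4] at l0
        have h5 : (D * P + 1) * m ^ (D - 1) ≤ m * m ^ (D - 1) := by gcongr
        linarith
    · refine (hsmall v hv).trans ?_
      rw [div_div, le_div_iff₀ (by positivity)]
      calc CT * m ^ d * (2 ^ D * 2) = (2 ^ (D + 1) * CT) * m ^ d := by rw [pow_succ]; ring
        _ ≤ m * m ^ d := by gcongr
        _ = m ^ (d + 1) := by rw [pow_succ]; ring
        _ ≤ m ^ (D - 1) := pow_le_pow_right₀ b5 (by omega)
  refine ⟨C, v0, 0, f4 D P G κ u E, fun v => (μ v + 2 * G * P) * (μ v - 2 * G * P) *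
    (κ * μ v + 2 * G) * (D * P * (μ v - 2 * G * u * P)), ?_⟩
  refine ⟨by linarith, hv01, ?_, ?_, ?_, ?_, ?_, ?_, ?_, ?_, ?_, ?_, ?_⟩
  · intro v _ i j hij
    obtain ⟨c1, c2, c3, c4, c5, c6⟩ := h.cop (m := (E * (1 + 6 * D * G * v) : ℤ)) v rfl
    have hx : ∀ a : ℤ, IsCoprime a (D * P * ((E * (1 + 6 * D * G * v) : ℤ) - 2 * G * u * P)) →
        IsCoprime a (D * P * ((E * (1 + 6 * D * G * v) : ℤ) - 2 * G * u * P) ^ (D - 1)) :=
      fun a ha => ha.of_mul_right_left.mul_right ha.of_mul_right_right.pow_right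
    have d01 : IsCoprime (f4 D P G κ u E v 0) (f4 D P G κ u E v 1) := (c1.pow).neg_right
    have d02 : IsCoprime (f4 D P G κ u E v 0) (f4 D P G κ u E v 2) := (c2.pow).neg_right
    have d12 : IsCoprime (f4 D P G κ u E v 1) (f4 D P G κ u E v 2) := (c3.pow).neg_neg
    have d03 : IsCoprime (f4 D P G κ u E v 0) (f4 D P G κ u E v 3) :=
      (hx _ c4).pow_left.neg_right
    have d13 : IsCoprime (f4 D P G κ u E v 1) (f4 D P G κ u E v 3) :=
      (hx _ c5).pow_left.neg_neg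
    have d23 : IsCoprime (f4 D P G κ u E v 2) (f4 D P G κ u E v 3) :=
      (hx _ c6).pow_left.neg_neg
    fin_cases i <;> fin_cases j
    · exact absurd rfl hij
    · exact d01
    · exact d02
    · exact d03
    · exact d01.symm
    · exact absurd rfl hij
    · exact d12
    · exact d13
    · exact d02.symm
    · exact d12.symm
    · exact absurd rfl hij
    · exact d23
    · exact d03.symm
    · exact d13.symm
    · exact d23.symm
    · exact absurd rfl hij
  · intro v _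
    have mo := h.two_cop (m := (E * (1 + 6 * D * G * v) : ℤ)) v rfl
    have o1 : Odd (f4 D P G κ u E v 0) := by
      refine Odd.pow (mo.add_even ?_)
      rw [mul_assoc]; exact even_two_mul _
    have o2 : Odd (f4 D P G κ u E v 1) := by
      refine Odd.neg (Odd.pow (mo.sub_even ?_))
      rw [mul_assoc]; exact even_two_mul _
    have hκo : Odd (κ : ℤ) := by
      have : (κ : ℤ) = 9 * D := by exact_mod_cast h.hκ
      rw [this]
      exact Odd.mul (by decide) (by exact_mod_cast h.hDo)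
    have o3 : Odd (f4 D P G κ u E v 2) :=
      Odd.neg (Odd.pow ((hκo.mul mo).add_even (even_two_mul _)))
    have o4 : Odd (f4 D P G κ u E v 3) := by
      refine Odd.neg (Odd.mul (Odd.mul (by exact_mod_cast h.hDo) (by exact_mod_cast h.hPo))
        (Odd.pow (mo.sub_even ?_)))
      rw [mul_assoc, mul_assoc]; exact even_two_mul _
    rw [Fin.sum_univ_four]
    exact ((o1.add_odd o2).add_odd o3).add_odd o4
  · intro v _ h0
    rw [Fin.sum_univ_four] at h0
    have hp3 : Prime (3 : ℤ) := Int.prime_three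
    have hP3 : (3 : ℤ) ∣ P := by exact_mod_cast h.hP3
    have h01 : (3 : ℤ) ∣ f4 D P G κ u E v 0 + f4 D P G κ u E v 1 := by
      have h1 := sub_dvd_pow_sub_pow ((E * (1 + 6 * D * G * v) : ℤ) + 2 * G * P)
        ((E * (1 + 6 * D * G * v) : ℤ) - 2 * G * P) D
      have e : (E * (1 + 6 * D * G * v) : ℤ) + 2 * G * P - ((E * (1 + 6 * D * G * v) : ℤ) - 2 * G * P) =
        4 * G * P := by ring
      rw [e] at h1
      have h2 := (hP3.mul_left (4 * (G : ℤ))).trans h1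
      have e2 : f4 D P G κ u E v 0 + f4 D P G κ u E v 1 =
        ((E * (1 + 6 * D * G * v) : ℤ) + 2 * G * P) ^ D -
        ((E * (1 + 6 * D * G * v) : ℤ) - 2 * G * P) ^ D := by
        show _ + -_ = _
        rw [sub_eq_add_neg]; rfl
      rw [e2]; exact h2
    have h3 : (3 : ℤ) ∣ f4 D P G κ u E v 3 := by
      show (3 : ℤ) ∣ -(D * P * ((E * (1 + 6 * D * G * v) : ℤ) - 2 * G * u * P) ^ (D - 1))
      rw [dvd_neg]
      exact (hP3.mul_left _).mul_right _
    have h2 : (3 : ℤ) ∣ f4 D P G κ u E v 2 := by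
      have e : f4 D P G κ u E v 2 = -(f4 D P G κ u E v 0 + f4 D P G κ u E v 1) -
        f4 D P G κ u E v 3 := by linarith
      rw [e]
      exact dvd_sub ((dvd_neg).2 h01) h3
    have h2' : (3 : ℤ) ∣ -(κ * (E * (1 + 6 * D * G * v) : ℤ) + 2 * G) ^ (D - 1) := h2
    rw [dvd_neg] at h2'
    have h4 := hp3.dvd_of_dvd_pow h2'
    have hκ3 : (3 : ℤ) ∣ κ := ⟨3 * D, by
      have : (κ : ℤ) = 9 * D := by exact_mod_cast h.hκ
      rw [this]; ring⟩
    have h5 : (3 : ℤ) ∣ 2 * G := by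
      have := dvd_sub h4 (hκ3.mul_right (E * (1 + 6 * D * G * v) : ℤ))
      rwa [add_sub_cancel_left] at this
    have hGG : (4 * G : ℤ) = 3 * u ^ 2 + 1 := by exact_mod_cast h.hG
    omega
  · intro v hv i
    obtain ⟨b1, b2, b3, b4, b5⟩ := big v hv
    have hv1 : 1 ≤ v := hv01.trans hv
    set m : ℝ := (μ v : ℝ) with hm
    have hm0 : 0 < m := by linarith
    have hmD : m ^ D ≤ A0 ^ D * v ^ D := by
      rw [← mul_pow]
      exact pow_le_pow_left₀ hm0.le (hμle v hv1) _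
    have hmD1 : m ^ (D - 1) ≤ m ^ D := pow_le_pow_right₀ b5 (Nat.sub_le _ _)
    suffices hs : |((f4 D P G κ u E v i : ℤ) : ℝ)| ≤ Cu * m ^ D by
      have e : d + 4 = D := hD.symm
      rw [e]
      calc _ ≤ Cu * m ^ D := hs
        _ ≤ Cu * (A0 ^ D * v ^ D) := by gcongr
        _ = Cu * A0 ^ D * v ^ D := by ring
        _ ≤ C * v ^ D := by
            have : Cu * A0 ^ D ≤ C := by linarith
            gcongr
    have g1 : 0 ≤ (1 + N) ^ D := by positivity
    have g2 : (m + N) ^ D ≤ (1 + N) ^ D * m ^ D := by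
      rw [← mul_pow]
      refine pow_le_pow_left₀ (by positivity) ?_ _
      have h1 : N ≤ N * m := le_mul_of_one_le_right hN0.le b5
      have h2 : (1 + N) * m = m + N * m := by ring
      rw [h2]; linarith
    have hmD0 : 0 ≤ m ^ D := by positivity
    fin_cases i
    · show |((f4 D P G κ u E v 0 : ℤ) : ℝ)| ≤ _
      rw [hr0, abs_of_nonneg (by positivity)]
      have : (1 + N) ^ D ≤ Cu := by linarith
      calc _ ≤ (1 + N) ^ D * m ^ D := g2
        _ ≤ _ := by gcongr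
    · show |((f4 D P G κ u E v 1 : ℤ) : ℝ)| ≤ _
      rw [hr1, abs_neg, abs_of_nonneg (pow_nonneg (by linarith) _)]
      have : (1 + N) ^ D ≤ Cu := by linarith
      calc (m - N) ^ D ≤ (m + N) ^ D := pow_le_pow_left₀ (by linarith) (by linarith) _
        _ ≤ (1 + N) ^ D * m ^ D := g2
        _ ≤ _ := by gcongr
    · show |((f4 D P G κ u E v 2 : ℤ) : ℝ)| ≤ _
      rw [hr2, abs_neg, abs_of_nonneg (by positivity)]
      have h3 : (κ * m + 2 * G) ^ (D - 1) ≤ (κ + 2 * G) ^ (D - 1) * m ^ (D - 1) := by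
        rw [← mul_pow]
        refine pow_le_pow_left₀ (by positivity) ?_ _
        have h1 : 2 * (G : ℝ) ≤ 2 * G * m := le_mul_of_one_le_right (by positivity) b5
        have h2 : ((κ : ℝ) + 2 * G) * m = κ * m + 2 * G * m := by ring
        rw [h2]; linarith
      calc _ ≤ (κ + 2 * G) ^ (D - 1) * m ^ (D - 1) := h3
        _ ≤ Cu * m ^ D := by
            have : ((κ : ℝ) + 2 * G) ^ (D - 1) ≤ Cu := by linarith
            gcongr
    · show |((f4 D P G κ u E v 3 : ℤ) : ℝ)| ≤ _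
      rw [hr3, abs_neg, abs_of_nonneg (mul_nonneg hDP (pow_nonneg (by linarith) _))]
      calc D * P * (m - c) ^ (D - 1) ≤ D * P * m ^ (D - 1) := by
            have : (m - c) ^ (D - 1) ≤ m ^ (D - 1) :=
              pow_le_pow_left₀ (by linarith) (by linarith) _
            gcongr
        _ ≤ Cu * m ^ D := by
            have : (D : ℝ) * P ≤ Cu := by linarith
            gcongr
  · intro v hv
    have hv1 : 1 ≤ v := hv01.trans hv
    calc _ ≤ CT * (μ v : ℝ) ^ d := hsmall v hv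
      _ ≤ CT * (A0 * v) ^ d := by
          have := hμle v hv1
          gcongr
      _ = CT * A0 ^ d * v ^ d := by rw [mul_pow]; ring
      _ ≤ C * v ^ d := by
          have : CT * A0 ^ d ≤ C := by linarith
          gcongr
  · intro v hv
    rw [hr0, abs_of_nonneg (by positivity)]
    have e : d + 4 = D := hD.symm
    rw [e]
    have h1 : (v : ℝ) ≤ μ v := by exact_mod_cast hμge v
    exact pow_le_pow_left₀ (by positivity) (by linarith) _
  · intro v hv A hA1 hA2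
    obtain ⟨l1, l2, l3⟩ := low v hv
    have h1 : (v : ℝ) ≤ μ v := by exact_mod_cast hμge v
    have e : d + 4 - 1 = D - 1 := by omega
    rw [e]
    have h2 : (v : ℝ) ^ (D - 1) ≤ (μ v : ℝ) ^ (D - 1) := by gcongr
    have hcomp : ∀ S' : Finset (Fin 4), ((∑ i ∈ S'ᶜ, f4 D P G κ u E v i : ℤ) : ℝ) =
        ((∑ i, f4 D P G κ u E v i : ℤ) : ℝ) - ((∑ i ∈ S', f4 D P G κ u E v i : ℤ) : ℝ) := by
      intro S'
      have h3 := sum_add_sum_compl S' (f4 D P G κ u E v)
      rw [← h3]; push_cast; ring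
    have hc2 : ∀ S' : Finset (Fin 4), (μ v : ℝ) ^ (D - 1) / 2 ^ D ≤
        |((∑ i ∈ S', f4 D P G κ u E v i : ℤ) : ℝ)| → (μ v : ℝ) ^ (D - 1) / 2 ^ D / 2 ≤
        |((∑ i ∈ S'ᶜ, f4 D P G κ u E v i : ℤ) : ℝ)| := by
      intro S' hS'
      rw [hcomp]
      have h3 := abs_sub_abs_le_abs_sub ((∑ i ∈ S', f4 D P G κ u E v i : ℤ) : ℝ)
        ((∑ i, f4 D P G κ u E v i : ℤ) : ℝ)
      rw [abs_sub_comm] at h3
      linarith
    have hpos : 0 ≤ (μ v : ℝ) ^ (D - 1) / 2 ^ D := by positivity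
    have key : (μ v : ℝ) ^ (D - 1) / 2 ^ D / 2 ≤ |((∑ i ∈ A, f4 D P G κ u E v i : ℤ) : ℝ)| := by
      obtain ⟨i, h | h | ⟨hi, h | h⟩⟩ := subsets4' A (nonempty_iff_ne_empty.1 hA1) hA2
      · rw [h, sum_singleton]
        have := l1 i
        linarith
      · rw [h]
        refine hc2 _ ?_
        rw [sum_singleton]
        exact l1 i
      · rw [h, sum_pair hi.symm]
        have := l2 i hi
        linarith
      · rw [h]
        refine hc2 _ ?_
        rw [sum_pair hi.symm]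
        exact l2 i hi
    rw [div_div, div_le_iff₀ (by positivity)] at key
    calc (v : ℝ) ^ (D - 1) ≤ (μ v : ℝ) ^ (D - 1) := h2
      _ ≤ |((∑ i ∈ A, f4 D P G κ u E v i : ℤ) : ℝ)| * (2 ^ D * 2) := key
      _ = Cs * |((∑ i ∈ A, f4 D P G κ u E v i : ℤ) : ℝ)| := by rw [hCs, pow_succ]; ring
      _ ≤ C * |((∑ i ∈ A, f4 D P G κ u E v i : ℤ) : ℝ)| := by
          have : Cs ≤ C := by linarith
          gcongr
  · intro v hv
    obtain ⟨b1, _, _, _, b5⟩ := big v hv
    have h1 : 2 * G * u * P < μ v := by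
      have : c < μ v := by linarith
      rw [hc] at this
      exact_mod_cast this
    have h2 : 2 * G * P < μ v := by
      have : N < μ v := by linarith
      rw [hN] at this
      exact_mod_cast this
    have h3 : 0 < μ v - 2 * G * P := by omega
    have h4 : 0 < μ v - 2 * G * u * P := by omega
    have h5 : 0 < μ v := by omega
    have h6 : 0 < D := by omega
    show 0 < (μ v + 2 * G * P) * (μ v - 2 * G * P) * (κ * μ v + 2 * G) *
      (D * P * (μ v - 2 * G * u * P))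
    exact Nat.mul_pos (Nat.mul_pos (Nat.mul_pos (by omega) h3)
      (Nat.add_pos_left (Nat.mul_pos hκ1 h5) _)) (Nat.mul_pos (Nat.mul_pos h6 hP1) h4)
  · intro v hv
    have hv1 : 1 ≤ v := hv01.trans hv
    obtain ⟨_, _, _, _, b5⟩ := big v hv
    have hml := hμle v hv1
    have h1 : ((μ v - 2 * G * P : ℕ) : ℝ) ≤ μ v := by exact_mod_cast Nat.sub_le _ _
    have h2 : ((μ v - 2 * G * u * P : ℕ) : ℝ) ≤ μ v := by exact_mod_cast Nat.sub_le _ _
    push_cast
    have hm0 : (0 : ℝ) < μ v := by linarith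
    have h3 : (μ v : ℝ) + 2 * G * P ≤ (1 + N) * μ v := by
      have h1 : N ≤ N * μ v := le_mul_of_one_le_right hN0.le b5
      have h2 : (1 + N) * (μ v : ℝ) = μ v + N * μ v := by ring
      rw [h2, ← hN]; linarith
    have h4 : (κ : ℝ) * μ v + 2 * G ≤ (κ + 2 * G) * μ v := by
      have h1 : 2 * (G : ℝ) ≤ 2 * G * μ v := le_mul_of_one_le_right (by positivity) b5
      have h2 : ((κ : ℝ) + 2 * G) * μ v = κ * μ v + 2 * G * μ v := by ring
      rw [h2]; linarith
    calc ((μ v : ℝ) + 2 * G * P) * ((μ v - 2 * G * P : ℕ) : ℝ) * (κ * μ v + 2 * G) *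
          (D * P * ((μ v - 2 * G * u * P : ℕ) : ℝ))
        ≤ ((1 + N) * μ v) * μ v * ((κ + 2 * G) * μ v) * (D * P * μ v) := by gcongr
      _ = Cr * (μ v : ℝ) ^ 4 := by rw [hCr]; ring
      _ ≤ Cr * (A0 * v) ^ 4 := by gcongr
      _ = Cr * A0 ^ 4 * v ^ 4 := by ring
      _ ≤ C * v ^ 4 := by
          have : Cr * A0 ^ 4 ≤ C := by linarith
          gcongr
  · intro v hv p hp i hpi
    have hpI : Prime (p : ℤ) := Nat.prime_iff_prime_int.mp hp
    obtain ⟨b1, _, _, _, b5⟩ := big v hv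
    have h1 : 2 * G * u * P < μ v := by
      have : c < μ v := by linarith
      rw [hc] at this
      exact_mod_cast this
    have h2 : 2 * G * P < μ v := by
      have : N < μ v := by linarith
      rw [hN] at this
      exact_mod_cast this
    have e1 : ((μ v - 2 * G * P : ℕ) : ℤ) = (E * (1 + 6 * D * G * v) : ℤ) - 2 * G * P := by
      rw [Nat.cast_sub h2.le, hμZ]; push_cast; ring
    have e2 : ((μ v - 2 * G * u * P : ℕ) : ℤ) = (E * (1 + 6 * D * G * v) : ℤ) - 2 * G * u * P := by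
      rw [Nat.cast_sub h1.le, hμZ]; push_cast; ring
    have e3 : ((μ v + 2 * G * P : ℕ) : ℤ) = (E * (1 + 6 * D * G * v) : ℤ) + 2 * G * P := by
      rw [Nat.cast_add, hμZ]; push_cast; ring
    have e4 : ((κ * μ v + 2 * G : ℕ) : ℤ) = κ * (E * (1 + 6 * D * G * v) : ℤ) + 2 * G := by
      rw [Nat.cast_add, Nat.cast_mul, hμZ]; push_cast; ring
    show p ∣ (μ v + 2 * G * P) * (μ v - 2 * G * P) * (κ * μ v + 2 * G) *
      (D * P * (μ v - 2 * G * u * P))
    fin_cases i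
    · have h3 : (p : ℤ) ∣ ((E * (1 + 6 * D * G * v) : ℤ) + 2 * G * P) ^ D := hpi
      have h4 := hpI.dvd_of_dvd_pow h3
      rw [← e3] at h4
      have h5 : p ∣ μ v + 2 * G * P := by exact_mod_cast h4
      exact ((h5.mul_right _).mul_right _).mul_right _
    · have h3 : (p : ℤ) ∣ -((E * (1 + 6 * D * G * v) : ℤ) - 2 * G * P) ^ D := hpi
      have h4 := hpI.dvd_of_dvd_pow ((dvd_neg).1 h3)
      rw [← e1] at h4
      have h5 : p ∣ μ v - 2 * G * P := by exact_mod_cast h4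
      exact ((h5.mul_left _).mul_right _).mul_right _
    · have h3 : (p : ℤ) ∣ -(κ * (E * (1 + 6 * D * G * v) : ℤ) + 2 * G) ^ (D - 1) := hpi
      have h4 := hpI.dvd_of_dvd_pow ((dvd_neg).1 h3)
      rw [← e4] at h4
      have h5 : p ∣ κ * μ v + 2 * G := by exact_mod_cast h4
      exact (h5.mul_left _).mul_right _
    · have h3 : (p : ℤ) ∣ -(D * P * ((E * (1 + 6 * D * G * v) : ℤ) - 2 * G * u * P) ^ (D - 1)) := hpi
      rw [dvd_neg] at h3
      have h6 : p ∣ D * P * (μ v - 2 * G * u * P) := by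
        rcases hpI.dvd_or_dvd h3 with h4 | h4
        · have h5 : p ∣ D * P := by exact_mod_cast h4
          exact h5.mul_right _
        · have h5 := hpI.dvd_of_dvd_pow h4
          rw [← e2] at h5
          have h7 : p ∣ μ v - 2 * G * u * P := by exact_mod_cast h5
          exact h7.mul_left _
      exact h6.mul_left _
  · intro v w _ _ hvw
    have e1 : ∀ v : ℕ, |f4 D P G κ u E v 0| = ((E * (1 + 6 * D * G * v) : ℤ) + 2 * G * P) ^ D := by
      intro v
      have : f4 D P G κ u E v 0 = ((E * (1 + 6 * D * G * v) : ℤ) + 2 * G * P) ^ D := rfl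
      rw [this, abs_of_nonneg (by positivity)]
    rw [e1, e1] at hvw
    have h1 := (pow_left_inj₀ (by positivity) (by positivity) (by omega)).1 hvw
    have h2 : (E * (6 * D * G) : ℤ) * v = (E * (6 * D * G)) * w := by linarith
    have h3 : (E * (6 * D * G) : ℤ) ≠ 0 := by
      have h4 : 0 < E * (6 * D * G) := Nat.mul_pos hE1 (Nat.mul_pos (by omega) hG1)
      exact_mod_cast h4.ne'
    have := mul_left_cancel₀ h3 h2
    exact_mod_cast this

end Pool.Agent.V5helper53.TM
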