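import Pool.Agent.V5helper53.TM.Main1

set_option autoImplicit false

/-!
# Families of tuples given by polynomial identities with sum zero
-/

namespace Pool.Agent.V5helper53.TM

open Finset Filter Topology
open Pool.Agent.TH285.SN (Adm rad rad_le_of one_le_rad)
open Pool.Agent.W5h7.SNL (NoSub)

/-- a one-parameter family of tuples of height `X ^ D` and radical `ρ X ^ R`, where every prime
factor of `X` divides `ρ` -/
def Fam (n D R : ℕ) : Prop :=
  ∃ (L a X0 : ℕ) (C : ℝ) (i0 : Fin n) (Φ : ℕ → ℤ) (x : ℕ → Fin n → ℤ), 0 < L ∧ 1 ≤ C ∧ 1 ≤ X0 ∧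
    Function.Injective Φ ∧ ∀ X : ℕ, X0 ≤ X → X ≡ a [MOD L] → Adm (x X) ∧ NoSub (x X) ∧
      x X i0 = Φ X ∧ (∀ i, |((x X i : ℤ) : ℝ)| ≤ C * (X : ℝ) ^ D) ∧
      (X : ℝ) ^ D ≤ |((Φ X : ℤ) : ℝ)| ∧
      ∀ ρ : ℕ, 0 < ρ → (∀ p : ℕ, p.Prime → p ∣ X → p ∣ ρ) → (rad (x X) : ℝ) ≤ C * ρ * (X : ℝ) ^ R

/-- all `X ≤ Y` -/
theorem many_fam1 {n D R : ℕ} (hf : Fam n D R) {M e δ : ℝ} (hM : 0 < M) (hD : 0 < D)
    (he : 0 ≤ e) (hδ : 0 ≤ δ) (h1 : M * (R + 1) < D) (h2 : D * (e + δ) < 1) : Many n M e δ := by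
  classical
  obtain ⟨L, a, X0, C, i0, Φ, x, hL, hC, hX0, hΦ, hx⟩ := hf
  have hC0 : 0 < C := by linarith
  refine many_of (D := D) hD (η := (1 - D * (e + δ)) / 2) (C := C) he hδ (by linarith) hC
    fun K hK => ?_
  have hDe : D * (e + δ) + (1 - D * (e + δ)) / 2 < 1 := by linarith
  have e1 : ∀ᶠ Y : ℝ in atTop, 8 * (L : ℝ) ≤ Y ^ (1 - (D * (e + δ) + (1 - D * (e + δ)) / 2)) :=
    (tendsto_rpow_atTop (by linarith)).eventually_ge_atTop _
  have e2 : ∀ᶠ Y : ℝ in atTop, K * C ^ M * 2 ^ D < Y ^ ((D : ℝ) - M * (R + 1)) :=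
    (tendsto_rpow_atTop (by linarith)).eventually_gt_atTop _
  filter_upwards [e1, e2, eventually_ge_atTop (2 * (X0 : ℝ)), eventually_ge_atTop 1,
    eventually_ge_atTop (8 * (L : ℝ))] with Y e1 e2 e3 e4 e5
  have hY0 : 0 < Y := by linarith
  set V : Finset ℕ := (Ioc ⌊Y / 2⌋₊ ⌊Y⌋₊).filter (fun X => X ≡ a [MOD L]) with hV
  have hvlo : ∀ v ∈ V, Y / 2 ≤ v := by
    intro v hv
    have h1 := Nat.lt_floor_add_one (Y / 2)
    have h2 := (mem_Ioc.1 (mem_filter.1 hv).1).1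
    have h3 : (⌊Y / 2⌋₊ : ℝ) + 1 ≤ v := by exact_mod_cast h2
    linarith
  have hvhi : ∀ v ∈ V, (v : ℝ) ≤ Y := by
    intro v hv
    have h2 := (mem_Ioc.1 (mem_filter.1 hv).1).2
    have h3 : (v : ℝ) ≤ ⌊Y⌋₊ := by exact_mod_cast h2
    exact h3.trans (Nat.floor_le hY0.le)
  have hv0 : ∀ v ∈ V, X0 ≤ v := by
    intro v hv
    have h1 := hvlo v hv
    have h2 : (X0 : ℝ) ≤ v := by linarith
    exact_mod_cast h2
  have hprop : ∀ v ∈ V, _ := fun v hv => hx v (hv0 v hv) (mem_filter.1 hv).2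
  have hLr : (0 : ℝ) < L := by exact_mod_cast hL
  have hVc : Y / (8 * L) ≤ #V := by
    have h3 := Nat.Ioc_filter_modEq_card ⌊Y / 2⌋₊ ⌊Y⌋₊ hL a
    have h4 : ((#V : ℕ) : ℝ) = ((((#V : ℕ) : ℤ)) : ℝ) := by push_cast; rfl
    rw [h4, hV, h3]
    push_cast
    refine le_trans ?_ (le_max_left _ _)
    have h5 := Int.lt_floor_add_one (((⌊Y⌋₊ : ℚ) - a) / (L : ℚ))
    have h6 := Int.floor_le (((⌊Y / 2⌋₊ : ℚ) - a) / (L : ℚ))
    have h5' : ((((⌊Y⌋₊ : ℕ) : ℝ) - a) / L) < (⌊((⌊Y⌋₊ : ℚ) - a) / (L : ℚ)⌋ : ℝ) + 1 := by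
      exact_mod_cast h5
    have h6' : (⌊((⌊Y / 2⌋₊ : ℚ) - a) / (L : ℚ)⌋ : ℝ) ≤ ((((⌊Y / 2⌋₊ : ℕ) : ℝ) - a) / L) := by
      exact_mod_cast h6
    have h7 : (((⌊Y⌋₊ : ℕ) : ℝ) - a) / L - (((⌊Y / 2⌋₊ : ℕ) : ℝ) - a) / L =
        (((⌊Y⌋₊ : ℕ) : ℝ) - ((⌊Y / 2⌋₊ : ℕ) : ℝ)) / L := by ring
    have h8 := Nat.lt_floor_add_one Y
    have h9 := Nat.floor_le (show (0 : ℝ) ≤ Y / 2 by positivity)
    have h10 : (Y / 2 - 1) / L ≤ (((⌊Y⌋₊ : ℕ) : ℝ) - ((⌊Y / 2⌋₊ : ℕ) : ℝ)) / L :=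
      div_le_div_of_nonneg_right (by linarith) hLr.le
    have h11 : Y / (8 * L) + 1 ≤ (Y / 2 - 1) / L := by
      rw [le_div_iff₀ hLr]
      have : (Y / (8 * L) + 1) * L = Y / 8 + L := by field_simp
      rw [this]
      have : (1 : ℝ) ≤ L := by exact_mod_cast hL
      linarith
    linarith
  refine ⟨V.image x, ?_, ?_⟩
  · intro y hy
    obtain ⟨v, hv, rfl⟩ := mem_image.1 hy
    obtain ⟨a1, a2, a3, a4, a5, a6⟩ := hprop v hv
    have hv1 := hvlo v hv
    have hv2 := hvhi v hv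
    have hvp : 0 < v := by
      have := hv0 v hv
      omega
    refine ⟨a1, a2, fun i => (a4 i).trans ?_, i0, ?_⟩
    · have : (v : ℝ) ^ D ≤ Y ^ D := by gcongr
      gcongr
    · rw [a3]
      refine lt_of_lt_of_le ?_ a5
      have h3 := a6 v hvp (fun p _ h => h)
      have h4 : (rad (x v) : ℝ) ≤ C * Y ^ (R + 1) := by
        refine h3.trans ?_
        calc C * (v : ℝ) * (v : ℝ) ^ R = C * (v : ℝ) ^ (R + 1) := by rw [pow_succ]; ring
          _ ≤ C * Y ^ (R + 1) := by gcongr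
      have h5 : (rad (x v) : ℝ) ^ M ≤ (C * Y ^ (R + 1)) ^ M :=
        Real.rpow_le_rpow (Nat.cast_nonneg _) h4 hM.le
      rw [Real.mul_rpow hC0.le (by positivity), ← Real.rpow_natCast Y (R + 1),
        ← Real.rpow_mul hY0.le] at h5
      have h6 : K * (rad (x v) : ℝ) ^ M < (Y / 2) ^ D := by
        rw [div_pow, lt_div_iff₀ (by positivity)]
        calc K * (rad (x v) : ℝ) ^ M * 2 ^ D
            ≤ K * (C ^ M * Y ^ (((R + 1 : ℕ) : ℝ) * M)) * 2 ^ D := by gcongr
          _ = (K * C ^ M * 2 ^ D) * Y ^ (((R + 1 : ℕ) : ℝ) * M) := by ring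
          _ < Y ^ ((D : ℝ) - M * (R + 1)) * Y ^ (((R + 1 : ℕ) : ℝ) * M) := by
              have : 0 < Y ^ (((R + 1 : ℕ) : ℝ) * M) := by positivity
              gcongr
          _ = Y ^ D := by
              rw [← Real.rpow_add hY0, ← Real.rpow_natCast Y D]
              congr 1
              push_cast
              ring
      refine h6.trans_le ?_
      gcongr
  · rw [card_image_of_injOn]
    · refine le_trans ?_ hVc
      rw [le_div_iff₀ (by positivity)]
      calc Y ^ (D * (e + δ) + (1 - D * (e + δ)) / 2) * (8 * L)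
          ≤ Y ^ (D * (e + δ) + (1 - D * (e + δ)) / 2) * Y ^ (1 - (D * (e + δ) + (1 - D * (e + δ)) / 2)) := by gcongr
        _ = Y := by
            rw [← Real.rpow_add hY0]
            have : D * (e + δ) + (1 - D * (e + δ)) / 2 + (1 - (D * (e + δ) + (1 - D * (e + δ)) / 2)) = 1 := by ring
            rw [this, Real.rpow_one]
    · intro v hv w hw hvw
      have hv' := (hprop v hv).2.2.1
      have hw' := (hprop w hw).2.2.1
      apply hΦ
      rw [← hv', ← hw', hvw]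

/-- `X = g ^ j m` -/
theorem many_fam2 {n D R : ℕ} (hf : Fam n D R) {M δ : ℝ} (hM : 0 < M) (hD : 0 < D)
    (hδ : 0 ≤ δ) (h1 : D * δ < 1) (h2 : M * (R + D * δ) < D) : Many n M 0 δ := by
  classical
  obtain ⟨L, a, X0, C, i0, Φ, x, hL, hC, hX0, hΦ, hx⟩ := hf
  have hC0 : 0 < C := by linarith
  have hD' : (0 : ℝ) < D := by exact_mod_cast hD
  set g : ℕ := L + 1 with hg
  have hg2 : 2 ≤ g := by omega
  have hgr : (2 : ℝ) ≤ g := by exact_mod_cast hg2
  have hg0 : (0 : ℝ) < g := by linarith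
  have hlg : 0 < Real.log g := Real.log_pos (by linarith)
  -- the exponent b of the free part
  obtain ⟨b, hb1, hb2, hb3⟩ : ∃ b : ℝ, D * δ < b ∧ b < 1 ∧ M * (R + b) < D := by
    have h3 : D * δ < min 1 (D / M - R) := by
      refine lt_min h1 ?_
      rw [lt_sub_iff_add_lt, lt_div_iff₀ hM]
      linarith
    obtain ⟨b, hb1, hb2⟩ := exists_between h3
    refine ⟨b, hb1, hb2.trans_le (min_le_left _ _), ?_⟩
    have h4 := hb2.trans_le (min_le_right _ _)
    rw [lt_sub_iff_add_lt, lt_div_iff₀ hM] at h4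
    linarith
  have hDδ : 0 ≤ D * δ := by positivity
  have hb0 : 0 < b := by linarith
  set η : ℝ := D - M * (R + b) with hη
  have hη0 : 0 < η := by linarith
  have hMR : 0 < (D : ℝ) - M * R := by
    have : 0 < M * b := by positivity
    linarith
  refine many_of (D := D) hD (η := (b - D * δ) / 2) (C := C) le_rfl hδ (by linarith) hC
    fun K hK => ?_
  set J : ℝ → ℕ := fun Y => ⌊Real.log Y / Real.log g⌋₊ with hJ
  have hJt : Tendsto (fun Y => (J Y : ℝ)) atTop atTop := by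
    have : Tendsto J atTop atTop := tendsto_nat_floor_atTop.comp
      (Real.tendsto_log_atTop.atTop_div_const (by positivity))
    exact tendsto_natCast_atTop_atTop.comp this
  have e1 : ∀ᶠ Y : ℝ in atTop, Real.log K + M * Real.log C + M * Real.log g +
      ((D : ℝ) - M * R) * ((a + 3) * Real.log g) < η * Real.log g * (J Y : ℝ) :=
    (hJt.const_mul_atTop (by positivity)).eventually_gt_atTop _
  have e2 : ∀ᶠ Y : ℝ in atTop, (X0 + 1 : ℝ) / (1 - b) ≤ (J Y : ℝ) := hJt.eventually_ge_atTop _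
  have e3 : ∀ᶠ Y : ℝ in atTop, (g : ℝ) ^ (a + 4 + b) ≤ Y ^ ((b - D * δ) / 2) :=
    (tendsto_rpow_atTop (by linarith)).eventually_ge_atTop _
  have e4 : ∀ᶠ Y : ℝ in atTop, (a + 5 : ℝ) / b ≤ (J Y : ℝ) := hJt.eventually_ge_atTop _
  filter_upwards [e1, e2, e3, e4, eventually_ge_atTop 1] with Y e1 e2 e3 e4 hY1
  have hY0 : 0 < Y := by linarith
  set κ : ℕ := J Y with hκ
  have hlY : 0 ≤ Real.log Y := Real.log_nonneg hY1
  have hj1 : (κ : ℝ) * Real.log g ≤ Real.log Y := by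
    have := Nat.floor_le (show 0 ≤ Real.log Y / Real.log g by positivity)
    rwa [le_div_iff₀ hlg] at this
  have hj2 : Real.log Y < ((κ : ℝ) + 1) * Real.log g := by
    have := Nat.lt_floor_add_one (Real.log Y / Real.log g)
    rwa [div_lt_iff₀ hlg] at this
  set i : ℕ := ⌊b * κ⌋₊ with hi
  have hi1 : (i : ℝ) ≤ b * κ := Nat.floor_le (by positivity)
  have hi2 : b * κ < i + 1 := Nat.lt_floor_add_one _
  have hκ0 : (0 : ℝ) ≤ κ := Nat.cast_nonneg _
  have hiκ : i ≤ κ := by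
    have : (i : ℝ) ≤ κ := by nlinarith
    exact_mod_cast this
  set j : ℕ := κ - i with hj
  have hji : j + i = κ := by omega
  have hjX0 : X0 ≤ j := by
    rw [div_le_iff₀ (by linarith)] at e2
    have h3 : (j : ℝ) = κ - i := by rw [hj, Nat.cast_sub hiκ]
    have h4 : (X0 : ℝ) ≤ j := by rw [h3]; linarith
    exact_mod_cast h4
  have hiA : a + 4 ≤ i := by
    have h3 : (a + 5 : ℝ) ≤ b * κ := by
      rw [div_le_iff₀ hb0] at e4
      linarith
    have h4 : (a + 4 : ℝ) < i := by linarith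
    have h5 : ((a + 4 : ℕ) : ℝ) < i := by push_cast; exact h4
    exact (by exact_mod_cast h5 : a + 4 < i).le
  -- the numbers m
  set V : Finset ℕ := (Ico (g ^ (i - a - 3)) (g ^ (i - a - 2))).image
    (fun t => g ^ j * (a + L * (t + 1))) with hV
  have hmle : ∀ t, t < g ^ (i - a - 2) → a + L * (t + 1) ≤ g ^ i := by
    intro t ht
    have h3 : a < g ^ a := Nat.lt_pow_self (by omega)
    have h4 : L * (t + 1) ≤ L * g ^ (i - a - 2) := Nat.mul_le_mul_left _ ht
    have h5 : L * g ^ (i - a - 2) ≤ g * g ^ (i - a - 2) := Nat.mul_le_mul_right _ (by omega)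
    have h6 : g * g ^ (i - a - 2) = g ^ (i - a - 1) := by
      rw [← pow_succ']; congr 1; omega
    have h7 : g ^ a ≤ g ^ (i - 1) := Nat.pow_le_pow_right (by omega) (by omega)
    have h8 : g ^ (i - a - 1) ≤ g ^ (i - 1) := Nat.pow_le_pow_right (by omega) (by omega)
    have h9 : g ^ i = g ^ (i - 1) * g := by rw [← pow_succ]; congr 1; omega
    have h10 : g ^ (i - 1) * 2 ≤ g ^ (i - 1) * g := Nat.mul_le_mul_left _ hg2
    omega
  have hmge : ∀ t, g ^ (i - a - 3) ≤ t → g ^ (i - a - 3) ≤ a + L * (t + 1) := by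
    intro t ht
    have h3 : 1 * (t + 1) ≤ L * (t + 1) := Nat.mul_le_mul_right _ hL
    omega
  have hjX : X0 ≤ g ^ j := hjX0.trans (Nat.lt_pow_self (by omega)).le
  have hmpos : ∀ t, 1 ≤ a + L * (t + 1) := by
    intro t
    have : 0 < L * (t + 1) := Nat.mul_pos hL (by omega)
    omega
  have hgj : (g : ℝ) ^ j * (g : ℝ) ^ i ≤ Y := by
    rw [← pow_add, hji, ← Real.log_le_log_iff (by positivity) hY0, Real.log_pow]
    exact hj1
  have hprop : ∀ v ∈ V, (Adm (x v) ∧ NoSub (x v) ∧ x v i0 = Φ v ∧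
      (∀ i, |((x v i : ℤ) : ℝ)| ≤ C * (v : ℝ) ^ D) ∧ (v : ℝ) ^ D ≤ |((Φ v : ℤ) : ℝ)| ∧
      ∀ ρ : ℕ, 0 < ρ → (∀ p : ℕ, p.Prime → p ∣ v → p ∣ ρ) →
      (rad (x v) : ℝ) ≤ C * ρ * (v : ℝ) ^ R) ∧ (v : ℝ) ≤ Y ∧ (g : ℝ) ^ (κ - a - 3) ≤ v ∧
      (rad (x v) : ℝ) ≤ C * g ^ (i + 1) * (v : ℝ) ^ R := by
    intro v hv
    obtain ⟨t, ht, rfl⟩ := mem_image.1 hv
    obtain ⟨ht0, ht⟩ := mem_Ico.1 ht
    have hm1 := hmle t ht
    have hm0 := hmge t ht0
    have hm2 := hmpos t
    have hX : X0 ≤ g ^ j * (a + L * (t + 1)) := hjX.trans (Nat.le_mul_of_pos_right _ hm2)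
    have hmod : g ^ j * (a + L * (t + 1)) ≡ a [MOD L] := by
      have h3 : g ≡ 1 [MOD L] := by
        rw [hg]; unfold Nat.ModEq; simp
      have h4 : g ^ j ≡ 1 [MOD L] := by simpa using h3.pow j
      have h5 : a + L * (t + 1) ≡ a [MOD L] := by unfold Nat.ModEq; simp
      simpa using h4.mul h5
    have hp := hx _ hX hmod
    refine ⟨hp, ?_, ?_, ?_⟩
    · push_cast
      have h3 : ((a : ℝ) + L * (t + 1)) ≤ (g : ℝ) ^ i := by exact_mod_cast hm1
      calc (g : ℝ) ^ j * (a + L * (t + 1)) ≤ (g : ℝ) ^ j * (g : ℝ) ^ i := by gcongr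
        _ ≤ Y := hgj
    · have h3 : g ^ (κ - a - 3) ≤ g ^ j * (a + L * (t + 1)) := by
        calc g ^ (κ - a - 3) = g ^ j * g ^ (i - a - 3) := by rw [← pow_add]; congr 1; omega
          _ ≤ _ := Nat.mul_le_mul_left _ hm0
      exact_mod_cast h3
    · have h3 := hp.2.2.2.2.2 (g * (a + L * (t + 1))) (Nat.mul_pos (by omega) hm2) (by
        intro p hpp hpd
        rcases hpp.dvd_mul.1 hpd with h4 | h4
        · exact (hpp.dvd_of_dvd_pow h4).mul_right _
        · exact h4.mul_left _)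
      refine h3.trans ?_
      have h4 : ((g * (a + L * (t + 1)) : ℕ) : ℝ) ≤ (g : ℝ) ^ (i + 1) := by
        have h5 : g * (a + L * (t + 1)) ≤ g ^ (i + 1) := by
          rw [pow_succ']; exact Nat.mul_le_mul_left _ hm1
        exact_mod_cast h5
      gcongr
  refine ⟨V.image x, ?_, ?_⟩
  · intro y hy
    obtain ⟨v, hv, rfl⟩ := mem_image.1 hy
    obtain ⟨⟨a1, a2, a3, a4, a5, _⟩, a7, a8, a9⟩ := hprop v hv
    have hv0 : (0 : ℝ) < v := lt_of_lt_of_le (by positivity) a8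
    refine ⟨a1, a2, fun i => (a4 i).trans ?_, i0, ?_⟩
    · have : (v : ℝ) ^ D ≤ Y ^ D := by gcongr
      gcongr
    · rw [a3]
      refine lt_of_lt_of_le ?_ a5
      have h5 : (rad (x v) : ℝ) ^ M ≤ (C * g ^ (i + 1) * (v : ℝ) ^ R) ^ M :=
        Real.rpow_le_rpow (Nat.cast_nonneg _) a9 hM.le
      refine lt_of_le_of_lt (mul_le_mul_of_nonneg_left h5 hK.le) ?_
      rw [← Real.log_lt_log_iff (by positivity) (by positivity),
        Real.log_mul hK.ne' (by positivity), Real.log_rpow (by positivity),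
        Real.log_mul (by positivity) (by positivity), Real.log_mul (by positivity) (by positivity),
        Real.log_pow, Real.log_pow, Real.log_pow]
      have hlv : ((κ : ℝ) - a - 3) * Real.log g ≤ Real.log v := by
        have h6 := Real.log_le_log (by positivity) a8
        rw [Real.log_pow] at h6
        have h7 : ((κ - a - 3 : ℕ) : ℝ) = (κ : ℝ) - a - 3 := by
          rw [Nat.cast_sub (by omega), Nat.cast_sub (by omega)]
          push_cast; ring
        rwa [h7] at h6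
      have h6 : (M : ℝ) * (((i + 1 : ℕ) : ℝ) * Real.log g) ≤
          M * b * κ * Real.log g + M * Real.log g := by
        push_cast
        have h8 : M * (((i : ℝ) + 1) * Real.log g) = M * i * Real.log g + M * Real.log g := by ring
        rw [h8]
        have h9 : M * (i : ℝ) * Real.log g ≤ M * (b * κ) * Real.log g := by gcongr
        linarith
      have h10 : ((D : ℝ) - M * R) * (((κ : ℝ) - a - 3) * Real.log g) ≤
          ((D : ℝ) - M * R) * Real.log v := by gcongr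
      have h11 : (D : ℝ) * Real.log v = M * (R * Real.log v) + ((D : ℝ) - M * R) * Real.log v := by
        ring
      rw [h11]
      have h12 : ((D : ℝ) - M * R) * (((κ : ℝ) - a - 3) * Real.log g) =
        η * Real.log g * κ + M * b * κ * Real.log g -
          ((D : ℝ) - M * R) * ((a + 3) * Real.log g) := by
        rw [hη]; ring
      linarith
  · rw [card_image_of_injOn, hV, card_image_of_injective, Nat.card_Ico]
    · rw [zero_add]
      have h0 : g ^ (i - a - 3) ≤ g ^ (i - a - 2) - g ^ (i - a - 3) := by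
        have h9 : g ^ (i - a - 2) = g ^ (i - a - 3) * g := by rw [← pow_succ]; congr 1; omega
        have h10 : g ^ (i - a - 3) * 2 ≤ g ^ (i - a - 3) * g := Nat.mul_le_mul_left _ hg2
        omega
      have h0' : (g : ℝ) ^ (i - a - 3) ≤ ((g ^ (i - a - 2) - g ^ (i - a - 3) : ℕ) : ℝ) := by
        exact_mod_cast h0
      refine le_trans ?_ h0'
      have h3 : (g : ℝ) ^ (i - a - 3) = (g : ℝ) ^ ((i : ℝ) - a - 3) := by
        rw [← Real.rpow_natCast]
        congr 1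
        rw [Nat.cast_sub (by omega), Nat.cast_sub (by omega)]
        push_cast; ring
      rw [h3]
      have h4 : Y ^ b ≤ (g : ℝ) ^ (b * (κ + 1)) := by
        rw [← Real.log_le_log_iff (by positivity) (by positivity), Real.log_rpow hY0,
          Real.log_rpow hg0]
        calc b * Real.log Y ≤ b * (((κ : ℝ) + 1) * Real.log g) := by gcongr
          _ = b * (κ + 1) * Real.log g := by ring
      have h5 : (g : ℝ) ^ (b * (κ + 1)) ≤ (g : ℝ) ^ ((i : ℝ) - a - 3) * (g : ℝ) ^ (a + 4 + b) := by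
        rw [← Real.rpow_add hg0]
        apply Real.rpow_le_rpow_of_exponent_le (by linarith)
        linarith
      have h6 : Y ^ b = Y ^ (D * δ + (b - D * δ) / 2) * Y ^ ((b - D * δ) / 2) := by
        rw [← Real.rpow_add hY0]
        congr 1
        ring
      have h7 : Y ^ (D * δ + (b - D * δ) / 2) * Y ^ ((b - D * δ) / 2) ≤
          (g : ℝ) ^ ((i : ℝ) - a - 3) * Y ^ ((b - D * δ) / 2) := by
        rw [← h6]
        refine h4.trans (h5.trans ?_)
        gcongr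
      exact le_of_mul_le_mul_right h7 (by positivity)
    · intro s t hst
      have h3 : 0 < g ^ j := Nat.pow_pos (by omega)
      have h4 := Nat.eq_of_mul_eq_mul_left h3 hst
      have h5 : L * (s + 1) = L * (t + 1) := by omega
      have h6 := Nat.eq_of_mul_eq_mul_left hL h5
      omega
    · intro v hv w hw hvw
      have hv' := (hprop v hv).1.2.2.1
      have hw' := (hprop w hw).1.2.2.1
      apply hΦ
      rw [← hv', ← hw', hvw]

end Pool.Agent.V5helper53.TM
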