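import Pool.Agent.V5helper53.TM.Inst
import Pool.Agent.V5helper53.TM.EvenBlk

set_option autoImplicit false

/-!
# Too many exceptions to the strong n-conjecture
-/

namespace Pool.Agent.V5helper53.TM

open Finset Filter Topology
open Pool.Agent.TH285.SN (Adm rad rad_le_of one_le_rad)
open Pool.Agent.W5h7.SNL (NoSub)

theorem many_blocks {s k A : ℕ} (hs : 2 ≤ s) (hk : Even k) (hA : s ≤ A)
    (hb : ∀ x : ℝ, 0 ≤ x → ∃ d : ℕ, x ≤ d ∧ (d : ℝ) + s ≤ x + A ∧ ∃ (C : ℝ) (v0 : ℕ) (i0 : Fin s)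
      (f : ℕ → Fin s → ℤ) (ρ : ℕ → ℕ), Blk s d C v0 i0 f ρ) {M δ : ℝ}
    (hM : 1 / ((k : ℝ) + 2) < M) (hM1 : M < 1) (hδ : 0 ≤ δ)
    (hδ2 : δ < ((k : ℝ) + 2 - 1 / M) / (A * (k + 1))) : Many (s + (k + 2)) M (1 / M - 1) δ := by
  have hM0 : 0 < M := lt_trans (by positivity) hM
  set e : ℝ := 1 / M - 1 with he
  have he0 : 0 < e := by
    have : 1 < 1 / M := by rw [lt_div_iff₀ hM0]; linarith
    linarith
  have h2 : 0 < (k + 1 : ℝ) - e := by
    have : 1 / M < k + 2 := by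
      rw [div_lt_iff₀ hM0]
      rw [div_lt_iff₀ (by positivity)] at hM
      linarith
    linarith
  have hk1 : (0 : ℝ) < k + 1 := by positivity
  have hA0 : (0 : ℝ) < A := by
    have : 0 < A := by omega
    exact_mod_cast this
  have hsA : (s : ℝ) ≤ A := by exact_mod_cast hA
  obtain ⟨d, hd1, hd2, C, v0, i0, f, ρ, h⟩ := hb (s * e / (k + 1 - e)) (by positivity)
  rw [div_le_iff₀ h2] at hd1
  refine block hs hk h hM0 hM1 hδ ?_ ?_
  · have h3 : ((d + s : ℕ) : ℝ) ≤ A * (k + 1) / (k + 1 - e) := by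
      push_cast
      refine hd2.trans ?_
      rw [div_add' _ _ _ h2.ne']
      apply div_le_div_of_nonneg_right _ h2.le
      have : (s : ℝ) * e ≤ A * e := by gcongr
      linarith
    have e1 : (k : ℝ) + 2 - 1 / M = k + 1 - e := by rw [he]; ring
    rw [e1, lt_div_iff₀ (by positivity)] at hδ2
    calc ((d + s : ℕ) : ℝ) * δ ≤ A * (k + 1) / (k + 1 - e) * δ := by gcongr
      _ = δ * (A * (k + 1)) / (k + 1 - e) := by ring
      _ < 1 := by rw [div_lt_one h2]; exact hδ2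
  · rw [← he]
    push_cast
    linarith

theorem many_odd {k : ℕ} (hk : Even k) {M δ : ℝ} (h1 : 1 / ((k : ℝ) + 2) < M) (h2 : M < 1)
    (hδ : 0 ≤ δ) (hδ2 : δ < ((k : ℝ) + 2 - 1 / M) / (5 * (k + 1))) :
    Many (3 + (k + 2)) M (1 / M - 1) δ := by
  refine many_blocks (A := 5) (by norm_num) hk (by norm_num) (fun x hx => ?_) h1 h2 hδ
    (by exact_mod_cast hδ2)
  refine ⟨2 * ⌈x / 2⌉₊, ?_, ?_, blk3 _ (even_two_mul _)⟩
  · have := Nat.le_ceil (x / 2)
    push_cast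
    linarith
  · have := Nat.ceil_lt_add_one (show 0 ≤ x / 2 by positivity)
    push_cast
    linarith

theorem many_even {k : ℕ} (hk : Even k) {M δ : ℝ} (h1 : 1 / ((k : ℝ) + 2) < M) (h2 : M < 1)
    (hδ : 0 ≤ δ) (hδ2 : δ < ((k : ℝ) + 2 - 1 / M) / (10 * (k + 1))) :
    Many (4 + (k + 2)) M (1 / M - 1) δ := by
  refine many_blocks (A := 10) (by norm_num) hk (by norm_num) (fun x hx => ?_) h1 h2 hδ
    (by exact_mod_cast hδ2)
  have hc0 : 0 < ⌈(x + 3) / 6⌉₊ := Nat.ceil_pos.2 (by positivity)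
  obtain ⟨D, P, G, κ, u, E, h⟩ := exists_par ⌈(x + 3) / 6⌉₊ (by omega)
  have hcast : ((6 * ⌈(x + 3) / 6⌉₊ - 3 : ℕ) : ℝ) = 6 * (⌈(x + 3) / 6⌉₊ : ℝ) - 3 := by
    rw [Nat.cast_sub (by omega)]; push_cast; ring
  refine ⟨6 * ⌈(x + 3) / 6⌉₊ - 3, ?_, ?_, blk4 h⟩
  · have := Nat.le_ceil ((x + 3) / 6)
    rw [hcast]
    linarith
  · have := Nat.ceil_lt_add_one (show 0 ≤ (x + 3) / 6 by positivity)
    rw [hcast]
    push_cast
    linarith

/-- the gain for `n = 4` -/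
noncomputable def gainFour (M : ℝ) : ℝ := if M < 1 then 10 / 9 - 1 / M else min (1 / 9) (1 / M - 7 / 9)

/-- the gain for odd `n ≥ 5` -/
noncomputable def gainOdd (n : ℕ) (M : ℝ) : ℝ :=
  if M < 1 then (n - 3 - 1 / M) / (5 * (n - 4)) else min (1 / 5) (1 / M - 3 / 5)

/-- the gain for even `n ≥ 6` -/
noncomputable def gainEven (n : ℕ) (M : ℝ) : ℝ :=
  if M < 1 then (n - 4 - 1 / M) / (10 * (n - 5)) else min (1 / 7) (1 / M - 5 / 7)

theorem fam_ge {n D R : ℕ} (hf : Fam n D R) (hD : 0 < D) {M δ : ℝ} (hM : 1 ≤ M) (hδ : 0 ≤ δ)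
    (h : δ < min (1 / (D : ℝ)) (1 / M - R / D)) : Many n M (max 0 (1 / M - 1)) δ := by
  have hM0 : 0 < M := by linarith
  have hD' : (0 : ℝ) < D := by exact_mod_cast hD
  have h3 : 1 / M ≤ 1 := by rw [div_le_iff₀ hM0]; linarith
  rw [max_eq_left (by linarith)]
  have h4 := h.trans_le (min_le_left _ _)
  have h5 := h.trans_le (min_le_right _ _)
  refine many_fam2 hf hM0 hD hδ ?_ ?_
  · rw [lt_div_iff₀ hD'] at h4
    linarith
  · have h6 : δ + R / D < 1 / M := by linarith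
    rw [lt_div_iff₀ hM0] at h6
    have h7 : M * (R + D * δ) = D * ((δ + R / D) * M) := by field_simp; ring
    rw [h7]
    nlinarith

theorem many_four {M δ : ℝ} (hM0 : 0 < M) (hδ : 0 ≤ δ) (h : δ < gainFour M) :
    Many 4 M (max 0 (1 / M - 1)) δ := by
  unfold gainFour at h
  rcases lt_or_ge M 1 with hM | hM
  · rw [if_pos hM] at h
    have h3 : 1 < 1 / M := by rw [lt_div_iff₀ hM0]; linarith
    rw [max_eq_right (by linarith)]
    refine many_fam1 fam_quad hM0 (by norm_num) (by linarith) hδ ?_ ?_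
    · push_cast; linarith
    · push_cast; linarith
  · rw [if_neg (not_lt.2 hM)] at h
    refine fam_ge fam_quad (by norm_num) hM hδ ?_
    push_cast
    exact h

theorem many_odd' {n : ℕ} (hn : 5 ≤ n) (ho : Odd n) {M δ : ℝ} (hM0 : 0 < M) (hδ : 0 ≤ δ)
    (h : δ < gainOdd n M) : Many n M (max 0 (1 / M - 1)) δ := by
  unfold gainOdd at h
  obtain ⟨k, rfl⟩ : ∃ k, n = 3 + (k + 2) := ⟨n - 5, by omega⟩
  have hk : Even k := by
    obtain ⟨t, ht⟩ := ho
    exact ⟨t - 2, by omega⟩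
  rcases lt_or_ge M 1 with hM | hM
  · rw [if_pos hM] at h
    have h3 : 1 < 1 / M := by rw [lt_div_iff₀ hM0]; linarith
    rw [max_eq_right (by linarith)]
    have e1 : ((3 + (k + 2) : ℕ) : ℝ) - 3 - 1 / M = (k : ℝ) + 2 - 1 / M := by push_cast; ring
    have e2 : (5 : ℝ) * (((3 + (k + 2) : ℕ) : ℝ) - 4) = 5 * (k + 1) := by push_cast; ring
    rw [e1, e2] at h
    refine many_odd hk ?_ hM hδ h
    have h4 : 0 < ((k : ℝ) + 2 - 1 / M) / (5 * (k + 1)) := lt_of_le_of_lt hδ h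
    have h5 : 0 < (k : ℝ) + 2 - 1 / M := by
      rcases div_pos_iff.1 h4 with h6 | h6
      · exact h6.1
      · have : (0 : ℝ) < 5 * (k + 1) := by positivity
        linarith [h6.2]
    rw [div_lt_iff₀ (by positivity)]
    have h6 : 1 / M < k + 2 := by linarith
    rw [div_lt_iff₀ hM0] at h6
    linarith
  · rw [if_neg (not_lt.2 hM)] at h
    refine fam_ge (fam_odd hk) (by norm_num) hM hδ ?_
    push_cast
    exact h

theorem many_even' {n : ℕ} (hn : 6 ≤ n) (he : Even n) {M δ : ℝ} (hM0 : 0 < M) (hδ : 0 ≤ δ)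
    (h : δ < gainEven n M) : Many n M (max 0 (1 / M - 1)) δ := by
  unfold gainEven at h
  obtain ⟨k, rfl⟩ : ∃ k, n = 4 + (k + 2) := ⟨n - 6, by omega⟩
  have hk : Even k := by
    obtain ⟨t, ht⟩ := he
    exact ⟨t - 3, by omega⟩
  rcases lt_or_ge M 1 with hM | hM
  · rw [if_pos hM] at h
    have h3 : 1 < 1 / M := by rw [lt_div_iff₀ hM0]; linarith
    rw [max_eq_right (by linarith)]
    have e1 : ((4 + (k + 2) : ℕ) : ℝ) - 4 - 1 / M = (k : ℝ) + 2 - 1 / M := by push_cast; ring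
    have e2 : (10 : ℝ) * (((4 + (k + 2) : ℕ) : ℝ) - 5) = 10 * (k + 1) := by push_cast; ring
    rw [e1, e2] at h
    refine many_even hk ?_ hM hδ h
    have h4 : 0 < ((k : ℝ) + 2 - 1 / M) / (10 * (k + 1)) := lt_of_le_of_lt hδ h
    have h5 : 0 < (k : ℝ) + 2 - 1 / M := by
      rcases div_pos_iff.1 h4 with h6 | h6
      · exact h6.1
      · have : (0 : ℝ) < 10 * (k + 1) := by positivity
        linarith [h6.2]
    rw [div_lt_iff₀ (by positivity)]
    have h6 : 1 / M < k + 2 := by linarith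
    rw [div_lt_iff₀ hM0] at h6
    linarith
  · rw [if_neg (not_lt.2 hM)] at h
    refine fam_ge (fam_even hk) (by norm_num) hM hδ ?_
    push_cast
    exact h

end Pool.Agent.V5helper53.TM
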