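import Pool.Agent.V5helper53.TM.Fam
import Pool.Agent.W5h7.SNL.EvenCase
import Pool.Agent.Y912.SN4.Tuple

set_option autoImplicit false

/-!
# The three families: odd `n`, even `n ≥ 6`, `n = 4`
-/

namespace Pool.Agent.V5helper53.TM

open Finset
open Pool.Agent.TH285.SN (Adm rad rad_le_of one_le_rad)
open Pool.Agent.W5h7.SNL (NoSub adm_append noSub_append rad_append_le exists_consts no_zero_subsum
  subsets3 subsets4)
open Pool.Agent

theorem fam_odd {k : ℕ} (hk : Even k) : Fam (3 + (k + 2)) 5 3 := by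
  classical
  obtain ⟨d, hdQ, hdd, hdsum, hdbig⟩ := exists_consts k 8 30 |8| (by norm_num) (by norm_num)
    (by decide) (by
      obtain ⟨t, ht⟩ := hk
      refine ⟨4 - t, ?_⟩
      rw [ht]; push_cast; ring) (by norm_num)
  have hdz := no_zero_subsum (by norm_num) hdsum hdbig
  have hd0 : ∀ j, d j ≠ 0 := fun j => by
    have := hdz {j} (singleton_nonempty j)
    simpa using this
  set D : ℕ := ∏ j, (d j).natAbs with hD
  have hD0 : 0 < D := prod_pos fun j _ => Int.natAbs_pos.2 (hd0 j)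
  set E : ℕ := ∑ j, (d j).natAbs with hE
  have hEabs : (E : ℤ) = ∑ j, |d j| := by
    rw [hE]; push_cast; rfl
  have hD0' : 0 < 30 * D := by omega
  refine ⟨30 * D, 1, 10 * D + E + 100, (10 * D + E + 1 : ℕ), Fin.castAdd (k + 2) 0,
    fun X => (X : ℤ) ^ 5, fun X => Fin.append (fun i : Fin 3 => TH285.SN.ent (X : ℤ) i) d, hD0', ?_,
    by omega, ?_, ?_⟩
  · have : 1 ≤ 10 * D + E + 1 := by omega
    exact_mod_cast this
  · intro s t hst
    have h1 : ((s : ℤ)) ^ 5 = (t : ℤ) ^ 5 := hst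
    have h2 := (pow_left_inj₀ (by positivity) (by positivity) (by norm_num)).1 h1
    exact_mod_cast h2
  intro X hXB hXL
  obtain ⟨z', hz'⟩ := Nat.modEq_iff_dvd.mp hXL.symm
  have hz : (X : ℤ) = 1 + 30 * (D * z') := by
    push_cast at hz'
    linarith
  have h2X : (2 : ℤ) < X := by
    have : 2 < X := by omega
    exact_mod_cast this
  set f : Fin 3 → ℤ := fun i => TH285.SN.ent (X : ℤ) i with hf
  have hf0 : f 0 = (X : ℤ) ^ 5 := rfl
  have hf1 : f 1 = -((X : ℤ) - 2) ^ 5 := rfl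
  have hf2 : f 2 = -(10 * (((X : ℤ) - 1) ^ 2 + 1) ^ 2) := rfl
  have hfsum : ∑ i, f i = -8 := by
    rw [Fin.sum_univ_three, hf0, hf1, hf2]; ring
  have hff : ∀ i j, i ≠ j → IsCoprime (f i) (f j) := by
    intro i j hij
    have hne : (i : ℕ) ≠ (j : ℕ) := fun h => hij (Fin.ext h)
    rcases lt_or_gt_of_ne hne with h | h
    · exact TH285.SN.ent_cop hz _ _ h
    · exact (TH285.SN.ent_cop hz _ _ h).symm
  have hfd : ∀ i j, IsCoprime (f i) (d j) := by
    intro i j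
    obtain ⟨w, hw⟩ : d j ∣ (D : ℤ) := by
      have h1 : (d j).natAbs ∣ D := dvd_prod_of_mem (fun j => (d j).natAbs) (mem_univ j)
      exact Int.natAbs_dvd.1 (by exact_mod_cast h1)
    have hX : (X : ℤ) = 1 + d j * (30 * w * z') := by rw [hz, hw]; ring
    have c1 : IsCoprime (X : ℤ) (d j) := TH285.SN.cop_of isCoprime_one_left hX
    have c2 : IsCoprime ((X : ℤ) - 2) (d j) :=
      TH285.SN.cop_of (c := -1) (w := 30 * w * z') (isCoprime_one_left.neg_left)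
        (by rw [hX]; ring)
    have c3 : IsCoprime (((X : ℤ) - 1) ^ 2 + 1) (d j) :=
      TH285.SN.cop_of (c := 1) (w := d j * (30 * w * z') ^ 2) isCoprime_one_left
        (by rw [hX]; ring)
    have c4 : IsCoprime (10 : ℤ) (d j) :=
      ((hdQ j).of_isCoprime_of_dvd_right (by norm_num)).symm
    fin_cases i
    · exact c1.pow_left
    · exact (c2.pow_left).neg_left
    · exact (c4.mul_left c3.pow_left).neg_left
  have hlarge : ∀ i, (E : ℤ) + 8 < |f i| := by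
    have hXE : (E : ℤ) + 100 < X := by
      have : E + 100 < X := by omega
      exact_mod_cast this
    intro i
    fin_cases i
    · show (E : ℤ) + 8 < |f 0|
      rw [hf0, abs_of_nonneg (by positivity)]
      have := le_self_pow₀ (by linarith : (1 : ℤ) ≤ X) (by norm_num : (5 : ℕ) ≠ 0)
      linarith
    · show (E : ℤ) + 8 < |f 1|
      rw [hf1, abs_neg, abs_of_nonneg (pow_nonneg (by linarith) 5)]
      have := le_self_pow₀ (by linarith : (1 : ℤ) ≤ (X : ℤ) - 2) (by norm_num : (5 : ℕ) ≠ 0)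
      linarith
    · show (E : ℤ) + 8 < |f 2|
      rw [hf2, abs_neg, abs_of_nonneg (by positivity)]
      have h1 := le_self_pow₀ (by linarith : (1 : ℤ) ≤ (X : ℤ) - 1) (by norm_num : (2 : ℕ) ≠ 0)
      have h2 := le_self_pow₀ (by linarith : (1 : ℤ) ≤ ((X : ℤ) - 1) ^ 2 + 1)
        (by norm_num : (2 : ℕ) ≠ 0)
      linarith
  have hsum : ∑ i, f i + ∑ j, d j = 0 := by rw [hfsum, hdsum]; norm_num
  have hadm : Adm (Fin.append f d) :=
    adm_append (fun i => TH285.SN.ent_ne h2X i) hd0 hff hdd hfd hsum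
  have hns : NoSub (Fin.append f d) := by
    refine noSub_append hsum hdz fun S hS hSu => ?_
    rw [← hEabs]
    obtain ⟨i, h | h⟩ := subsets3 S (nonempty_iff_ne_empty.1 hS) hSu
    · rw [h, sum_singleton]
      have := hlarge i
      linarith
    · have h1 := sum_add_sum_compl {i} f
      rw [sum_singleton, hfsum, ← h] at h1
      have h2 : ∑ i ∈ S, f i = -(f i + 8) := by linarith
      rw [h2, abs_neg]
      have h3 := hlarge i
      have h4 : |f i| ≤ |f i + 8| + |(8 : ℤ)| := by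
        have := abs_sub (f i + 8) 8
        rwa [add_sub_cancel_right] at this
      have h5 : |(8 : ℤ)| = 8 := by norm_num
      rw [h5] at h4
      linarith
  have hx0 : Fin.append f d (Fin.castAdd (k + 2) 0) = (X : ℤ) ^ 5 := by
    rw [Fin.append_left]
    exact hf0
  refine ⟨hadm, hns, hx0, ?_, ?_, ?_⟩
  · intro i
    have hX1 : (1 : ℝ) ≤ X := by
      have : (2 : ℝ) < X := by exact_mod_cast h2X
      linarith
    have hX5 : (1 : ℝ) ≤ (X : ℝ) ^ 5 := one_le_pow₀ hX1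
    have hC10 : (10 : ℝ) ≤ ((10 * D + E + 1 : ℕ) : ℝ) := by
      have : 10 ≤ 10 * D + E + 1 := by omega
      exact_mod_cast this
    show |((Fin.append f d i : ℤ) : ℝ)| ≤ _
    refine Fin.addCases (fun i => ?_) (fun j => ?_) i
    · rw [Fin.append_left]
      have key : |((f i : ℤ) : ℝ)| ≤ 10 * (X : ℝ) ^ 5 := by
        have hX2 : (2 : ℝ) < X := by exact_mod_cast h2X
        fin_cases i
        · show |((f 0 : ℤ) : ℝ)| ≤ _
          rw [hf0]; push_cast
          rw [abs_of_nonneg (by positivity)]; linarith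
        · show |((f 1 : ℤ) : ℝ)| ≤ _
          rw [hf1]; push_cast
          rw [abs_neg, abs_of_nonneg (pow_nonneg (by linarith) 5)]
          have : ((X : ℝ) - 2) ^ 5 ≤ (X : ℝ) ^ 5 := pow_le_pow_left₀ (by linarith) (by linarith) 5
          linarith
        · show |((f 2 : ℤ) : ℝ)| ≤ _
          rw [hf2]; push_cast
          rw [abs_neg, abs_of_nonneg (by positivity)]
          have h1 : ((X : ℝ) - 1) ^ 2 + 1 ≤ (X : ℝ) ^ 2 := by nlinarith
          have h2 : (((X : ℝ) - 1) ^ 2 + 1) ^ 2 ≤ ((X : ℝ) ^ 2) ^ 2 :=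
            pow_le_pow_left₀ (by positivity) h1 2
          have h3 : ((X : ℝ) ^ 2) ^ 2 ≤ (X : ℝ) ^ 5 := by
            rw [← pow_mul]; exact pow_le_pow_right₀ hX1 (by norm_num)
          linarith
      refine key.trans ?_
      gcongr
    · rw [Fin.append_right]
      have h1 : (d j).natAbs ≤ E :=
        single_le_sum (f := fun j => (d j).natAbs) (fun _ _ => Nat.zero_le _) (mem_univ j)
      have h2 : |((d j : ℤ) : ℝ)| ≤ ((10 * D + E + 1 : ℕ) : ℝ) := by
        have h3 : |((d j : ℤ) : ℝ)| = (((d j).natAbs : ℕ) : ℝ) := by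
          rw [Nat.cast_natAbs, Int.cast_abs]
        rw [h3]
        have : (d j).natAbs ≤ 10 * D + E + 1 := by omega
        exact_mod_cast this
      calc |((d j : ℤ) : ℝ)| ≤ ((10 * D + E + 1 : ℕ) : ℝ) * 1 := by rw [mul_one]; exact h2
        _ ≤ _ := by gcongr
  · push_cast
    exact le_abs_self _
  intro ρ hρ0 hρ
  set σ : ℕ := X - 2 with hσdef
  have hσ0 : 0 < σ := by omega
  have hσ : ∀ p : ℕ, p.Prime → (p : ℤ) ∣ (X : ℤ) - 2 → p ∣ σ := by
    intro p _ h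
    have e : (X : ℤ) - 2 = ((X - 2 : ℕ) : ℤ) := by omega
    rw [e] at h
    exact_mod_cast h
  have hrad : rad (Fin.append f d) ≤ ρ * σ * (10 * ((X - 1) ^ 2 + 1)) * D := by
    have e2 : ((X : ℤ) - 1) = ((X - 1 : ℕ) : ℤ) := by omega
    refine rad_append_le f d (by positivity) ?_ ?_
    · intro p hp i hpi
      have hpI : Prime (p : ℤ) := Nat.prime_iff_prime_int.mp hp
      fin_cases i
      · have h1 : (p : ℤ) ∣ (X : ℤ) ^ 5 := hpi
        have h2 : p ∣ X := by exact_mod_cast hpI.dvd_of_dvd_pow h1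
        exact ((hρ p hp h2).mul_right _).mul_right _ |>.mul_right _
      · have h1 : (p : ℤ) ∣ -((X : ℤ) - 2) ^ 5 := hpi
        have h2 := hpI.dvd_of_dvd_pow ((dvd_neg).1 h1)
        exact ((hσ p hp h2).mul_left _).mul_right _ |>.mul_right _
      · have h1 : (p : ℤ) ∣ -(10 * (((X : ℤ) - 1) ^ 2 + 1) ^ 2) := hpi
        rw [dvd_neg] at h1
        have h0 : p ∣ 10 * ((X - 1) ^ 2 + 1) := by
          rcases hpI.dvd_or_dvd h1 with h1 | h1
          · have h2 : p ∣ 10 := by exact_mod_cast h1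
            exact Dvd.dvd.mul_right h2 _
          · have h1 := hpI.dvd_of_dvd_pow h1
            rw [e2] at h1
            have h2 : p ∣ (X - 1) ^ 2 + 1 := by exact_mod_cast h1
            exact Dvd.dvd.mul_left h2 _
        exact (h0.mul_left _).mul_right _
    · intro p hp j hpj
      have h1 : p ∣ (d j).natAbs := Int.natCast_dvd.mp hpj
      exact (h1.trans (dvd_prod_of_mem (fun j => (d j).natAbs) (mem_univ j))).mul_left _
  have hrad2 : rad (Fin.append f d) ≤ (10 * D) * ρ * X ^ 3 := by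
    refine hrad.trans ?_
    have h3 : (X - 1) ^ 2 + 1 ≤ X ^ 2 := by
      obtain ⟨Y, hY⟩ : ∃ Y, X = Y + 2 := ⟨X - 2, by omega⟩
      rw [hY]
      simp only [Nat.add_succ_sub_one]
      nlinarith
    have h4 : σ ≤ X := Nat.sub_le _ _
    calc ρ * σ * (10 * ((X - 1) ^ 2 + 1)) * D ≤ ρ * X * (10 * X ^ 2) * D := by gcongr
      _ = _ := by ring
  have h5 : (rad (Fin.append f d) : ℝ) ≤ ((10 * D : ℕ) : ℝ) * ρ * (X : ℝ) ^ 3 := by
    exact_mod_cast hrad2
  refine h5.trans ?_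
  have h6 : ((10 * D : ℕ) : ℝ) ≤ ((10 * D + E + 1 : ℕ) : ℝ) := by
    have : 10 * D ≤ 10 * D + E + 1 := by omega
    exact_mod_cast this
  gcongr

theorem fam_even {k : ℕ} (hk : Even k) : Fam (4 + (k + 2)) 7 5 := by
  classical
  obtain ⟨d, hdQ, hdd, hdsum, hdbig⟩ := exists_consts k (-1369826131968)
    (210 * 47 * 11191 * 6865) |(-1369826131968)| (by norm_num) (by norm_num)
    (by decide) (by
      obtain ⟨t, ht⟩ := hk
      refine ⟨-684913065984 - t, ?_⟩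
      rw [ht]; push_cast; ring) (by norm_num)
  have hdz := no_zero_subsum (by norm_num) hdsum hdbig
  have hd0 : ∀ j, d j ≠ 0 := fun j => by
    have := hdz {j} (singleton_nonempty j)
    simpa using this
  set D : ℕ := ∏ j, (d j).natAbs with hD
  have hD0 : 0 < D := prod_pos fun j _ => Int.natAbs_pos.2 (hd0 j)
  set E : ℕ := ∑ j, (d j).natAbs with hE
  have hEabs : (E : ℤ) = ∑ j, |d j| := by
    rw [hE]; push_cast; rfl
  have hD0' : 0 < 210 * 1369826131969 * D := by omega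
  refine ⟨210 * 1369826131969 * D, 1, 7495 * 7 * 6337 * D + E + 1369826131968 + 1001,
    (7495 * 7 * 6337 * D + 7 * 6337 ^ 3 + 7495 ^ 3 + E + 1 : ℕ), Fin.castAdd (k + 2) 0,
    fun X => (X : ℤ) ^ 7, fun X => Fin.append (fun i : Fin 4 => TH96.NC.ent (X : ℤ) i) d, hD0', ?_,
    by omega, ?_, ?_⟩
  · have : 1 ≤ 7495 * 7 * 6337 * D + 7 * 6337 ^ 3 + 7495 ^ 3 + E + 1 := by omega
    exact_mod_cast this
  · intro s t hst
    have h1 : ((s : ℤ)) ^ 7 = (t : ℤ) ^ 7 := hst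
    have h2 := (pow_left_inj₀ (by positivity) (by positivity) (by norm_num)).1 h1
    exact_mod_cast h2
  intro X hXB hXL
  obtain ⟨z', hz'⟩ := Nat.modEq_iff_dvd.mp hXL.symm
  have hz : (X : ℤ) = 1 + TH96.NC.cL * (D * z') := by
    unfold TH96.NC.cL TH96.NC.cA
    push_cast at hz'
    linarith
  have h48 : (48 : ℤ) < X := by
    have : 48 < X := by omega
    exact_mod_cast this
  have hXE : (E : ℤ) + 1369826131968 + 1000 < X := by
    have : E + 1369826131968 + 1000 < X := by omega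
    exact_mod_cast this
  have hE0 : (0 : ℤ) ≤ E := Int.natCast_nonneg E
  set f : Fin 4 → ℤ := fun i => TH96.NC.ent (X : ℤ) i with hf
  have hf0 : f 0 = (X : ℤ) ^ 7 := rfl
  have hf1 : f 1 = -((X : ℤ) - 48) ^ 7 := rfl
  have hf2 : f 2 = -(7 * ((X : ℤ) - 24) ^ 2 + 7488) ^ 3 := rfl
  have hf3 : f 3 = 7 * (((X : ℤ) - 24) ^ 2 + 6336) ^ 3 := rfl
  have hfsum : ∑ i, f i = 1369826131968 := by
    rw [Fin.sum_univ_four, hf0, hf1, hf2, hf3]; ring
  have hff : ∀ i j, i ≠ j → IsCoprime (f i) (f j) := by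
    intro i j hij
    have hne : (i : ℕ) ≠ (j : ℕ) := fun h => hij (Fin.ext h)
    rcases lt_or_gt_of_ne hne with h | h
    · exact TH96.NC.ent_cop hz _ _ h
    · exact (TH96.NC.ent_cop hz _ _ h).symm
  have hfd : ∀ i j, IsCoprime (f i) (d j) := by
    intro i j
    obtain ⟨w, hw⟩ : d j ∣ (D : ℤ) := by
      have h1 : (d j).natAbs ∣ D := dvd_prod_of_mem (fun j => (d j).natAbs) (mem_univ j)
      exact Int.natAbs_dvd.1 (by exact_mod_cast h1)
    obtain ⟨v, hX⟩ : ∃ v : ℤ, (X : ℤ) = 1 + d j * v := ⟨TH96.NC.cL * w * z', by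
      rw [hz, hw]; ring⟩
    have hQ : ∀ c : ℤ, c ∣ ((210 * 47 * 11191 * 6865 : ℕ) : ℤ) → IsCoprime c (d j) := fun c hc =>
      ((hdQ j).of_isCoprime_of_dvd_right hc).symm
    have c1 : IsCoprime (X : ℤ) (d j) := TH285.SN.cop_of isCoprime_one_left hX
    have c2 : IsCoprime ((X : ℤ) - 48) (d j) :=
      TH285.SN.cop_of (c := -47) (w := v) (hQ _ (by norm_num)) (by rw [hX]; ring)
    have c3 : IsCoprime (7 * ((X : ℤ) - 24) ^ 2 + 7488) (d j) :=
      TH285.SN.cop_of (c := 11191) (w := 7 * (v * (d j * v - 46))) (hQ _ (by norm_num))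
        (by rw [hX]; ring)
    have c4 : IsCoprime (((X : ℤ) - 24) ^ 2 + 6336) (d j) :=
      TH285.SN.cop_of (c := 6865) (w := v * (d j * v - 46)) (hQ _ (by norm_num))
        (by rw [hX]; ring)
    have c5 : IsCoprime (7 : ℤ) (d j) := hQ _ (by norm_num)
    fin_cases i
    · exact c1.pow_left
    · exact (c2.pow_left).neg_left
    · exact (c3.pow_left).neg_left
    · exact c5.mul_left c4.pow_left
  have hlarge : ∀ i, (E : ℤ) + 1369826131968 < |f i| := by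
    intro i
    fin_cases i
    · show (E : ℤ) + 1369826131968 < |f 0|
      rw [hf0, abs_of_nonneg (by positivity)]
      have := le_self_pow₀ (by linarith : (1 : ℤ) ≤ X) (by norm_num : (7 : ℕ) ≠ 0)
      linarith
    · show (E : ℤ) + 1369826131968 < |f 1|
      rw [hf1, abs_neg, abs_of_nonneg (pow_nonneg (by linarith) 7)]
      have := le_self_pow₀ (by linarith : (1 : ℤ) ≤ (X : ℤ) - 48) (by norm_num : (7 : ℕ) ≠ 0)
      linarith
    · show (E : ℤ) + 1369826131968 < |f 2|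
      rw [hf2, abs_neg, abs_of_nonneg (by positivity)]
      have h1 := le_self_pow₀ (by linarith : (1 : ℤ) ≤ (X : ℤ) - 24) (by norm_num : (2 : ℕ) ≠ 0)
      have h2 := le_self_pow₀ (by linarith : (1 : ℤ) ≤ 7 * ((X : ℤ) - 24) ^ 2 + 7488)
        (by norm_num : (3 : ℕ) ≠ 0)
      linarith
    · show (E : ℤ) + 1369826131968 < |f 3|
      rw [hf3, abs_of_nonneg (by positivity)]
      have h1 := le_self_pow₀ (by linarith : (1 : ℤ) ≤ (X : ℤ) - 24) (by norm_num : (2 : ℕ) ≠ 0)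
      have h2 := le_self_pow₀ (by linarith : (1 : ℤ) ≤ ((X : ℤ) - 24) ^ 2 + 6336)
        (by norm_num : (3 : ℕ) ≠ 0)
      linarith
  have hlarge2 : ∀ i, i ≠ 0 → (E : ℤ) + 1369826131968 < |f 0 + f i| := by
    obtain ⟨Y, hY⟩ : ∃ Y : ℤ, (X : ℤ) = Y + 48 := ⟨X - 48, by ring⟩
    have hY1 : (E : ℤ) + 1369826131968 < Y := by linarith
    have hY0 : 1 ≤ Y := by linarith
    intro i hi
    refine lt_of_lt_of_le hY1 (le_trans ?_ (le_abs_self _))
    fin_cases i
    · exact absurd rfl hi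
    · show Y ≤ f 0 + f 1
      rw [hf0, hf1, hY]
      have h1 : Y ≤ Y ^ 6 := le_self_pow₀ hY0 (by norm_num)
      have h2 : (Y + 48) ^ 7 + -(Y + 48 - 48) ^ 7 = Y ^ 6 + (335 * Y ^ 6 + 48384 * Y ^ 5 +
          3870720 * Y ^ 4 + 185794560 * Y ^ 3 + 5350883328 * Y ^ 2 + 85614133248 * Y +
          587068342272) := by ring
      rw [h2]
      have h3 : 0 ≤ 335 * Y ^ 6 + 48384 * Y ^ 5 +
          3870720 * Y ^ 4 + 185794560 * Y ^ 3 + 5350883328 * Y ^ 2 + 85614133248 * Y +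
          587068342272 := by positivity
      linarith
    · show Y ≤ f 0 + f 2
      rw [hf0, hf2]
      have h1 : 7 * ((X : ℤ) - 24) ^ 2 + 7488 ≤ 7 * (X : ℤ) ^ 2 := by nlinarith
      have h2 : (7 * ((X : ℤ) - 24) ^ 2 + 7488) ^ 3 ≤ (7 * (X : ℤ) ^ 2) ^ 3 :=
        pow_le_pow_left₀ (by positivity) h1 3
      have h3 : (X : ℤ) ≤ (X : ℤ) ^ 6 := le_self_pow₀ (by linarith) (by norm_num)
      have h4 : (X : ℤ) ^ 6 * 344 ≤ (X : ℤ) ^ 6 * X :=
        mul_le_mul_of_nonneg_left (by linarith) (by positivity)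
      have h5 : (7 * (X : ℤ) ^ 2) ^ 3 = 343 * (X : ℤ) ^ 6 := by ring
      have h6 : (X : ℤ) ^ 7 = (X : ℤ) ^ 6 * X := by ring
      rw [h6]
      linarith
    · show Y ≤ f 0 + f 3
      rw [hf0, hf3]
      have h3 : (X : ℤ) ≤ (X : ℤ) ^ 7 := le_self_pow₀ (by linarith) (by norm_num)
      have h4 : 0 ≤ 7 * (((X : ℤ) - 24) ^ 2 + 6336) ^ 3 := by positivity
      linarith
  have hsum : ∑ i, f i + ∑ j, d j = 0 := by rw [hfsum, hdsum]; norm_num
  have hadm : Adm (Fin.append f d) :=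
    adm_append (fun i => TH96.NC.ent_ne h48 i) hd0 hff hdd hfd hsum
  have hcompl : ∀ s : ℤ, (E : ℤ) + 1369826131968 < |s| → (E : ℤ) < |1369826131968 - s| := by
    intro s hs
    have h4 : |s| ≤ |1369826131968 - s| + |(1369826131968 : ℤ)| := by
      have := abs_sub (1369826131968 - s) 1369826131968
      have e : 1369826131968 - s - 1369826131968 = -s := by ring
      rwa [e, abs_neg] at this
    have h5 : |(1369826131968 : ℤ)| = 1369826131968 := by norm_num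
    rw [h5] at h4
    linarith
  have hns : NoSub (Fin.append f d) := by
    refine noSub_append hsum hdz fun S hS hSu => ?_
    rw [← hEabs]
    have hc : ∀ S' : Finset (Fin 4), ∑ i ∈ S'ᶜ, f i = 1369826131968 - ∑ i ∈ S', f i := by
      intro S'
      have h1 := sum_add_sum_compl S' f
      rw [hfsum] at h1
      linarith
    obtain ⟨i, h | h | ⟨hi, h | h⟩⟩ := subsets4 S (nonempty_iff_ne_empty.1 hS) hSu
    · rw [h, sum_singleton]
      have := hlarge i
      linarith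
    · rw [h, hc, sum_singleton]
      exact hcompl _ (hlarge i)
    · rw [h, sum_pair hi.symm]
      have := hlarge2 i hi
      linarith
    · rw [h, hc, sum_pair hi.symm]
      exact hcompl _ (hlarge2 i hi)
  have hx0 : Fin.append f d (Fin.castAdd (k + 2) 0) = (X : ℤ) ^ 7 := by
    rw [Fin.append_left]
    exact hf0
  refine ⟨hadm, hns, hx0, ?_, ?_, ?_⟩
  · intro i
    have hX48 : (48 : ℝ) < X := by exact_mod_cast h48
    have hX1 : (1 : ℝ) ≤ X := by linarith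
    have hX7 : (1 : ℝ) ≤ (X : ℝ) ^ 7 := one_le_pow₀ hX1
    have hC10 : ((7 * 6337 ^ 3 + 7495 ^ 3 : ℕ) : ℝ) ≤
        ((7495 * 7 * 6337 * D + 7 * 6337 ^ 3 + 7495 ^ 3 + E + 1 : ℕ) : ℝ) := by
      have : 7 * 6337 ^ 3 + 7495 ^ 3 ≤ 7495 * 7 * 6337 * D + 7 * 6337 ^ 3 + 7495 ^ 3 + E + 1 := by
        omega
      exact_mod_cast this
    show |((Fin.append f d i : ℤ) : ℝ)| ≤ _
    refine Fin.addCases (fun i => ?_) (fun j => ?_) i
    · rw [Fin.append_left]
      have key : |((f i : ℤ) : ℝ)| ≤ ((7 * 6337 ^ 3 + 7495 ^ 3 : ℕ) : ℝ) * (X : ℝ) ^ 7 := by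
        have h24 : ((X : ℝ) - 24) ^ 2 ≤ (X : ℝ) ^ 2 := pow_le_pow_left₀ (by linarith) (by linarith) 2
        have hX2 : (1 : ℝ) ≤ (X : ℝ) ^ 2 := one_le_pow₀ hX1
        have h67 : (X : ℝ) ^ 6 ≤ (X : ℝ) ^ 7 := pow_le_pow_right₀ hX1 (by norm_num)
        push_cast
        fin_cases i
        · show |((f 0 : ℤ) : ℝ)| ≤ _
          rw [hf0]; push_cast
          rw [abs_of_nonneg (by positivity)]; linarith
        · show |((f 1 : ℤ) : ℝ)| ≤ _
          rw [hf1]; push_cast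
          rw [abs_neg, abs_of_nonneg (pow_nonneg (by linarith) 7)]
          have : ((X : ℝ) - 48) ^ 7 ≤ (X : ℝ) ^ 7 := pow_le_pow_left₀ (by linarith) (by linarith) 7
          linarith
        · show |((f 2 : ℤ) : ℝ)| ≤ _
          rw [hf2]; push_cast
          rw [abs_neg, abs_of_nonneg (by positivity)]
          have h2 : (7 * ((X : ℝ) - 24) ^ 2 + 7488) ^ 3 ≤ (7495 * (X : ℝ) ^ 2) ^ 3 :=
            pow_le_pow_left₀ (by positivity) (by linarith) 3
          have h3 : (7495 * (X : ℝ) ^ 2) ^ 3 = 7495 ^ 3 * (X : ℝ) ^ 6 := by ring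
          linarith
        · show |((f 3 : ℤ) : ℝ)| ≤ _
          rw [hf3]; push_cast
          rw [abs_of_nonneg (by positivity)]
          have h2 : (((X : ℝ) - 24) ^ 2 + 6336) ^ 3 ≤ (6337 * (X : ℝ) ^ 2) ^ 3 :=
            pow_le_pow_left₀ (by positivity) (by linarith) 3
          have h3 : (6337 * (X : ℝ) ^ 2) ^ 3 = 6337 ^ 3 * (X : ℝ) ^ 6 := by ring
          linarith
      refine key.trans ?_
      gcongr
    · rw [Fin.append_right]
      have h1 : (d j).natAbs ≤ E :=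
        single_le_sum (f := fun j => (d j).natAbs) (fun _ _ => Nat.zero_le _) (mem_univ j)
      have h2 : |((d j : ℤ) : ℝ)| ≤
          ((7495 * 7 * 6337 * D + 7 * 6337 ^ 3 + 7495 ^ 3 + E + 1 : ℕ) : ℝ) := by
        have h3 : |((d j : ℤ) : ℝ)| = (((d j).natAbs : ℕ) : ℝ) := by
          rw [Nat.cast_natAbs, Int.cast_abs]
        rw [h3]
        have : (d j).natAbs ≤ 7495 * 7 * 6337 * D + 7 * 6337 ^ 3 + 7495 ^ 3 + E + 1 := by omega
        exact_mod_cast this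
      calc |((d j : ℤ) : ℝ)| ≤
          ((7495 * 7 * 6337 * D + 7 * 6337 ^ 3 + 7495 ^ 3 + E + 1 : ℕ) : ℝ) * 1 := by
            rw [mul_one]; exact h2
        _ ≤ _ := by gcongr
  · push_cast
    exact le_abs_self _
  intro ρ hρ0 hρ
  set σ : ℕ := X - 48 with hσdef
  have hσ0 : 0 < σ := by omega
  have hσ : ∀ p : ℕ, p.Prime → (p : ℤ) ∣ (X : ℤ) - 48 → p ∣ σ := by
    intro p _ h
    have e : (X : ℤ) - 48 = ((X - 48 : ℕ) : ℤ) := by omega
    rw [e] at h
    exact_mod_cast h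
  have hrad : rad (Fin.append f d) ≤ ρ * σ * ((7 * (X - 24) ^ 2 + 7488) *
      (7 * ((X - 24) ^ 2 + 6336))) * D := by
    have e2 : ((X : ℤ) - 24) = ((X - 24 : ℕ) : ℤ) := by omega
    refine rad_append_le f d (by positivity) ?_ ?_
    · intro p hp i hpi
      have hpI : Prime (p : ℤ) := Nat.prime_iff_prime_int.mp hp
      fin_cases i
      · have h1 : (p : ℤ) ∣ (X : ℤ) ^ 7 := hpi
        have h2 : p ∣ X := by exact_mod_cast hpI.dvd_of_dvd_pow h1
        exact ((hρ p hp h2).mul_right _).mul_right _ |>.mul_right _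
      · have h1 : (p : ℤ) ∣ -((X : ℤ) - 48) ^ 7 := hpi
        have h2 := hpI.dvd_of_dvd_pow ((dvd_neg).1 h1)
        exact ((hσ p hp h2).mul_left _).mul_right _ |>.mul_right _
      · have h1 : (p : ℤ) ∣ -(7 * ((X : ℤ) - 24) ^ 2 + 7488) ^ 3 := hpi
        have h2 := hpI.dvd_of_dvd_pow ((dvd_neg).1 h1)
        rw [e2] at h2
        have h0 : p ∣ 7 * (X - 24) ^ 2 + 7488 := by exact_mod_cast h2
        exact ((h0.mul_right _).mul_left _).mul_right _
      · have h1 : (p : ℤ) ∣ 7 * (((X : ℤ) - 24) ^ 2 + 6336) ^ 3 := hpi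
        have h0 : p ∣ 7 * ((X - 24) ^ 2 + 6336) := by
          rcases hpI.dvd_or_dvd h1 with h1 | h1
          · have h2 : p ∣ 7 := by exact_mod_cast h1
            exact Dvd.dvd.mul_right h2 _
          · have h1 := hpI.dvd_of_dvd_pow h1
            rw [e2] at h1
            have h2 : p ∣ (X - 24) ^ 2 + 6336 := by exact_mod_cast h1
            exact Dvd.dvd.mul_left h2 _
        exact ((h0.mul_left _).mul_left _).mul_right _
    · intro p hp j hpj
      have h1 : p ∣ (d j).natAbs := Int.natCast_dvd.mp hpj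
      exact (h1.trans (dvd_prod_of_mem (fun j => (d j).natAbs) (mem_univ j))).mul_left _
  have hrad2 : rad (Fin.append f d) ≤ (7495 * 7 * 6337 * D) * ρ * X ^ 5 := by
    refine hrad.trans ?_
    have h2 : X - 24 ≤ X := Nat.sub_le _ _
    have h3 : (X - 24) ^ 2 ≤ X ^ 2 := Nat.pow_le_pow_left h2 2
    have h4 : 1 ≤ X ^ 2 := Nat.one_le_pow _ _ (by omega)
    have h5 : 7 * (X - 24) ^ 2 + 7488 ≤ 7495 * X ^ 2 := by omega
    have h6 : (X - 24) ^ 2 + 6336 ≤ 6337 * X ^ 2 := by omega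
    have h7 : σ ≤ X := Nat.sub_le _ _
    calc ρ * σ * ((7 * (X - 24) ^ 2 + 7488) * (7 * ((X - 24) ^ 2 + 6336))) * D
        ≤ ρ * X * ((7495 * X ^ 2) * (7 * (6337 * X ^ 2))) * D := by gcongr
      _ = _ := by ring
  have h5 : (rad (Fin.append f d) : ℝ) ≤ ((7495 * 7 * 6337 * D : ℕ) : ℝ) * ρ * (X : ℝ) ^ 5 := by
    exact_mod_cast hrad2
  refine h5.trans ?_
  have h6 : ((7495 * 7 * 6337 * D : ℕ) : ℝ) ≤
      ((7495 * 7 * 6337 * D + 7 * 6337 ^ 3 + 7495 ^ 3 + E + 1 : ℕ) : ℝ) := by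
    have : 7495 * 7 * 6337 * D ≤ 7495 * 7 * 6337 * D + 7 * 6337 ^ 3 + 7495 ^ 3 + E + 1 := by omega
    exact_mod_cast this
  gcongr

theorem fam_quad : Fam 4 9 7 := by
  classical
  refine ⟨30, 7, 1, (5 * 23 * 7 * 3 * 89 * 125 + 23 ^ 5 + 7 ^ 5 * 5 ^ 4 + 3 * 89 ^ 3 + 125 ^ 3 : ℕ), 0,
    fun X => (5 * (X : ℤ) + 18) ^ 5 * (X : ℤ) ^ 4, fun X => Y912.SN4.quad (X : ℤ), by norm_num,
    by norm_num, le_rfl, ?_, ?_⟩
  · have : StrictMono fun X : ℕ => (5 * (X : ℤ) + 18) ^ 5 * (X : ℤ) ^ 4 := by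
      intro s t hst
      have h1 : (s : ℤ) < t := by exact_mod_cast hst
      have h0 : (0 : ℤ) ≤ s := Int.natCast_nonneg _
      show (5 * (s : ℤ) + 18) ^ 5 * (s : ℤ) ^ 4 < (5 * (t : ℤ) + 18) ^ 5 * (t : ℤ) ^ 4
      have h2 : (5 * (s : ℤ) + 18) ^ 5 < (5 * (t : ℤ) + 18) ^ 5 :=
        pow_lt_pow_left₀ (by linarith) (by positivity) (by norm_num)
      have h3 : (s : ℤ) ^ 4 ≤ (t : ℤ) ^ 4 := pow_le_pow_left₀ h0 h1.le 4
      have h4 : 0 < (t : ℤ) ^ 4 := by
        have : 0 < (t : ℤ) := by linarith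
        positivity
      calc (5 * (s : ℤ) + 18) ^ 5 * (s : ℤ) ^ 4 ≤ (5 * (s : ℤ) + 18) ^ 5 * (t : ℤ) ^ 4 := by
            gcongr
        _ < (5 * (t : ℤ) + 18) ^ 5 * (t : ℤ) ^ 4 := by gcongr
    exact this.injective
  intro X hX1 hXL
  obtain ⟨z, hz⟩ := Nat.modEq_iff_dvd.mp hXL.symm
  have hX : (X : ℤ) = 7 + 30 * z := by push_cast at hz; linarith
  have hX0 : (0 : ℤ) < X := by
    have : 0 < X := by omega
    exact_mod_cast this
  have c2 : IsCoprime (X : ℤ) 2 :=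
    TH285.SN.cop_of (c := 7) (w := 15 * z) (by norm_num) (by rw [hX]; ring)
  have c3 : (3 : ℤ) ∣ X - 1 := ⟨2 + 10 * z, by rw [hX]; ring⟩
  have c5 : IsCoprime (X : ℤ) 5 :=
    TH285.SN.cop_of (c := 7) (w := 6 * z) (by norm_num) (by rw [hX]; ring)
  have c5' : IsCoprime ((X : ℤ) + 4) 5 :=
    TH285.SN.cop_of (c := 11) (w := 6 * z) (by norm_num) (by rw [hX]; ring)
  have hXr : (1 : ℝ) ≤ X := by exact_mod_cast hX1
  have hX2r : (X : ℝ) ≤ (X : ℝ) ^ 2 := le_self_pow₀ hXr (by norm_num)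
  refine ⟨Y912.SN4.adm_quad hX0 c2 c3 c5 c5', Y912.SN4.noSub_quad hX0, rfl, ?_, ?_, ?_⟩
  · intro i
    have h89 : (X : ℝ) ^ 6 ≤ (X : ℝ) ^ 9 := pow_le_pow_right₀ hXr (by norm_num)
    have h9 : (0 : ℝ) ≤ (X : ℝ) ^ 9 := by positivity
    push_cast
    fin_cases i
    · show |(((5 * (X : ℤ) + 18) ^ 5 * (X : ℤ) ^ 4 : ℤ) : ℝ)| ≤ _
      push_cast
      rw [abs_of_nonneg (by positivity)]
      have h1 : (5 * (X : ℝ) + 18) ^ 5 ≤ (23 * X) ^ 5 :=
        pow_le_pow_left₀ (by positivity) (by linarith) 5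
      calc (5 * (X : ℝ) + 18) ^ 5 * (X : ℝ) ^ 4 ≤ (23 * X) ^ 5 * (X : ℝ) ^ 4 := by gcongr
        _ = 23 ^ 5 * (X : ℝ) ^ 9 := by ring
        _ ≤ _ := by gcongr; norm_num
    · show |((-((5 * (X : ℤ) + 2) ^ 5 * ((X : ℤ) + 4) ^ 4) : ℤ) : ℝ)| ≤ _
      push_cast
      rw [abs_neg, abs_of_nonneg (by positivity)]
      have h1 : (5 * (X : ℝ) + 2) ^ 5 ≤ (7 * X) ^ 5 :=
        pow_le_pow_left₀ (by positivity) (by linarith) 5
      have h2 : ((X : ℝ) + 4) ^ 4 ≤ (5 * X) ^ 4 :=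
        pow_le_pow_left₀ (by positivity) (by linarith) 4
      calc (5 * (X : ℝ) + 2) ^ 5 * ((X : ℝ) + 4) ^ 4 ≤ (7 * X) ^ 5 * (5 * X) ^ 4 := by gcongr
        _ = 7 ^ 5 * 5 ^ 4 * (X : ℝ) ^ 9 := by ring
        _ ≤ _ := by gcongr; norm_num
    · show |((3 * (17 * (X : ℤ) ^ 2 + 68 * X + 4) ^ 3 : ℤ) : ℝ)| ≤ _
      push_cast
      rw [abs_of_nonneg (by positivity)]
      have h1 : (17 * (X : ℝ) ^ 2 + 68 * X + 4) ^ 3 ≤ (89 * X ^ 2) ^ 3 :=
        pow_le_pow_left₀ (by positivity) (by linarith) 3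
      calc 3 * (17 * (X : ℝ) ^ 2 + 68 * X + 4) ^ 3 ≤ 3 * (89 * X ^ 2) ^ 3 := by gcongr
        _ = 3 * 89 ^ 3 * (X : ℝ) ^ 6 := by ring
        _ ≤ 3 * 89 ^ 3 * (X : ℝ) ^ 9 := by gcongr
        _ ≤ _ := by gcongr; norm_num
    · show |(((21 * (X : ℤ) ^ 2 + 84 * X + 20) ^ 3 : ℤ) : ℝ)| ≤ _
      push_cast
      rw [abs_of_nonneg (by positivity)]
      have h1 : (21 * (X : ℝ) ^ 2 + 84 * X + 20) ^ 3 ≤ (125 * X ^ 2) ^ 3 :=
        pow_le_pow_left₀ (by positivity) (by linarith) 3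
      calc (21 * (X : ℝ) ^ 2 + 84 * X + 20) ^ 3 ≤ (125 * X ^ 2) ^ 3 := by gcongr
        _ = 125 ^ 3 * (X : ℝ) ^ 6 := by ring
        _ ≤ 125 ^ 3 * (X : ℝ) ^ 9 := by gcongr
        _ ≤ _ := by gcongr; norm_num
  · push_cast
    refine le_trans ?_ (le_abs_self _)
    have h1 : (X : ℝ) ^ 5 ≤ (5 * X + 18) ^ 5 :=
      pow_le_pow_left₀ (by positivity) (by linarith) 5
    calc (X : ℝ) ^ 9 = (X : ℝ) ^ 5 * (X : ℝ) ^ 4 := by ring
      _ ≤ _ := by gcongr
  intro ρ hρ0 hρ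
  have hrad : rad (Y912.SN4.quad (X : ℤ)) ≤ ρ * (X + 4) * ((5 * X + 18) * (5 * X + 2)) *
      (3 * ((17 * X ^ 2 + 68 * X + 4) * (21 * X ^ 2 + 84 * X + 20))) := by
    refine rad_le_of _ _ (by positivity) fun p hp i h => ?_
    have hpI : Prime (p : ℤ) := Nat.prime_iff_prime_int.mp hp
    have cast : ∀ a : ℕ, (p : ℤ) ∣ (a : ℤ) → p ∣ a := fun a h => by exact_mod_cast h
    fin_cases i
    · have h0 : (p : ℤ) ∣ (5 * (X : ℤ) + 18) ^ 5 * (X : ℤ) ^ 4 := h
      rcases hpI.dvd_or_dvd h0 with h1 | h1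
      · have h2 := cast (5 * X + 18) (by push_cast; exact hpI.dvd_of_dvd_pow h1)
        exact ((h2.mul_right _).mul_left _).mul_right _
      · have h2 := cast X (hpI.dvd_of_dvd_pow h1)
        exact ((hρ p hp h2).mul_right _).mul_right _ |>.mul_right _
    · have h0 : (p : ℤ) ∣ -((5 * (X : ℤ) + 2) ^ 5 * ((X : ℤ) + 4) ^ 4) := h
      rw [dvd_neg] at h0
      rcases hpI.dvd_or_dvd h0 with h1 | h1
      · have h2 := cast (5 * X + 2) (by push_cast; exact hpI.dvd_of_dvd_pow h1)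
        exact ((h2.mul_left _).mul_left _).mul_right _
      · have h3 : p ∣ X + 4 := cast (X + 4) (by push_cast; exact hpI.dvd_of_dvd_pow h1)
        exact ((h3.mul_left _).mul_right _).mul_right _
    · have h0 : (p : ℤ) ∣ 3 * (17 * (X : ℤ) ^ 2 + 68 * X + 4) ^ 3 := h
      rcases hpI.dvd_or_dvd h0 with h1 | h1
      · exact ((cast 3 (by exact_mod_cast h1)).mul_right _).mul_left _
      · have h2 := cast (17 * X ^ 2 + 68 * X + 4) (by push_cast; exact hpI.dvd_of_dvd_pow h1)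
        exact ((h2.mul_right _).mul_left _).mul_left _
    · have h0 : (p : ℤ) ∣ (21 * (X : ℤ) ^ 2 + 84 * X + 20) ^ 3 := h
      have h2 := cast (21 * X ^ 2 + 84 * X + 20) (by push_cast; exact hpI.dvd_of_dvd_pow h0)
      exact ((h2.mul_left _).mul_left _).mul_left _
  have hrad2 : rad (Y912.SN4.quad (X : ℤ)) ≤ (5 * 23 * 7 * 3 * 89 * 125) * ρ * X ^ 7 := by
    refine hrad.trans ?_
    have h3 : 5 * X + 18 ≤ 23 * X := by omega
    have h4 : 5 * X + 2 ≤ 7 * X := by omega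
    have h7 : X + 4 ≤ 5 * X := by omega
    have h5 : 17 * X ^ 2 + 68 * X + 4 ≤ 89 * X ^ 2 := by nlinarith
    have h6 : 21 * X ^ 2 + 84 * X + 20 ≤ 125 * X ^ 2 := by nlinarith
    calc ρ * (X + 4) * ((5 * X + 18) * (5 * X + 2)) *
          (3 * ((17 * X ^ 2 + 68 * X + 4) * (21 * X ^ 2 + 84 * X + 20)))
        ≤ ρ * (5 * X) * ((23 * X) * (7 * X)) * (3 * ((89 * X ^ 2) * (125 * X ^ 2))) := by gcongr
      _ = _ := by ring
  have h5 : (rad (Y912.SN4.quad (X : ℤ)) : ℝ) ≤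
      ((5 * 23 * 7 * 3 * 89 * 125 : ℕ) : ℝ) * ρ * (X : ℝ) ^ 7 := by
    exact_mod_cast hrad2
  refine h5.trans ?_
  have h6 : ((5 * 23 * 7 * 3 * 89 * 125 : ℕ) : ℝ) ≤
      ((5 * 23 * 7 * 3 * 89 * 125 + 23 ^ 5 + 7 ^ 5 * 5 ^ 4 + 3 * 89 ^ 3 + 125 ^ 3 : ℕ) : ℝ) := by
    norm_num
  gcongr

end Pool.Agent.V5helper53.TM
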