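import Pool.Agent.V5helper53.TM.Count

set_option autoImplicit false

namespace Pool.Agent.V5helper53.TM

open Finset Filter Topology
open Pool.Agent.TH285.SN (Adm rad rad_le_of one_le_rad)
open Pool.Agent.W5h7.SNL (NoSub)

/-- at least `B ^ (e + δ)` tuples of height at most `B` -/
def Many (n : ℕ) (M e δ : ℝ) : Prop :=
  ∀ K : ℝ, 0 < K → ∀ᶠ B : ℝ in atTop, ∃ F : Finset (Fin n → ℤ), (∀ x ∈ F, Adm x ∧ NoSub x ∧
      (∀ i, |((x i : ℤ) : ℝ)| ≤ B) ∧ ∃ j, K * (rad x : ℝ) ^ M < |((x j : ℤ) : ℝ)|) ∧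
      B ^ (e + δ) ≤ #F

/-- from bounds in terms of `Y` to bounds in terms of `B = C Y ^ D` -/
theorem many_of {n D : ℕ} (hD : 0 < D) {M e δ η C : ℝ} (he : 0 ≤ e) (hδ : 0 ≤ δ) (hη : 0 < η)
    (hC : 1 ≤ C)
    (h : ∀ K : ℝ, 0 < K → ∀ᶠ Y : ℝ in atTop, ∃ F : Finset (Fin n → ℤ), (∀ x ∈ F, Adm x ∧ NoSub x ∧
      (∀ i, |((x i : ℤ) : ℝ)| ≤ C * Y ^ D) ∧ ∃ j, K * (rad x : ℝ) ^ M < |((x j : ℤ) : ℝ)|) ∧
      Y ^ (D * (e + δ) + η) ≤ #F) : Many n M e δ := by
  have hD' : (0 : ℝ) < D := by exact_mod_cast hD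
  have hC0 : 0 < C := by linarith
  intro K hK
  have ht : Tendsto (fun B : ℝ => (B / C) ^ (1 / (D : ℝ))) atTop atTop :=
    (tendsto_rpow_atTop (by positivity)).comp (tendsto_id.atTop_div_const hC0)
  have e1 : ∀ᶠ B : ℝ in atTop, C ^ (e + δ + η / D) ≤ B ^ (η / D) :=
    (tendsto_rpow_atTop (by positivity)).eventually_ge_atTop _
  filter_upwards [ht.eventually (h K hK), e1, eventually_ge_atTop C] with B hB e1 e2
  obtain ⟨F, hF, hc⟩ := hB
  have hB0 : 0 < B := by linarith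
  have hBC : 0 < B / C := by positivity
  have hY : C * ((B / C) ^ (1 / (D : ℝ))) ^ D = B := by
    rw [← Real.rpow_natCast, ← Real.rpow_mul hBC.le, one_div, inv_mul_cancel₀ hD'.ne',
      Real.rpow_one]
    field_simp
  refine ⟨F, fun x hx => ?_, le_trans ?_ hc⟩
  · have := hF x hx
    rw [hY] at this
    exact this
  · rw [← Real.rpow_mul hBC.le]
    have h1 : 1 / (D : ℝ) * (D * (e + δ) + η) = e + δ + η / D := by field_simp
    rw [h1, Real.div_rpow hB0.le hC0.le, le_div_iff₀ (by positivity)]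
    calc B ^ (e + δ) * C ^ (e + δ + η / D)
        ≤ B ^ (e + δ) * B ^ (η / D) := by gcongr
      _ = B ^ (e + δ + η / D) := by rw [← Real.rpow_add hB0]

theorem block {s d k : ℕ} (hs : 2 ≤ s) (hk : Even k) {C : ℝ} {v0 : ℕ} {i0 : Fin s}
    {f : ℕ → Fin s → ℤ} {ρ : ℕ → ℕ} (h : Blk s d C v0 i0 f ρ) {M δ : ℝ} (hM : 0 < M) (hM1 : M < 1)
    (hδ : 0 ≤ δ) (hδD : ((d + s : ℕ) : ℝ) * δ < 1)
    (c2 : ((d + s : ℕ) : ℝ) * (1 / M - 1) ≤ (k + 1) * d) : Many (s + (k + 2)) M (1 / M - 1) δ := by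
  obtain ⟨h', hpos⟩ := h.sg
  have hk1 : (0 : ℝ) < k + 1 := by positivity
  have hD0 : (0 : ℝ) < ((d + s : ℕ) : ℝ) := by
    have : 0 < d + s := by omega
    exact_mod_cast this
  have he0 : 0 < 1 / M - 1 := by
    have : 1 < 1 / M := by rw [lt_div_iff₀ hM]; linarith
    linarith
  set α : ℝ := ((d + s : ℕ) : ℝ) * (1 / M - 1) with hα
  have hα0 : 0 < α := by positivity
  set γ : ℝ := 1 - ((d + s : ℕ) : ℝ) * δ with hγ
  have hγ0 : 0 < γ := by linarith
  set η : ℝ := min (α / 2) (γ / 4) with hη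
  have hη0 : 0 < η := by positivity
  have hη1 : η ≤ α / 2 := min_le_left _ _
  have hη2 : η ≤ γ / 4 := min_le_right _ _
  set θ : ℝ := (α - η) / (k + 1) with hθd
  have hθ0 : 0 < θ := by
    have : 0 < α - η := by linarith
    positivity
  set ε : ℝ := min (θ / 2) (γ / (4 * (k + 2))) with hε
  have hε0 : 0 < ε := by positivity
  have hε1 : ε ≤ θ / 2 := min_le_left _ _
  have hε2 : ε ≤ γ / (4 * (k + 2)) := min_le_right _ _
  have hε3 : (k + 2) * ε ≤ γ / 4 := by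
    calc (k + 2 : ℝ) * ε ≤ (k + 2) * (γ / (4 * (k + 2))) := by gcongr
      _ = γ / 4 := by field_simp
  have hθ : (k + 1 : ℝ) * θ = α - η := by rw [hθd]; field_simp
  have h1 := fun (K : ℝ) (hK : 0 < K) => block_Y hs hk h' hpos θ ε M K hε0 (by linarith)
    (by
      rw [hθd, div_le_iff₀ hk1]
      linarith) hM hK (by
      rw [hθ, hα]
      have : M * (((d + s : ℕ) : ℝ) + (((d + s : ℕ) : ℝ) * (1 / M - 1) - η)) =
        ((d + s : ℕ) : ℝ) - M * η := by field_simp; ring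
      rw [this]
      have := mul_pos hM hη0
      linarith)
  refine many_of (D := d + s) (by omega) (e := 1 / M - 1) (η := γ / 2) (C := C + 2 * (k + 1))
    he0.le hδ (by positivity) ?_ ?_
  · have := h.C1
    linarith
  · intro K hK
    filter_upwards [h1 K hK, eventually_ge_atTop 1] with Y hY hY1
    obtain ⟨F, hF, hc⟩ := hY
    refine ⟨F, fun x hx => ?_, le_trans ?_ hc⟩
    · obtain ⟨a1, a2, a3, a4⟩ := hF x hx
      exact ⟨a1, a2, a3, _, a4⟩
    · refine Real.rpow_le_rpow_of_exponent_le hY1 ?_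
      have e1 : 1 + (k + 1) * (θ - ε) - ε = 1 + (α - η) - (k + 2) * ε := by
        rw [← hθ]; ring
      have e2 : ((d + s : ℕ) : ℝ) * (1 / M - 1 + δ) = α + ((d + s : ℕ) : ℝ) * δ := by
        rw [hα]; ring
      rw [e1, e2]
      linarith

end Pool.Agent.V5helper53.TM
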