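import Pool.Agent.V5helper53.TM.Main1

set_option autoImplicit false

namespace Pool.Agent.V5helper53.TM

open Finset Filter Topology

/-- Taylor expansion of `(x + a) ^ N` at infinity -/
theorem taylor (a : ℝ) (N J : ℕ) : ∃ C : ℝ, 0 ≤ C ∧ ∀ x : ℝ, 1 ≤ x →
    |(x + a) ^ N - ∑ j ∈ range J, (N.choose j : ℝ) * a ^ j * x ^ (N - j)| ≤ C * x ^ (N - J) := by
  refine ⟨∑ j ∈ range (N + 1), (N.choose j : ℝ) * |a| ^ j + ∑ j ∈ range J, (N.choose j : ℝ) * |a| ^ j,
    by positivity, fun x hx => ?_⟩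
  have hx0 : 0 < x := by linarith
  rcases le_or_gt J (N + 1) with hJ | hJ
  · have h1 : (x + a) ^ N = ∑ j ∈ range (N + 1), (N.choose j : ℝ) * a ^ j * x ^ (N - j) := by
      rw [add_comm, add_pow]
      refine sum_congr rfl fun j _ => by ring
    rw [h1, ← sum_range_add_sum_Ico _ hJ, add_sub_cancel_left]
    calc |∑ j ∈ Ico J (N + 1), (N.choose j : ℝ) * a ^ j * x ^ (N - j)|
        ≤ ∑ j ∈ Ico J (N + 1), |(N.choose j : ℝ) * a ^ j * x ^ (N - j)| := abs_sum_le_sum_abs _ _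
      _ ≤ ∑ j ∈ Ico J (N + 1), (N.choose j : ℝ) * |a| ^ j * x ^ (N - J) := by
          refine sum_le_sum fun j hj => ?_
          rw [abs_mul, abs_mul, abs_pow, abs_of_nonneg (show (0 : ℝ) ≤ N.choose j by positivity),
            abs_of_pos (show 0 < x ^ (N - j) by positivity)]
          have : x ^ (N - j) ≤ x ^ (N - J) :=
            pow_le_pow_right₀ hx (Nat.sub_le_sub_left (mem_Ico.1 hj).1 N)
          gcongr
      _ = (∑ j ∈ Ico J (N + 1), (N.choose j : ℝ) * |a| ^ j) * x ^ (N - J) := by rw [sum_mul]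
      _ ≤ _ := by
          have h2 : ∑ j ∈ Ico J (N + 1), (N.choose j : ℝ) * |a| ^ j ≤
              ∑ j ∈ range (N + 1), (N.choose j : ℝ) * |a| ^ j := by
            rw [range_eq_Ico]
            exact sum_le_sum_of_subset_of_nonneg (Ico_subset_Ico_left (Nat.zero_le _))
              fun _ _ _ => by positivity
          have h3 : 0 ≤ ∑ j ∈ range J, (N.choose j : ℝ) * |a| ^ j := by positivity
          gcongr
          linarith
  · have h0 : N - J = 0 := by omega
    have h1 : (x + a) ^ N = ∑ j ∈ range J, (N.choose j : ℝ) * a ^ j * x ^ (N - j) := by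
      have h2 : ∑ j ∈ range (N + 1), (N.choose j : ℝ) * a ^ j * x ^ (N - j) =
          ∑ j ∈ range J, (N.choose j : ℝ) * a ^ j * x ^ (N - j) := by
        refine sum_subset (range_subset_range.2 hJ.le) fun j _ hj => ?_
        rw [mem_range, not_lt] at hj
        rw [Nat.choose_eq_zero_of_lt (by omega)]
        simp
      rw [← h2, add_comm, add_pow]
      refine sum_congr rfl fun j _ => by ring
    rw [h1, sub_self, abs_zero]
    positivity

theorem cop_two {t : ℤ} : IsCoprime (2 * t + 1) (2 * t - 1) :=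
  ⟨t, -(t + 1), by ring⟩

theorem subsets3' : ∀ S : Finset (Fin 3), S ≠ ∅ → S ≠ univ →
    S = {0} ∨ S = {1} ∨ S = {2} ∨ S = {0, 1} ∨ S = {0, 2} ∨ S = {1, 2} := by
  decide

theorem pow_sub_pow_ge {a b : ℝ} (hb : 0 ≤ b) (hab : b ≤ a) (n : ℕ) :
    (a - b) * a ^ n ≤ a ^ (n + 1) - b ^ (n + 1) := by
  have h1 : b ^ (n + 1) ≤ b * a ^ n := by
    rw [pow_succ, mul_comm]
    exact mul_le_mul_of_nonneg_left (pow_le_pow_left₀ hb hab n) hb
  have h2 : a ^ (n + 1) = a * a ^ n := by rw [pow_succ, mul_comm]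
  rw [h2]
  linarith

/-- the three polynomials -/
def f3 (D : ℕ) (v : ℕ) : Fin 3 → ℤ :=
  ![(2 * D * v + 1) ^ D, -(2 * D * v - 1) ^ D, -(2 * D * (2 * D * v) ^ (D - 1))]

theorem f3_sum (D v : ℕ) : ∑ i, f3 D v i =
    (2 * D * v + 1) ^ D - (2 * D * v - 1) ^ D - 2 * D * (2 * D * v) ^ (D - 1) := by
  rw [Fin.sum_univ_three]
  simp only [f3, Matrix.cons_val_zero, Matrix.cons_val_one, Matrix.cons_val]
  ring

/-- the block for odd `n` -/
theorem blk3 (d : ℕ) (hd : Even d) : ∃ (C : ℝ) (v0 : ℕ) (i0 : Fin 3) (f : ℕ → Fin 3 → ℤ)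
    (ρ : ℕ → ℕ), Blk 3 d C v0 i0 f ρ := by
  set D : ℕ := d + 3 with hD
  have hDodd : Odd D := by
    obtain ⟨t, ht⟩ := hd
    exact ⟨t + 1, by omega⟩
  have hD3 : 3 ≤ D := by omega
  have hDr : (3 : ℝ) ≤ D := by exact_mod_cast hD3
  obtain ⟨C0, hC0, hT1⟩ := taylor 1 D 3
  obtain ⟨C1, hC1, hT2⟩ := taylor (-1) D 3
  set C : ℝ := (C0 + C1) * (2 * D) ^ d + (4 * D) ^ D + 8 * D ^ 3 * 2 + 1 with hC
  have hCp1 : 0 ≤ (C0 + C1) * (2 * D) ^ d := by positivity
  have hCp2 : 0 ≤ (4 * (D : ℝ)) ^ D := by positivity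
  have hCp3 : 0 ≤ 8 * (D : ℝ) ^ 3 * 2 := by positivity
  -- real values
  have hr0 : ∀ v, ((f3 D v 0 : ℤ) : ℝ) = (2 * D * v + 1) ^ D := by
    intro v; simp [f3]
  have hr1 : ∀ v, ((f3 D v 1 : ℤ) : ℝ) = -(2 * D * v - 1) ^ D := by
    intro v; simp [f3]
  have hr2 : ∀ v, ((f3 D v 2 : ℤ) : ℝ) = -(2 * D * (2 * D * v) ^ (D - 1)) := by
    intro v; simp [f3]
  have hpowD : ∀ x : ℝ, x ^ D = x * x ^ (D - 1) := by
    intro x
    rw [← pow_succ']
    rfl
  refine ⟨C, 2, 0, f3 D, fun v => (2 * D * v + 1) * (2 * D * v - 1) * (2 * D * v), ?_⟩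
  have hXv : ∀ v : ℕ, 2 ≤ v → (2 * (v : ℝ)) ≤ 2 * D * v - 1 := by
    intro v hv
    have hv' : (2 : ℝ) ≤ v := by exact_mod_cast hv
    nlinarith
  refine ⟨by linarith, by norm_num, ?_, ?_, ?_, ?_, ?_, ?_, ?_, ?_, ?_, ?_, ?_⟩
  · intro v hv i j hij
    have c1 : IsCoprime (2 * (D : ℤ) * v + 1) (2 * D * v - 1) := by
      have := cop_two (t := (D : ℤ) * v)
      have e1 : 2 * ((D : ℤ) * v) = 2 * D * v := by ring
      rwa [e1] at this
    have c2 : IsCoprime (2 * (D : ℤ) * v + 1) (2 * D) := ⟨1, -v, by ring⟩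
    have c3 : IsCoprime (2 * (D : ℤ) * v + 1) (2 * D * v) := ⟨1, -1, by ring⟩
    have c4 : IsCoprime (2 * (D : ℤ) * v - 1) (2 * D) := ⟨-1, v, by ring⟩
    have c5 : IsCoprime (2 * (D : ℤ) * v - 1) (2 * D * v) := ⟨-1, 1, by ring⟩
    have d1 : IsCoprime (f3 D v 0) (f3 D v 1) := by
      simp only [f3, Matrix.cons_val_zero, Matrix.cons_val_one]
      exact (c1.pow).neg_right
    have d2 : IsCoprime (f3 D v 0) (f3 D v 2) := by
      simp only [f3, Matrix.cons_val_zero, Matrix.cons_val]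
      exact ((c2.pow_left).mul_right (c3.pow)).neg_right
    have d3 : IsCoprime (f3 D v 1) (f3 D v 2) := by
      simp only [f3, Matrix.cons_val_one, Matrix.cons_val]
      exact (((c4.pow_left).mul_right (c5.pow)).neg_right).neg_left
    fin_cases i <;> fin_cases j
    · exact absurd rfl hij
    · exact d1
    · exact d2
    · exact d1.symm
    · exact absurd rfl hij
    · exact d3
    · exact d2.symm
    · exact d3.symm
    · exact absurd rfl hij
  · intro v _
    rw [f3_sum]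
    have o1 : Odd ((2 * (D : ℤ) * v + 1) ^ D) := Odd.pow ⟨D * v, by ring⟩
    have o2 : Odd ((2 * (D : ℤ) * v - 1) ^ D) := Odd.pow ⟨D * v - 1, by ring⟩
    have o3 : Even (2 * (D : ℤ) * (2 * D * v) ^ (D - 1)) := by
      rw [mul_assoc]; exact even_two_mul _
    exact (o1.sub_odd o2).sub o3
  · intro v hv h0
    rw [f3_sum] at h0
    have hX : (2 * (D : ℤ) * v) ∣ 2 := by
      have h1 : (2 * (D : ℤ) * v) ∣ (2 * D * v + 1) ^ D - 1 ^ D := by
        have := sub_dvd_pow_sub_pow (2 * (D : ℤ) * v + 1) 1 D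
        rwa [add_sub_cancel_right] at this
      have h2 : (2 * (D : ℤ) * v) ∣ (2 * D * v - 1) ^ D + 1 := by
        have := sub_dvd_pow_sub_pow (2 * (D : ℤ) * v - 1) (-1) D
        rw [hDodd.neg_pow, one_pow] at this
        have e1 : 2 * (D : ℤ) * v - 1 - -1 = 2 * D * v := by ring
        have e2 : (2 * (D : ℤ) * v - 1) ^ D - -1 = (2 * D * v - 1) ^ D + 1 := by ring
        rwa [e1, e2] at this
      have h3 : (2 * (D : ℤ) * v) ∣ 2 * D * (2 * D * v) ^ (D - 1) :=
        Dvd.dvd.mul_left (dvd_pow_self _ (by omega)) _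
      have h4 := dvd_sub (dvd_sub h1 h2) h3
      have e3 : (2 * (D : ℤ) * v + 1) ^ D - 1 ^ D - ((2 * D * v - 1) ^ D + 1) -
        2 * D * (2 * D * v) ^ (D - 1) = -2 := by
        rw [one_pow]; linarith
      rw [e3] at h4
      exact (dvd_neg).1 h4
    have h5 := Int.le_of_dvd (by norm_num) hX
    have hv' : (2 : ℤ) ≤ v := by exact_mod_cast hv
    have hD' : (3 : ℤ) ≤ D := by exact_mod_cast hD3
    nlinarith
  · intro v hv i
    have hv' : (2 : ℝ) ≤ v := by exact_mod_cast hv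
    have h1 : (2 * (D : ℝ) * v + 1) ≤ 4 * D * v := by nlinarith
    have h2 := hXv v hv
    have h3 : (4 * (D : ℝ)) ^ D * v ^ D ≤ C * v ^ (d + 3) := by
      have : (4 * (D : ℝ)) ^ D ≤ C := by linarith
      gcongr
    refine le_trans ?_ h3
    rw [← mul_pow]
    fin_cases i
    · show |((f3 D v 0 : ℤ) : ℝ)| ≤ _
      rw [hr0, abs_of_nonneg (by positivity)]
      gcongr
    · show |((f3 D v 1 : ℤ) : ℝ)| ≤ _
      rw [hr1, abs_neg, abs_of_nonneg (pow_nonneg (by linarith) _)]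
      exact pow_le_pow_left₀ (by linarith) (by linarith) _
    · show |((f3 D v 2 : ℤ) : ℝ)| ≤ _
      rw [hr2, abs_neg, abs_of_nonneg (by positivity), hpowD (4 * D * v)]
      have h4 : (2 * (D : ℝ)) ≤ 4 * D * v := by nlinarith
      have h5 : (2 * (D : ℝ) * v) ≤ 4 * D * v := by nlinarith
      gcongr
  · intro v hv
    have hv' : (2 : ℝ) ≤ v := by exact_mod_cast hv
    rw [f3_sum]
    push_cast
    set x : ℝ := 2 * D * v with hx
    have hx1 : 1 ≤ x := by nlinarith
    have t1 := hT1 x hx1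
    have t2 := hT2 x hx1
    simp only [sum_range_succ, sum_range_zero, Nat.choose_zero_right, Nat.choose_one_right,
      pow_zero, pow_one, Nat.cast_one, one_mul, zero_add, Nat.sub_zero, mul_one, one_pow,
      even_two, Even.neg_pow] at t1 t2
    have e : (x + 1) ^ D - (x - 1) ^ D - 2 * D * x ^ (D - 1) =
        ((x + 1) ^ D - (x ^ D + D * x ^ (D - 1) + (D.choose 2 : ℝ) * x ^ (D - 2))) -
        ((x + -1) ^ D - (x ^ D + D * -1 * x ^ (D - 1) + (D.choose 2 : ℝ) * x ^ (D - 2))) := by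
      rw [← sub_eq_add_neg]; ring
    have hd3 : D - 3 = d := by omega
    rw [hd3] at t1 t2
    rw [e]
    calc _ ≤ C0 * x ^ d + C1 * x ^ d := (abs_sub _ _).trans (add_le_add t1 t2)
      _ = (C0 + C1) * (2 * D) ^ d * v ^ d := by rw [hx, mul_pow]; ring
      _ ≤ C * v ^ d := by
          have : (C0 + C1) * (2 * (D : ℝ)) ^ d ≤ C := by linarith
          gcongr
  · intro v hv
    have hv' : (2 : ℝ) ≤ v := by exact_mod_cast hv
    rw [hr0, abs_of_nonneg (by positivity)]
    have : (v : ℝ) ≤ 2 * D * v + 1 := by nlinarith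
    exact pow_le_pow_left₀ (by positivity) this _
  · intro v hv A hA1 hA2
    have hv' : (2 : ℝ) ≤ v := by exact_mod_cast hv
    have h2 := hXv v hv
    have hC1' : 1 ≤ C := by linarith
    have hd2 : d + 3 - 1 = D - 1 := by omega
    rw [hd2]
    have hv0 : (0 : ℝ) ≤ (v : ℝ) ^ (D - 1) := by positivity
    suffices h : (v : ℝ) ^ (D - 1) ≤ |((∑ i ∈ A, f3 D v i : ℤ) : ℝ)| by
      have h3 := abs_nonneg ((∑ i ∈ A, f3 D v i : ℤ) : ℝ)
      nlinarith
    have k0 : (v : ℝ) ^ (D - 1) ≤ (2 * D * v + 1) ^ D := by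
      calc (v : ℝ) ^ (D - 1) ≤ (2 * D * v + 1) ^ (D - 1) :=
            pow_le_pow_left₀ (by positivity) (by nlinarith) _
        _ ≤ (2 * D * v + 1) ^ D := pow_le_pow_right₀ (by nlinarith) (by omega)
    have k1 : (v : ℝ) ^ (D - 1) ≤ (2 * D * v - 1) ^ D := by
      calc (v : ℝ) ^ (D - 1) ≤ (2 * D * v - 1) ^ (D - 1) :=
            pow_le_pow_left₀ (by positivity) (by linarith) _
        _ ≤ (2 * D * v - 1) ^ D := pow_le_pow_right₀ (by linarith) (by omega)
    have k2 : (v : ℝ) ^ (D - 1) ≤ 2 * D * (2 * D * v) ^ (D - 1) := by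
      have h3 : (v : ℝ) ^ (D - 1) ≤ (2 * D * v) ^ (D - 1) :=
        pow_le_pow_left₀ (by positivity) (by nlinarith) _
      nlinarith
    rcases subsets3' A (nonempty_iff_ne_empty.1 hA1) hA2 with h | h | h | h | h | h <;> rw [h]
    · rw [sum_singleton, hr0]
      exact k0.trans (le_abs_self _)
    · rw [sum_singleton, hr1, abs_neg]
      exact k1.trans (le_abs_self _)
    · rw [sum_singleton, hr2, abs_neg]
      exact k2.trans (le_abs_self _)
    · rw [sum_pair (by decide), Int.cast_add, hr0, hr1]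
      refine le_trans ?_ (le_abs_self _)
      have h3 := pow_sub_pow_ge (a := 2 * (D : ℝ) * v + 1) (b := 2 * D * v - 1) (by linarith)
        (by linarith) (D - 1)
      have e1 : D - 1 + 1 = D := by omega
      rw [e1] at h3
      have h4 : (v : ℝ) ^ (D - 1) ≤ (2 * D * v + 1) ^ (D - 1) :=
        pow_le_pow_left₀ (by positivity) (by nlinarith) _
      linarith
    · rw [sum_pair (by decide), Int.cast_add, hr0, hr2]
      refine le_trans ?_ (le_abs_self _)
      have h3 : (2 * (D : ℝ) * v) ^ D ≤ (2 * D * v + 1) ^ D :=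
        pow_le_pow_left₀ (by positivity) (by linarith) _
      rw [hpowD (2 * (D : ℝ) * v)] at h3
      have h4 : (v : ℝ) ^ (D - 1) ≤ (2 * D * v) ^ (D - 1) :=
        pow_le_pow_left₀ (by positivity) (by nlinarith) _
      have h5 : 0 ≤ (2 * (D : ℝ) * v) ^ (D - 1) := by positivity
      have h6 : 1 ≤ 2 * (D : ℝ) * v - 2 * D := by nlinarith
      have h7 := mul_le_mul_of_nonneg_right h6 h5
      linarith
    · rw [sum_pair (by decide), Int.cast_add, hr1, hr2, ← neg_add, abs_neg]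
      refine le_trans ?_ (le_abs_self _)
      linarith
  · intro v hv
    have h1 : 1 ≤ D * v := Nat.mul_pos (by omega) (by omega)
    have h2 : 2 ≤ 2 * D * v := by nlinarith
    have h3 : 0 < 2 * D * v - 1 := by omega
    have h4 : 0 < 2 * D * v := by omega
    positivity
  · intro v hv
    have hv' : (2 : ℝ) ≤ v := by exact_mod_cast hv
    have h1 : ((2 * D * v - 1 : ℕ) : ℝ) ≤ 2 * D * v := by
      have : 2 * D * v - 1 ≤ 2 * D * v := Nat.sub_le _ _
      exact_mod_cast this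
    push_cast
    have h2 : (2 * (D : ℝ) * v + 1) ≤ 2 * (2 * D * v) := by nlinarith
    calc (2 * (D : ℝ) * v + 1) * ((2 * D * v - 1 : ℕ) : ℝ) * (2 * D * v)
        ≤ (2 * (2 * D * v)) * (2 * D * v) * (2 * D * v) := by gcongr
      _ = (8 * D ^ 3 * 2) * v ^ 3 := by ring
      _ ≤ C * v ^ 3 := by
          have : 8 * (D : ℝ) ^ 3 * 2 ≤ C := by linarith
          gcongr
  · intro v hv p hp i hpi
    have hpI : Prime (p : ℤ) := Nat.prime_iff_prime_int.mp hp
    have h1 : 1 ≤ D * v := Nat.mul_pos (by omega) (by omega)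
    have h2 : 1 ≤ 2 * D * v := by nlinarith
    fin_cases i
    · have h3 : (p : ℤ) ∣ (2 * D * v + 1) ^ D := hpi
      have h4 : p ∣ 2 * D * v + 1 := by exact_mod_cast hpI.dvd_of_dvd_pow h3
      exact (h4.mul_right _).mul_right _
    · have h3 : (p : ℤ) ∣ -(2 * D * v - 1) ^ D := hpi
      have h4 := hpI.dvd_of_dvd_pow ((dvd_neg).1 h3)
      have e1 : (2 * (D : ℤ) * v - 1) = ((2 * D * v - 1 : ℕ) : ℤ) := by
        rw [Nat.cast_sub h2]; push_cast; ring
      rw [e1] at h4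
      have h5 : p ∣ 2 * D * v - 1 := by exact_mod_cast h4
      exact (h5.mul_left _).mul_right _
    · have h3 : (p : ℤ) ∣ -(2 * D * (2 * D * v) ^ (D - 1)) := hpi
      rw [dvd_neg] at h3
      have h6 : p ∣ 2 * D * v := by
        rcases hpI.dvd_or_dvd h3 with h4 | h4
        · have h5 : p ∣ 2 * D := by exact_mod_cast h4
          exact h5.mul_right _
        · have h5 := hpI.dvd_of_dvd_pow h4
          exact_mod_cast h5
      exact h6.mul_left _
  · intro v w _ _ hvw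
    have e1 : ∀ v : ℕ, |f3 D v 0| = (2 * D * v + 1) ^ D := by
      intro v
      have : f3 D v 0 = (2 * D * v + 1) ^ D := rfl
      rw [this, abs_of_nonneg (by positivity)]
    rw [e1, e1] at hvw
    have h1 : (2 * (D : ℤ) * v + 1) = 2 * D * w + 1 :=
      (pow_left_inj₀ (by positivity) (by positivity) (by omega)).1 hvw
    have h2 : (2 * (D : ℤ)) * v = (2 * D) * w := by linarith
    have h3 : (2 * (D : ℤ)) ≠ 0 := by positivity
    have := mul_left_cancel₀ h3 h2
    exact_mod_cast this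

end Pool.Agent.V5helper53.TM
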