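import Pool.Agent.V5helper53.TM.OddBlk

set_option autoImplicit false

/-!
# Four coprime polynomial values of degree `D` with a sum of degree `D - 4`: parameters
-/

namespace Pool.Agent.V5helper53.TM

open Finset Filter Topology

/-- the parameters -/
structure Par (d D P G κ u E : ℕ) : Prop where
  hD : D = d + 4
  hDo : Odd D
  hκ : κ = 9 * D
  hu : u = 3 * D * P
  hG : 4 * G = 3 * u ^ 2 + 1
  hw : 3 * κ ^ (d + 1) = D * P ^ 3
  hP3 : 3 ∣ P
  hPD : D ∣ P
  hPp : ∀ p : ℕ, p.Prime → p ∣ P → p ∣ 3 * D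
  hPo : Odd P
  hGo : Odd G
  hEo : Odd E
  hE1 : (E : ℤ) ∣ ((u : ℤ) ^ 2 - 1) * (9 * u ^ 2 - 1)
  hE2 : ∀ p : ℕ, p.Prime → p ≠ 2 → (p : ℤ) ∣ ((u : ℤ) ^ 2 - 1) * (9 * u ^ 2 - 1) → p ∣ E

theorem exists_par (e : ℕ) (he : 1 ≤ e) : ∃ D P G κ u E : ℕ, Par (6 * e - 3) D P G κ u E := by
  obtain ⟨e, rfl⟩ : ∃ e', e = e' + 1 := ⟨e - 1, by omega⟩
  set D : ℕ := 6 * (e + 1) + 1 with hD
  set κ : ℕ := 9 * D with hκ
  set P : ℕ := 3 * κ ^ (2 * e + 1) with hP
  set u : ℕ := 3 * D * P with hu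
  have hDo : Odd D := ⟨3 * (e + 1), by omega⟩
  have hκo : Odd κ := by rw [hκ]; exact Odd.mul (by decide) hDo
  have hPo : Odd P := by rw [hP]; exact Odd.mul (by decide) hκo.pow
  have huo : Odd u := by rw [hu]; exact Odd.mul (Odd.mul (by decide) hDo) hPo
  have hu2 : 2 ≤ u := by
    rw [hu, hP]
    have : 1 ≤ κ ^ (2 * e + 1) := Nat.one_le_pow _ _ (by omega)
    nlinarith
  obtain ⟨G, hG, hGo⟩ : ∃ G, 4 * G = 3 * u ^ 2 + 1 ∧ Odd G := by
    have h8 : u ^ 2 % 8 = 1 := by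
      have h1 : u % 8 = 1 ∨ u % 8 = 3 ∨ u % 8 = 5 ∨ u % 8 = 7 := by
        obtain ⟨t, ht⟩ := huo
        omega
      rcases h1 with h | h | h | h <;> rw [Nat.pow_mod, h]
    refine ⟨(3 * u ^ 2 + 1) / 4, by omega, ?_⟩
    rw [Nat.odd_iff]
    omega
  obtain ⟨k, E, hEo, hE⟩ := Nat.exists_eq_two_pow_mul_odd (n := (u ^ 2 - 1) * (9 * u ^ 2 - 1)) (by
    have h1 : 4 ≤ u ^ 2 := by nlinarith
    have h2 : 0 < u ^ 2 - 1 := by omega
    have h3 : 0 < 9 * u ^ 2 - 1 := by omega
    positivity)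
  have hEZ : ((u : ℤ) ^ 2 - 1) * (9 * u ^ 2 - 1) = 2 ^ k * E := by
    have h1 : 1 ≤ u ^ 2 := Nat.one_le_pow _ _ (by omega)
    have h2 : 1 ≤ 9 * u ^ 2 := by omega
    have h3 : (((u ^ 2 - 1) * (9 * u ^ 2 - 1) : ℕ) : ℤ) = ((u : ℤ) ^ 2 - 1) * (9 * u ^ 2 - 1) := by
      rw [Nat.cast_mul, Nat.cast_sub h1, Nat.cast_sub h2]; push_cast; ring
    rw [← h3, hE]; push_cast; ring
  refine ⟨D, P, G, κ, u, E, ⟨by omega, hDo, rfl, rfl, hG, ?_, ?_, ?_, ?_, hPo, hGo, hEo, ?_, ?_⟩⟩
  · have h1 : 6 * (e + 1) - 3 + 1 = 6 * e + 4 := by omega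
    rw [h1, hP]
    have h2 : D * (3 * κ ^ (2 * e + 1)) ^ 3 = 3 * (9 * D) * (κ ^ (2 * e + 1)) ^ 3 := by ring
    rw [h2, ← hκ, ← pow_mul]
    have h3 : 3 * κ * κ ^ ((2 * e + 1) * 3) = 3 * κ ^ ((2 * e + 1) * 3 + 1) := by
      rw [pow_succ]; ring
    rw [h3]
    congr 2
    ring
  · exact ⟨κ ^ (2 * e + 1), hP⟩
  · rw [hP]
    have h1 : D ∣ κ := ⟨9, by rw [hκ]; ring⟩
    exact (h1.trans (dvd_pow_self κ (by omega))).mul_left _
  · intro p hp hpP
    rw [hP] at hpP
    rcases hp.dvd_mul.1 hpP with h | h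
    · exact h.mul_right _
    · have h2 := hp.dvd_of_dvd_pow h
      rw [hκ] at h2
      rcases hp.dvd_mul.1 h2 with h3 | h3
      · have h4 : p ∣ 3 := hp.dvd_of_dvd_pow (n := 2) (by simpa using h3)
        exact h4.mul_right _
      · exact h3.mul_left _
  · rw [hEZ]; exact Dvd.intro_left _ rfl
  · intro p hp hp2 hd
    rw [hEZ] at hd
    have h1 : p ∣ 2 ^ k * E := by exact_mod_cast hd
    rcases hp.dvd_mul.1 h1 with h2 | h2
    · have h3 := (Nat.prime_dvd_prime_iff_eq hp Nat.prime_two).1 (hp.dvd_of_dvd_pow h2)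
      exact absurd h3 hp2
    · exact h2

section

variable {d D P G κ u E : ℕ} (h : Par d D P G κ u E)

include h

theorem Par.p_not_dvd_u {p : ℕ} (hp : p.Prime) (hE : p ∣ E) : ¬ p ∣ u := by
  intro hpu
  have h1 : (p : ℤ) ∣ ((u : ℤ) ^ 2 - 1) * (9 * u ^ 2 - 1) :=
    dvd_trans (by exact_mod_cast hE) h.hE1
  have h2 : (p : ℤ) ∣ u := by exact_mod_cast hpu
  have e1 : (1 : ℤ) = ((u : ℤ) ^ 2 - 1) * (9 * u ^ 2 - 1) + u * (u * (10 - 9 * u ^ 2)) := by ring
  have h3 : (p : ℤ) ∣ 1 := by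
    rw [e1]
    exact dvd_add h1 (h2.mul_right _)
  exact (Nat.prime_iff_prime_int.mp hp).not_dvd_one h3

/-- `E` is coprime to `6 D G` -/
theorem Par.E_cop {p : ℕ} (hp : p.Prime) (hE : p ∣ E) : ¬ p ∣ 6 * D * G := by
  intro hd
  have hpI : Prime (p : ℤ) := Nat.prime_iff_prime_int.mp hp
  have hp2 : p ≠ 2 := by
    rintro rfl
    exact (Nat.not_even_iff_odd.2 h.hEo) (even_iff_two_dvd.2 hE)
  have hu := h.p_not_dvd_u hp hE
  rcases hp.dvd_mul.1 hd with h1 | h1
  · rcases hp.dvd_mul.1 h1 with h2 | h2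
    · have h3 : p ∣ 2 * 3 := by simpa using h2
      rcases hp.dvd_mul.1 h3 with h4 | h4
      · exact hp2 ((Nat.prime_dvd_prime_iff_eq hp Nat.prime_two).1 h4)
      · apply hu
        rw [h.hu]
        exact (h4.mul_right _).mul_right _
    · apply hu
      rw [h.hu]
      exact (h2.mul_left _).mul_right _
  · have h2 : (p : ℤ) ∣ ((u : ℤ) ^ 2 - 1) * (9 * u ^ 2 - 1) :=
      dvd_trans (by exact_mod_cast hE) h.hE1
    have h3 : (p : ℤ) ∣ G := by exact_mod_cast h1
    have hG : (4 * G : ℤ) = 3 * u ^ 2 + 1 := by exact_mod_cast h.hG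
    have h4 : (p : ℤ) ∣ 4 := by
      rcases hpI.dvd_or_dvd h2 with h5 | h5
      · have e1 : (4 : ℤ) = 4 * G - 3 * ((u : ℤ) ^ 2 - 1) := by rw [hG]; ring
        rw [e1]
        exact dvd_sub (h3.mul_left _) (h5.mul_left _)
      · have e1 : (4 : ℤ) = 12 * G - (9 * (u : ℤ) ^ 2 - 1) := by linarith
        rw [e1]
        exact dvd_sub (h3.mul_left _) h5
    have h5 : p ∣ 4 := by exact_mod_cast h4
    have h6 : p ∣ 2 := hp.dvd_of_dvd_pow (n := 2) (by simpa using h5)
    exact hp2 ((Nat.prime_dvd_prime_iff_eq hp Nat.prime_two).1 h6)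

/-- the variable `m = E (1 + 6 D G v)` is coprime to `6 D G` -/
theorem Par.m_cop (v : ℕ) {p : ℕ} (hp : p.Prime) (hm : p ∣ E * (1 + 6 * D * G * v)) :
    ¬ p ∣ 6 * D * G := by
  intro hd
  rcases hp.dvd_mul.1 hm with h1 | h1
  · exact h.E_cop hp h1 hd
  · have h2 : p ∣ 1 := (Nat.dvd_add_left (hd.mul_right v)).1 h1
    exact hp.one_lt.ne' (Nat.dvd_one.1 h2)

theorem Par.two_cop {m : ℤ} (v : ℕ) (hm : m = E * (1 + 6 * D * G * v)) : Odd m := by
  rw [hm]
  refine Odd.mul (by exact_mod_cast h.hEo) ⟨3 * D * G * v, by ring⟩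

/-- coprimality of the linear factors -/
theorem Par.cop {m : ℤ} (v : ℕ) (hm : m = E * (1 + 6 * D * G * v)) :
    IsCoprime (m + 2 * G * P) (m - 2 * G * P) ∧
    IsCoprime (m + 2 * G * P) (κ * m + 2 * G) ∧
    IsCoprime (m - 2 * G * P) (κ * m + 2 * G) ∧
    IsCoprime (m + 2 * G * P) (D * P * (m - 2 * G * u * P)) ∧
    IsCoprime (m - 2 * G * P) (D * P * (m - 2 * G * u * P)) ∧
    IsCoprime (κ * m + 2 * G) (D * P * (m - 2 * G * u * P)) := by
  have hmn : m = ((E * (1 + 6 * D * G * v) : ℕ) : ℤ) := by rw [hm]; push_cast; ring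
  -- basic facts about a prime `p`
  have A : ∀ p : ℕ, p.Prime → (p : ℤ) ∣ m → ¬ (p : ℤ) ∣ G * P ∧ ¬ (p : ℤ) ∣ 2 := by
    intro p hp hpm
    rw [hmn] at hpm
    have h1 := h.m_cop v hp (by exact_mod_cast hpm)
    constructor
    · intro h2
      have h3 : p ∣ G * P := by exact_mod_cast h2
      rcases hp.dvd_mul.1 h3 with h4 | h4
      · exact h1 (h4.mul_left _)
      · have h5 := h.hPp p hp h4
        apply h1
        have h6 : 6 * D * G = 3 * D * (2 * G) := by ring
        rw [h6]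
        exact h5.mul_right _
    · intro h2
      have h3 : p ∣ 2 := by exact_mod_cast h2
      apply h1
      have h6 : 6 * D * G = 2 * (3 * D * G) := by ring
      rw [h6]
      exact h3.mul_right _
  have mo := h.two_cop v hm
  have B : ∀ p : ℕ, p.Prime → ¬ (p : ℤ) ∣ 2 → (p : ℤ) ∣ ((u : ℤ) ^ 2 - 1) * (9 * u ^ 2 - 1) →
      (p : ℤ) ∣ m := by
    intro p hp hp2 hd
    have h1 := h.hE2 p hp (by rintro rfl; exact hp2 (dvd_refl _)) hd
    rw [hm]
    have h2 : (p : ℤ) ∣ E := by exact_mod_cast h1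
    exact h2.mul_right _
  have key : ∀ a b : ℤ, (∀ p : ℕ, p.Prime → (p : ℤ) ∣ a → (p : ℤ) ∣ b → False) →
      IsCoprime a b := by
    intro a b hab
    rw [Int.isCoprime_iff_gcd_eq_one]
    by_contra hg
    obtain ⟨p, hp, hpg⟩ := Nat.exists_prime_and_dvd hg
    exact hab p hp (Int.natCast_dvd.mpr (hpg.trans (Nat.gcd_dvd_left _ _)))
      (Int.natCast_dvd.mpr (hpg.trans (Nat.gcd_dvd_right _ _)))
  have hκ : (κ : ℤ) = 9 * D := by exact_mod_cast h.hκ
  have hu : (u : ℤ) = 3 * D * P := by exact_mod_cast h.hu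
  have hG : (4 * G : ℤ) = 3 * u ^ 2 + 1 := by exact_mod_cast h.hG
  have odd_not : ∀ (p : ℕ) (a : ℤ), Odd a → (p : ℤ) ∣ a → ¬ (p : ℤ) ∣ 2 ∨ p = 1 := by
    intro p a ha hpa
    by_cases h2 : (p : ℤ) ∣ 2
    · right
      obtain ⟨t, ht⟩ := ha
      have h3 : (p : ℤ) ∣ 1 := by
        have e : (1 : ℤ) = a - 2 * t := by rw [ht]; ring
        rw [e]
        exact dvd_sub hpa (h2.mul_right _)
      have h4 : p ∣ 1 := by exact_mod_cast h3
      exact Nat.dvd_one.1 h4
    · left; exact h2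
  have o1 : Odd (m + 2 * G * P) := by
    have : Even (2 * (G : ℤ) * P) := by rw [mul_assoc]; exact even_two_mul _
    exact mo.add_even this
  have o2 : Odd (m - 2 * G * P) := by
    have : Even (2 * (G : ℤ) * P) := by rw [mul_assoc]; exact even_two_mul _
    exact mo.sub_even this
  have hκo : Odd (κ : ℤ) := by
    rw [hκ]
    exact Odd.mul (by decide) (by exact_mod_cast h.hDo)
  have o3 : Odd ((κ : ℤ) * m + 2 * G) := (hκo.mul mo).add_even (even_two_mul _)
  -- if p divides N = 2 G P and m ± N then p divides m: contradiction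
  have N0 : ∀ p : ℕ, p.Prime → ¬ (p : ℤ) ∣ 2 → (p : ℤ) ∣ G * P → (p : ℤ) ∣ m → False := by
    intro p hp _ h1 h2
    exact (A p hp h2).1 h1
  have c1 : IsCoprime (m + 2 * G * P) (m - 2 * G * P) := by
    refine key _ _ fun p hp ha hb => ?_
    have hpI : Prime (p : ℤ) := Nat.prime_iff_prime_int.mp hp
    rcases odd_not p _ o1 ha with h2 | h2
    · have h3 : (p : ℤ) ∣ 2 * (2 * (G * P)) := by
        have := dvd_sub ha hb
        have e : m + 2 * G * P - (m - 2 * G * P) = 2 * (2 * (G * P)) := by ring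
        rwa [e] at this
      have h4 : (p : ℤ) ∣ G * P := by
        rcases hpI.dvd_or_dvd h3 with h5 | h5
        · exact absurd h5 h2
        · rcases hpI.dvd_or_dvd h5 with h6 | h6
          · exact absurd h6 h2
          · exact h6
      have h5 : (p : ℤ) ∣ m := by
        have := dvd_sub ha (h4.mul_left 2)
        have e : m + 2 * G * P - 2 * (G * P) = m := by ring
        rwa [e] at this
      exact N0 p hp h2 h4 h5
    · exact hp.one_lt.ne' h2
  have gen : ∀ (p : ℕ), p.Prime → ∀ s : ℤ, (s = 1 ∨ s = -1) → (p : ℤ) ∣ m + s * (2 * (G * P)) →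
      ¬ (p : ℤ) ∣ 2 → ∀ w : ℤ, w ∣ ((u : ℤ) ^ 2 - 1) * (9 * u ^ 2 - 1) →
      (p : ℤ) ∣ 2 * (G * P) * w ∨ (p : ℤ) ∣ 2 * G * w → False := by
    intro p hp s hs ha h2 w hw hd
    have hpI : Prime (p : ℤ) := Nat.prime_iff_prime_int.mp hp
    have hGP : (p : ℤ) ∣ G * P ∨ (p : ℤ) ∣ w := by
      rcases hd with hd | hd
      · rcases hpI.dvd_or_dvd hd with h5 | h5
        · rcases hpI.dvd_or_dvd h5 with h6 | h6
          · exact absurd h6 h2
          · exact Or.inl h6
        · exact Or.inr h5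
      · rcases hpI.dvd_or_dvd hd with h5 | h5
        · rcases hpI.dvd_or_dvd h5 with h6 | h6
          · exact absurd h6 h2
          · exact Or.inl (h6.mul_right _)
        · exact Or.inr h5
    rcases hGP with h4 | h4
    · have h5 : (p : ℤ) ∣ m := by
        have := dvd_sub ha (h4.mul_left (s * 2))
        have e : m + s * (2 * (G * P)) - s * 2 * (G * P) = m := by ring
        rwa [e] at this
      exact N0 p hp h2 h4 h5
    · have h5 : (p : ℤ) ∣ m := B p hp h2 (h4.trans hw)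
      have h6 : (p : ℤ) ∣ 2 * (G * P) := by
        have := dvd_sub ha h5
        have e : m + s * (2 * (G * P)) - m = s * (2 * (G * P)) := by ring
        rw [e] at this
        rcases hs with rfl | rfl
        · rwa [one_mul] at this
        · rw [neg_one_mul, dvd_neg] at this; exact this
      rcases hpI.dvd_or_dvd h6 with h7 | h7
      · exact h2 h7
      · exact N0 p hp h2 h7 h5
  have ep : m + 2 * G * P = m + 1 * (2 * (G * P)) := by ring
  have em : m - 2 * G * P = m + -1 * (2 * (G * P)) := by ring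
  have hDP : ∀ p : ℕ, p.Prime → (p : ℤ) ∣ D * P → (p : ℤ) ∣ P := by
    intro p hp hd
    have h1 : p ∣ D * P := by exact_mod_cast hd
    rcases hp.dvd_mul.1 h1 with h2 | h2
    · exact_mod_cast h2.trans h.hPD
    · exact_mod_cast h2
  refine ⟨c1, ?_, ?_, ?_, ?_, ?_⟩
  · refine key _ _ fun p hp ha hb => ?_
    rcases odd_not p _ o1 ha with h2 | h2
    · refine gen p hp 1 (Or.inl rfl) (by rwa [ep] at ha) h2 (3 * u - 1)
        ⟨((u : ℤ) ^ 2 - 1) * (3 * u + 1), by ring⟩ (Or.inr ?_)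
      have := dvd_sub (ha.mul_left (κ : ℤ)) hb
      have e : (κ : ℤ) * (m + 2 * G * P) - (κ * m + 2 * G) = 2 * G * (3 * u - 1) := by
        rw [hκ, hu]; ring
      rwa [e] at this
    · exact hp.one_lt.ne' h2
  · refine key _ _ fun p hp ha hb => ?_
    rcases odd_not p _ o2 ha with h2 | h2
    · refine gen p hp (-1) (Or.inr rfl) (by rwa [em] at ha) h2 (3 * u + 1)
        ⟨((u : ℤ) ^ 2 - 1) * (3 * u - 1), by ring⟩ (Or.inr ?_)
      have := dvd_sub hb (ha.mul_left (κ : ℤ))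
      have e : (κ * m + 2 * G) - (κ : ℤ) * (m - 2 * G * P) = 2 * G * (3 * u + 1) := by
        rw [hκ, hu]; ring
      rwa [e] at this
    · exact hp.one_lt.ne' h2
  · refine key _ _ fun p hp ha hb => ?_
    have hpI : Prime (p : ℤ) := Nat.prime_iff_prime_int.mp hp
    rcases odd_not p _ o1 ha with h2 | h2
    · rcases hpI.dvd_or_dvd hb with h3 | h3
      · have h4 : (p : ℤ) ∣ G * P := (hDP p hp h3).mul_left _
        have h5 : (p : ℤ) ∣ m := by
          have := dvd_sub ha (h4.mul_left 2)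
          have e : m + 2 * G * P - 2 * (G * P) = m := by ring
          rwa [e] at this
        exact N0 p hp h2 h4 h5
      · refine gen p hp 1 (Or.inl rfl) (by rwa [ep] at ha) h2 (u + 1)
          ⟨((u : ℤ) - 1) * (9 * u ^ 2 - 1), by ring⟩ (Or.inl ?_)
        have := dvd_sub ha h3
        have e : (m + 2 * G * P) - (m - 2 * G * u * P) = 2 * (G * P) * (u + 1) := by ring
        rwa [e] at this
    · exact hp.one_lt.ne' h2
  · refine key _ _ fun p hp ha hb => ?_
    have hpI : Prime (p : ℤ) := Nat.prime_iff_prime_int.mp hp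
    rcases odd_not p _ o2 ha with h2 | h2
    · rcases hpI.dvd_or_dvd hb with h3 | h3
      · have h4 : (p : ℤ) ∣ G * P := (hDP p hp h3).mul_left _
        have h5 : (p : ℤ) ∣ m := by
          have := dvd_add ha (h4.mul_left 2)
          have e : m - 2 * G * P + 2 * (G * P) = m := by ring
          rwa [e] at this
        exact N0 p hp h2 h4 h5
      · refine gen p hp (-1) (Or.inr rfl) (by rwa [em] at ha) h2 (u - 1)
          ⟨((u : ℤ) + 1) * (9 * u ^ 2 - 1), by ring⟩ (Or.inl ?_)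
        have := dvd_sub ha h3
        have e : (m - 2 * G * P) - (m - 2 * G * u * P) = 2 * (G * P) * (u - 1) := by ring
        rwa [e] at this
    · exact hp.one_lt.ne' h2
  · refine key _ _ fun p hp ha hb => ?_
    have hpI : Prime (p : ℤ) := Nat.prime_iff_prime_int.mp hp
    rcases odd_not p _ o3 ha with h2 | h2
    · rcases hpI.dvd_or_dvd hb with h3 | h3
      · have h4 : (p : ℤ) ∣ P := hDP p hp h3
        have h5 : p ∣ 3 * D := h.hPp p hp (by exact_mod_cast h4)
        have h5' : (p : ℤ) ∣ 3 * D := by exact_mod_cast h5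
        have h6 : (p : ℤ) ∣ 2 * G := by
          have := dvd_sub ha (h5'.mul_right (3 * m))
          have e : (κ : ℤ) * m + 2 * G - 3 * D * (3 * m) = 2 * G := by rw [hκ]; ring
          rwa [e] at this
        have h7 : (p : ℤ) ∣ 1 := by
          have h8 : (p : ℤ) ∣ u := by rw [hu]; exact h5'.mul_right _
          have e : (1 : ℤ) = 2 * (2 * G) - u * (3 * u) := by linarith
          rw [e]
          exact dvd_sub (h6.mul_left _) (h8.mul_right _)
        exact hpI.not_dvd_one h7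
      · have h4 : (p : ℤ) ∣ 2 * G * (4 * G) := by
          have := dvd_sub ha (h3.mul_left (κ : ℤ))
          have e : (κ : ℤ) * m + 2 * G - κ * (m - 2 * G * u * P) = 2 * G * (4 * G) := by
            rw [hG, hκ, hu]; ring
          rwa [e] at this
        have h5 : (p : ℤ) ∣ G := by
          have e : 2 * (G : ℤ) * (4 * G) = 2 * (2 * (2 * (G * G))) := by ring
          rw [e] at h4
          rcases hpI.dvd_or_dvd h4 with h6 | h6
          · exact absurd h6 h2
          rcases hpI.dvd_or_dvd h6 with h6 | h6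
          · exact absurd h6 h2
          rcases hpI.dvd_or_dvd h6 with h6 | h6
          · exact absurd h6 h2
          rcases hpI.dvd_or_dvd h6 with h6 | h6 <;> exact h6
        have h6 : (p : ℤ) ∣ m := by
          have := dvd_add h3 (h5.mul_right (2 * u * P))
          have e : m - 2 * G * u * P + G * (2 * u * P) = m := by ring
          rwa [e] at this
        exact N0 p hp h2 (h5.mul_right _) h6
    · exact hp.one_lt.ne' h2

end

end Pool.Agent.V5helper53.TM
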