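import Mathlib
import Pool.Agent.W5h7.SNL.Consts

set_option autoImplicit false

/-!
# Pairwise coprime integers of a given size with a given sum: many solutions
-/

namespace Pool.Agent.V5helper53.TM

open Finset Filter Topology
open Pool.Agent.W5h7.SNL (avoid cop_of_primes)

theorem card_cast (Z Q : ℕ) (hQ : 0 < Q) (r : ℤ) :
    ((#((Ioc (Z : ℤ) (2 * Z)).filter (fun z => z ≡ r [ZMOD Q])) : ℕ) : ℝ) =
      max ((⌊(((2 * Z : ℤ) : ℚ) - r) / ((Q : ℤ) : ℚ)⌋ : ℝ) - ⌊(((Z : ℤ) : ℚ) - r) / ((Q : ℤ) : ℚ)⌋) 0 := by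
  have h := Int.Ioc_filter_modEq_card (Z : ℤ) (2 * Z) (r := (Q : ℤ)) (by exact_mod_cast hQ) r
  have h2 : (((#((Ioc (Z : ℤ) (2 * Z)).filter (fun z => z ≡ r [ZMOD Q])) : ℕ) : ℤ) : ℝ) =
      ((max (⌊(((2 * Z : ℤ) : ℚ) - r) / ((Q : ℤ) : ℚ)⌋ - ⌊(((Z : ℤ) : ℚ) - r) / ((Q : ℤ) : ℚ)⌋) 0 : ℤ) : ℝ) := by
    rw [h]
  rw [Int.cast_natCast] at h2
  rw [h2]
  push_cast
  rfl

theorem class_ge (Z Q : ℕ) (hQ : 0 < Q) (r : ℤ) :
    (Z : ℝ) / Q - 1 ≤ #((Ioc (Z : ℤ) (2 * Z)).filter (fun z => z ≡ r [ZMOD Q])) := by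
  rw [card_cast Z Q hQ r]
  refine le_trans ?_ (le_max_left _ _)
  have h1 := Int.lt_floor_add_one ((((2 * Z : ℤ) : ℚ) - r) / ((Q : ℤ) : ℚ))
  have h2 := Int.floor_le ((((Z : ℤ) : ℚ) - r) / ((Q : ℤ) : ℚ))
  have h1' : ((((2 * Z : ℤ) : ℝ) - r) / ((Q : ℤ) : ℝ)) <
      (⌊(((2 * Z : ℤ) : ℚ) - r) / ((Q : ℤ) : ℚ)⌋ : ℝ) + 1 := by exact_mod_cast h1
  have h2' : (⌊(((Z : ℤ) : ℚ) - r) / ((Q : ℤ) : ℚ)⌋ : ℝ) ≤
      ((((Z : ℤ) : ℝ) - r) / ((Q : ℤ) : ℝ)) := by exact_mod_cast h2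
  have e : (Z : ℝ) / Q = ((((2 * Z : ℤ) : ℝ) - r) / ((Q : ℤ) : ℝ)) -
      ((((Z : ℤ) : ℝ) - r) / ((Q : ℤ) : ℝ)) := by
    push_cast; ring
  rw [e]
  linarith

theorem class_le (Z Q : ℕ) (hQ : 0 < Q) (r : ℤ) :
    (#((Ioc (Z : ℤ) (2 * Z)).filter (fun z => z ≡ r [ZMOD Q])) : ℝ) ≤ (Z : ℝ) / Q + 1 := by
  rw [card_cast Z Q hQ r]
  refine max_le ?_ (by positivity)
  have h1 := Int.floor_le ((((2 * Z : ℤ) : ℚ) - r) / ((Q : ℤ) : ℚ))
  have h2 := Int.lt_floor_add_one ((((Z : ℤ) : ℚ) - r) / ((Q : ℤ) : ℚ))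
  have h1' : (⌊(((2 * Z : ℤ) : ℚ) - r) / ((Q : ℤ) : ℚ)⌋ : ℝ) ≤
    ((((2 * Z : ℤ) : ℝ) - r) / ((Q : ℤ) : ℝ)) := by exact_mod_cast h1
  have h2' : ((((Z : ℤ) : ℝ) - r) / ((Q : ℤ) : ℝ)) <
      (⌊(((Z : ℤ) : ℚ) - r) / ((Q : ℤ) : ℚ)⌋ : ℝ) + 1 := by exact_mod_cast h2
  have e : (Z : ℝ) / Q = ((((2 * Z : ℤ) : ℝ) - r) / ((Q : ℤ) : ℝ)) -
      ((((Z : ℤ) : ℝ) - r) / ((Q : ℤ) : ℝ)) := by
    push_cast; ring
  rw [e]
  linarith

/-- the numbers of a residue class modulo `Q` that are in a further class modulo a prime `p` -/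
theorem bad_le (Z Q p : ℕ) (hQ : 0 < Q) (hp : p.Prime) (hpQ : Nat.Coprime Q p) (r s : ℤ) :
    (#(((Ioc (Z : ℤ) (2 * Z)).filter (fun z => z ≡ r [ZMOD Q])).filter (fun z => (p : ℤ) ∣ z - s)) : ℝ) ≤
      (Z : ℝ) / (Q * p) + 1 := by
  rcases Finset.eq_empty_or_nonempty (((Ioc (Z : ℤ) (2 * Z)).filter (fun z => z ≡ r [ZMOD Q])).filter
    (fun z => (p : ℤ) ∣ z - s)) with h | ⟨v, hv⟩
  · rw [h]
    have : (0 : ℝ) ≤ (Z : ℝ) / (Q * p) := by positivity
    simp only [card_empty, Nat.cast_zero]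
    linarith
  · have hsub : ((Ioc (Z : ℤ) (2 * Z)).filter (fun z => z ≡ r [ZMOD Q])).filter (fun z => (p : ℤ) ∣ z - s) ⊆
        (Ioc (Z : ℤ) (2 * Z)).filter (fun z => z ≡ v [ZMOD ((Q * p : ℕ) : ℤ)]) := by
      intro z hz
      rw [mem_filter, mem_filter] at hz hv
      rw [mem_filter]
      refine ⟨hz.1.1, ?_⟩
      have h1 : (Q : ℤ) ∣ v - z := (hz.1.2.trans hv.1.2.symm).dvd
      have h2 : (p : ℤ) ∣ v - z := by
        have := dvd_sub hv.2 hz.2
        rwa [sub_sub_sub_cancel_right] at this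
      have h3 : ((Q * p : ℕ) : ℤ) ∣ v - z := by
        push_cast
        exact IsCoprime.mul_dvd (Nat.isCoprime_iff_coprime.2 hpQ) h1 h2
      exact (Int.modEq_iff_dvd.2 h3)
    have h1 := class_le Z (Q * p) (Nat.mul_pos hQ hp.pos) v
    push_cast at h1 ⊢
    refine le_trans ?_ h1
    have h2 := card_le_card hsub
    push_cast at h2
    exact_mod_cast h2

/-- the number of prime factors larger than `y` -/
theorem large_primes (T y : ℕ) (hT : T ≠ 0) :
    y ^ (#(T.primeFactors.filter (fun p => y < p))) ≤ T := by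
  have h1 : y ^ (#(T.primeFactors.filter (fun p => y < p))) ≤
      ∏ p ∈ T.primeFactors.filter (fun p => y < p), p := by
    apply Finset.pow_card_le_prod
    intro p hp
    exact (mem_filter.1 hp).2.le
  refine h1.trans ?_
  refine le_trans ?_ (Nat.le_of_dvd (Nat.pos_of_ne_zero hT) (Nat.prod_primeFactors_dvd T))
  exact Finset.prod_le_prod_of_subset_of_one_le' (filter_subset _ _)
    fun p hp _ => (Nat.prime_of_mem_primeFactors hp).one_le

/-- the sieve with explicit parameters -/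
theorem sieve_core (N : ℤ) (hN : N ≠ 0) (hNe : Even N) (W : ℕ) (hW : 0 < W) (Z y : ℕ) (hy : 1 ≤ y) :
    ∃ F : Finset ℤ, (∀ z ∈ F, (Z : ℤ) < z ∧ z ≤ 2 * Z ∧ IsCoprime z W ∧ IsCoprime z N ∧
      IsCoprime (N - z) W) ∧
      (Z : ℝ) / primorial y - 1 -
        2 * (#((W * N.natAbs).primeFactors.filter (fun p => y < p)) : ℝ) *
          ((Z : ℝ) / (primorial y * y) + 1) ≤ #F := by
  classical
  set T : ℕ := W * N.natAbs with hT
  have hT0 : T ≠ 0 := (Nat.mul_pos hW (Int.natAbs_pos.2 hN)).ne'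
  set Lg : Finset ℕ := T.primeFactors.filter (fun p => y < p) with hLg
  set Q : ℕ := primorial y with hQ
  have hQ0 : 0 < Q := primorial_pos y
  obtain ⟨r, hr⟩ := avoid ((range (y + 1)).filter Nat.Prime) (fun p hp => (mem_filter.1 hp).2) hNe
  set F0 : Finset ℤ := (Ioc (Z : ℤ) (2 * Z)).filter (fun z => z ≡ r [ZMOD Q]) with hF0
  set bad : Finset ℤ := Lg.biUnion (fun p => F0.filter (fun z => (p : ℤ) ∣ z - 0) ∪
    F0.filter (fun z => (p : ℤ) ∣ z - N)) with hbad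
  refine ⟨F0 \ bad, ?_, ?_⟩
  · intro z hz
    rw [Finset.mem_sdiff] at hz
    obtain ⟨hz0, hzb⟩ := hz
    have hz1 := mem_filter.1 hz0
    have hz2 := mem_Ioc.1 hz1.1
    have key : ∀ p ∈ T.primeFactors, ¬ (p : ℤ) ∣ z ∧ ¬ (p : ℤ) ∣ N - z := by
      intro p hp
      have hpp := Nat.prime_of_mem_primeFactors hp
      by_cases hpy : y < p
      · have hpL : p ∈ Lg := mem_filter.2 ⟨hp, hpy⟩
        constructor
        · intro hd
          apply hzb
          rw [hbad, mem_biUnion]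
          refine ⟨p, hpL, mem_union_left _ (mem_filter.2 ⟨hz0, by rw [sub_zero]; exact hd⟩)⟩
        · intro hd
          apply hzb
          rw [hbad, mem_biUnion]
          refine ⟨p, hpL, mem_union_right _ (mem_filter.2 ⟨hz0, ?_⟩)⟩
          rw [← neg_sub]; exact (dvd_neg).2 hd
      · have hpQ : (p : ℤ) ∣ Q := by
          have : p ∣ primorial y := (hpp.dvd_primorial_iff).2 (by omega)
          exact_mod_cast this
        have hps : p ∈ (range (y + 1)).filter Nat.Prime :=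
          mem_filter.2 ⟨mem_range.2 (by omega), hpp⟩
        have hzr : (p : ℤ) ∣ r - z := hpQ.trans hz1.2.dvd
        obtain ⟨h1, h2⟩ := hr p hps
        constructor
        · intro hd
          apply h1
          have := dvd_add hzr hd
          rwa [sub_add_cancel] at this
        · intro hd
          apply h2
          have := dvd_sub hd hzr
          have e : N - z - (r - z) = N - r := by ring
          rwa [e] at this
    have c1 : IsCoprime z (T : ℤ) := cop_of_primes hT0 fun p hp => (key p hp).1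
    have c2 : IsCoprime (N - z) (T : ℤ) := cop_of_primes hT0 fun p hp => (key p hp).2
    have hWT : (W : ℤ) ∣ T := by rw [hT]; push_cast; exact Dvd.intro _ rfl
    have hNT : N ∣ T := by
      rw [hT]; push_cast
      exact Dvd.dvd.mul_left (self_dvd_abs N) _
    exact ⟨hz2.1, hz2.2, c1.of_isCoprime_of_dvd_right hWT, c1.of_isCoprime_of_dvd_right hNT,
      c2.of_isCoprime_of_dvd_right hWT⟩
  · have h0 := class_ge Z Q hQ0 r
    rw [← hF0] at h0
    have hsub : bad ⊆ F0 := by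
      rw [hbad]
      refine biUnion_subset.2 fun p _ => union_subset (filter_subset _ _) (filter_subset _ _)
    have h1 : #(F0 \ bad) = #F0 - bad.card := card_sdiff_of_subset hsub
    have h1' : (#(F0 \ bad) : ℝ) = #F0 - bad.card := by
      rw [h1, Nat.cast_sub (card_le_card hsub)]
    have h2 : (bad.card : ℝ) ≤ #Lg * (2 * ((Z : ℝ) / (Q * y) + 1)) := by
      have h3 : bad.card ≤ ∑ p ∈ Lg, #(F0.filter (fun z => (p : ℤ) ∣ z - 0) ∪
        F0.filter (fun z => (p : ℤ) ∣ z - N)) := card_biUnion_le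
      have h4 : ∀ p ∈ Lg, (#(F0.filter (fun z => (p : ℤ) ∣ z - 0) ∪
        F0.filter (fun z => (p : ℤ) ∣ z - N)) : ℝ) ≤ 2 * ((Z : ℝ) / (Q * y) + 1) := by
        intro p hp
        obtain ⟨hp1, hp2⟩ := mem_filter.1 hp
        have hpp := Nat.prime_of_mem_primeFactors hp1
        have hcop : Nat.Coprime Q p := by
          rw [Nat.coprime_comm, hpp.coprime_iff_not_dvd]
          intro hd
          have := (hpp.dvd_primorial_iff).1 hd
          omega
        have b1 := bad_le Z Q p hQ0 hpp hcop r 0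
        have b2 := bad_le Z Q p hQ0 hpp hcop r N
        have hle : (Z : ℝ) / (Q * p) ≤ (Z : ℝ) / (Q * y) := by
          have hy0 : (0 : ℝ) < y := by exact_mod_cast hy
          have hQr : (0 : ℝ) < Q := by exact_mod_cast hQ0
          have hyp : (y : ℝ) ≤ p := by exact_mod_cast hp2.le
          gcongr
        have h5 := card_union_le (F0.filter (fun z => (p : ℤ) ∣ z - 0))
          (F0.filter (fun z => (p : ℤ) ∣ z - N))
        have h5' : (#(F0.filter (fun z => (p : ℤ) ∣ z - 0) ∪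
          F0.filter (fun z => (p : ℤ) ∣ z - N)) : ℝ) ≤ (#(F0.filter (fun z => (p : ℤ) ∣ z - 0)) : ℝ) +
            #(F0.filter (fun z => (p : ℤ) ∣ z - N)) := by exact_mod_cast h5
        linarith
      calc (bad.card : ℝ) ≤ ∑ p ∈ Lg, (#(F0.filter (fun z => (p : ℤ) ∣ z - 0) ∪
        F0.filter (fun z => (p : ℤ) ∣ z - N)) : ℝ) := by exact_mod_cast h3
        _ ≤ ∑ p ∈ Lg, (2 * ((Z : ℝ) / (Q * y) + 1)) := sum_le_sum h4
        _ = #Lg * (2 * ((Z : ℝ) / (Q * y) + 1)) := by rw [sum_const, nsmul_eq_mul]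
    rw [h1']
    linarith

end Pool.Agent.V5helper53.TM
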