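import Pool.Agent.V5helper53.TM.Sieve

set_option autoImplicit false

namespace Pool.Agent.V5helper53.TM

open Finset Filter Topology

/-- many numbers in `(Z, 2 Z]` that are coprime to `W N` and such that `N - z` is coprime to `W` -/
theorem sieve (C ε : ℝ) (hC : 0 < C) (hε : 0 < ε) : ∀ᶠ B : ℝ in atTop, ∀ (N : ℤ) (W Z : ℕ), N ≠ 0 → Even N →
    0 < W → ((W * N.natAbs : ℕ) : ℝ) ≤ B ^ C → B ^ ε ≤ Z →
    ∃ F : Finset ℤ, (∀ z ∈ F, (Z : ℤ) < z ∧ z ≤ 2 * Z ∧ IsCoprime z W ∧ IsCoprime z N ∧
      IsCoprime (N - z) W) ∧ (Z : ℝ) * B ^ (-ε) ≤ #F := by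
  have hlog := Real.tendsto_log_atTop
  have e1 : ∀ᶠ B : ℝ in atTop, 16 / ε ≤ Real.log B := hlog.eventually_ge_atTop _
  have e2 : ∀ᶠ B : ℝ in atTop, 16 / ε * Real.exp (128 * C / ε) ≤ Real.log B :=
    hlog.eventually_ge_atTop _
  have e3 : ∀ᶠ B : ℝ in atTop, 1 + ε / 32 * Real.log B ≤ 1 / 4 * B ^ (3 * ε / 4) := by
    have h1 : (fun B : ℝ => 1 + ε / 32 * Real.log B) =o[atTop] fun B => B ^ (3 * ε / 4) := by
      refine Asymptotics.IsLittleO.add ?_ ?_
      · refine Asymptotics.isLittleO_const_left.2 (Or.inr ?_)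
        exact tendsto_norm_atTop_atTop.comp (tendsto_rpow_atTop (by positivity))
      · exact (isLittleO_log_rpow_atTop (by positivity)).const_mul_left _
    have h2 := h1.bound (show (0 : ℝ) < 1 / 4 by norm_num)
    filter_upwards [h2, eventually_ge_atTop 1] with B hB hB1
    have h3 : (0 : ℝ) ≤ B ^ (3 * ε / 4) := by positivity
    rw [Real.norm_of_nonneg h3] at hB
    exact (le_abs_self _).trans hB
  have e4 : ∀ᶠ B : ℝ in atTop, 2 ≤ B ^ (3 * ε / 4) :=
    (tendsto_rpow_atTop (by positivity)).eventually_ge_atTop _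
  filter_upwards [e1, e2, e3, e4, eventually_ge_atTop 1] with B h1 h2 h3 h4 hB1
  intro N W Z hN hNe hW hT hZ
  set l : ℝ := Real.log B with hl
  have hB0 : 0 < B := by linarith
  have hl0 : 0 < l := lt_of_lt_of_le (by positivity) h1
  set y : ℕ := ⌊ε / 8 * l⌋₊ with hy
  have hy1 : (y : ℝ) ≤ ε / 8 * l := Nat.floor_le (by positivity)
  have hy2 : ε / 16 * l ≤ y := by
    have h5 := Nat.lt_floor_add_one (ε / 8 * l)
    rw [← hy] at h5
    have h6 : 1 ≤ ε / 16 * l := by
      calc (1 : ℝ) = ε / 16 * (16 / ε) := by field_simp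
        _ ≤ ε / 16 * l := by gcongr
    linarith
  have hy3 : Real.exp (128 * C / ε) ≤ y := by
    calc Real.exp (128 * C / ε) = ε / 16 * (16 / ε * Real.exp (128 * C / ε)) := by field_simp
      _ ≤ ε / 16 * l := by gcongr
      _ ≤ y := hy2
  have hy0 : (0 : ℝ) < y := lt_of_lt_of_le (Real.exp_pos _) hy3
  have hy1' : 1 ≤ y := by
    have : 0 < y := by exact_mod_cast hy0
    omega
  have hlogy : 128 * C / ε ≤ Real.log y := by
    rw [Real.le_log_iff_exp_le hy0]; exact hy3
  obtain ⟨F, hF, hcard⟩ := sieve_core N hN hNe W hW Z y hy1'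
  refine ⟨F, hF, le_trans ?_ hcard⟩
  set L : ℕ := #((W * N.natAbs).primeFactors.filter (fun p => y < p)) with hL
  have hT0 : W * N.natAbs ≠ 0 := (Nat.mul_pos hW (Int.natAbs_pos.2 hN)).ne'
  have hLl : (L : ℝ) * Real.log y ≤ C * l := by
    have h5 := large_primes (W * N.natAbs) y hT0
    rw [← hL] at h5
    have h6 : ((y : ℝ) ^ L) ≤ B ^ C := le_trans (by exact_mod_cast h5) hT
    have h7 := Real.log_le_log (by positivity) h6
    rwa [Real.log_pow, Real.log_rpow hB0] at h7
  have hLy : (L : ℝ) ≤ y / 8 := by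
    have hlogy0 : 0 < Real.log y := lt_of_lt_of_le (by positivity) hlogy
    have h5 : (L : ℝ) * (128 * C / ε) ≤ C * l :=
      le_trans (mul_le_mul_of_nonneg_left hlogy (Nat.cast_nonneg _)) hLl
    have h6 : (L : ℝ) ≤ ε / 128 * l := by
      have h7 : (L : ℝ) * (128 * C / ε) = (L : ℝ) * (128 / ε) * C := by ring
      rw [h7, mul_comm C l] at h5
      have h8 := le_of_mul_le_mul_right h5 hC
      calc (L : ℝ) = ε / 128 * (L * (128 / ε)) := by field_simp
        _ ≤ ε / 128 * l := by gcongr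
    linarith
  have hQ0 : (0 : ℝ) < primorial y := by exact_mod_cast primorial_pos y
  have hQ : (primorial y : ℝ) ≤ B ^ (ε / 4) := by
    have h5 : (primorial y : ℝ) ≤ (4 : ℝ) ^ y := by exact_mod_cast primorial_le_four_pow y
    refine h5.trans ?_
    have h6 : (4 : ℝ) ≤ Real.exp 2 := by
      have h7 := Real.exp_one_gt_d9
      have h8 : Real.exp 2 = Real.exp 1 * Real.exp 1 := by
        rw [← Real.exp_add]; norm_num
      rw [h8]
      nlinarith
    calc (4 : ℝ) ^ y ≤ (Real.exp 2) ^ y := by gcongr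
      _ = Real.exp (y * 2) := by rw [← Real.exp_nat_mul]
      _ ≤ Real.exp (l * (ε / 4)) := by
          apply Real.exp_le_exp.2
          linarith
      _ = B ^ (ε / 4) := by rw [Real.rpow_def_of_pos hB0]
  have hZ0 : (0 : ℝ) < Z := lt_of_lt_of_le (by positivity) hZ
  have hZQ : B ^ (3 * ε / 4) ≤ Z / primorial y := by
    rw [le_div_iff₀ hQ0]
    calc B ^ (3 * ε / 4) * primorial y ≤ B ^ (3 * ε / 4) * B ^ (ε / 4) := by gcongr
      _ = B ^ ε := by rw [← Real.rpow_add hB0]; ring_nf
      _ ≤ Z := hZ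
  have hsm : 2 * (L : ℝ) * ((Z : ℝ) / (primorial y * y) + 1) ≤ 1 / 4 * (Z / primorial y) + 2 * L := by
    have h5 : (Z : ℝ) / (primorial y * y) = (Z / primorial y) / y := by
      rw [div_div]
    rw [h5]
    have h6 : 2 * (L : ℝ) * ((Z / primorial y) / y) ≤ 1 / 4 * (Z / primorial y) := by
      calc 2 * (L : ℝ) * ((Z / primorial y) / y) ≤ 2 * (y / 8) * ((Z / primorial y) / y) := by
            gcongr
        _ = 1 / 4 * (Z / primorial y) := by field_simp; norm_num
    linarith
  have h5 : 1 + 2 * (L : ℝ) ≤ 1 / 4 * (Z / primorial y) := by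
    have h6 : 1 + 2 * (L : ℝ) ≤ 1 + ε / 32 * l := by linarith
    linarith
  have h6 : (Z : ℝ) * B ^ (-ε) ≤ 1 / 2 * (Z / primorial y) := by
    rw [mul_div_assoc', le_div_iff₀ hQ0]
    calc (Z : ℝ) * B ^ (-ε) * primorial y ≤ (Z : ℝ) * B ^ (-ε) * B ^ (ε / 4) := by gcongr
      _ = Z * B ^ (-(3 * ε / 4)) := by
          rw [mul_assoc, ← Real.rpow_add hB0]; ring_nf
      _ = Z * (B ^ (3 * ε / 4))⁻¹ := by rw [Real.rpow_neg hB0.le]
      _ ≤ Z * (2 : ℝ)⁻¹ := by gcongr
      _ = 1 / 2 * Z := by ring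
  linarith

/-- Pairwise coprime integers with prescribed sum, coprime to a given number, all except the last one
in `(Z, 2 Z]`: many solutions. -/
theorem tuples (k : ℕ) : ∀ (C ε : ℝ), 0 < C → 0 < ε → ∀ᶠ B : ℝ in atTop, ∀ (S : ℤ) (W Z : ℕ),
    S ≠ 0 → 0 < W → Even W → Even (S - k) → ((W * S.natAbs : ℕ) : ℝ) ≤ B ^ C → B ^ ε ≤ Z →
    (Z : ℝ) ≤ B ^ C →
    ∃ F : Finset (Fin (k + 2) → ℤ), (∀ z ∈ F, (∀ i, IsCoprime (z i) W) ∧
      (∀ i j, i ≠ j → IsCoprime (z i) (z j)) ∧ ∑ i, z i = S ∧
      ∀ i, i ≠ Fin.last (k + 1) → (Z : ℤ) < z i ∧ z i ≤ 2 * Z) ∧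
      ((Z : ℝ) * B ^ (-ε)) ^ (k + 1) ≤ #F := by
  classical
  induction k with
  | zero =>
    intro C ε hC hε
    filter_upwards [sieve C ε hC hε] with B hB
    intro S W Z hS hW hWe hSe hWS hZ hZC
    obtain ⟨F, hF, hcard⟩ := hB S W Z hS (by simpa using hSe) hW hWS hZ
    refine ⟨F.image (fun z => ![z, S - z]), ?_, ?_⟩
    · intro z hz
      obtain ⟨t, ht, rfl⟩ := mem_image.1 hz
      obtain ⟨a1, a2, a3, a4, a5⟩ := hF t ht
      have a6 : IsCoprime t (S - t) := by
        have := a4.add_mul_left_right (-1)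
        have e : S + t * -1 = S - t := by ring
        rwa [e] at this
      refine ⟨?_, ?_, ?_, ?_⟩
      · intro i; fin_cases i
        · exact a3
        · exact a5
      · intro i j hij
        fin_cases i <;> fin_cases j
        · exact absurd rfl hij
        · exact a6
        · exact a6.symm
        · exact absurd rfl hij
      · simp
      · intro i hi
        fin_cases i
        · exact ⟨a1, a2⟩
        · exact absurd rfl hi
    · rw [card_image_of_injective]
      · simpa using hcard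
      · intro a b hab
        have := congrFun hab 0
        simpa using this
  | succ k ih =>
    intro C ε hC hε
    have i1 := ih (3 * C + 3) (ε / 2) (by positivity) (by positivity)
    have i2 := sieve (2 * C + 1) (ε / 2) (by positivity) (by positivity)
    have e4 : ∀ᶠ B : ℝ in atTop, 4 ≤ B ^ (ε / 2) :=
      (tendsto_rpow_atTop (by positivity)).eventually_ge_atTop _
    have e5 : ∀ᶠ B : ℝ in atTop, 8 ≤ B := eventually_ge_atTop _
    filter_upwards [i1, i2, e4, e5] with B h1 h2 h4 h5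
    intro S W Z hS hW hWe hSe hWS hZ hZC
    have hB0 : 0 < B := by linarith
    have hB1 : 1 ≤ B := by linarith
    have hZ2 : B ^ (ε / 2) ≤ Z := by
      refine le_trans ?_ hZ
      exact Real.rpow_le_rpow_of_exponent_le hB1 (by linarith)
    have hSa1 : 1 ≤ S.natAbs := Int.natAbs_pos.2 hS
    have hWr : (W : ℝ) ≤ B ^ C := by
      refine le_trans ?_ hWS
      exact_mod_cast Nat.le_mul_of_pos_right W hSa1
    have hSr : ((S.natAbs : ℕ) : ℝ) ≤ B ^ C := by
      refine le_trans ?_ hWS
      exact_mod_cast Nat.le_mul_of_pos_left _ hW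
    have hBC1 : 1 ≤ B ^ C := Real.one_le_rpow hB1 hC.le
    have hBC0 : 0 < B ^ C := by linarith
    obtain ⟨F, hF, hcard⟩ := h2 2 W Z (by norm_num) (by norm_num) hW (by
      push_cast
      calc (W : ℝ) * 2 ≤ B ^ C * B := by
            have : (2 : ℝ) ≤ B := by linarith
            gcongr
        _ ≤ B ^ C * B ^ C * B := by
            have : B ^ C * 1 ≤ B ^ C * B ^ C := by gcongr
            nlinarith
        _ = B ^ (2 * C + 1) := by
            rw [← Real.rpow_add hB0, Real.rpow_add_one hB0.ne']; ring_nf) hZ2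
    -- remove S
    set F' : Finset ℤ := F.erase S with hF'
    have hF'c : (Z : ℝ) * B ^ (-ε) ≤ #F' := by
      have h6 : (#F : ℝ) ≤ #F' + 1 := by
        have h7 := F.pred_card_le_card_erase (a := S)
        rw [← hF'] at h7
        have h8 : #F ≤ #F' + 1 := by omega
        exact_mod_cast h8
      have h7 : (Z : ℝ) * B ^ (-ε) + 1 ≤ (Z : ℝ) * B ^ (-(ε / 2)) := by
        have h8 : B ^ (-ε) = B ^ (-(ε / 2)) * B ^ (-(ε / 2)) := by
          rw [← Real.rpow_add hB0]; ring_nf
        have h9 : B ^ (-(ε / 2)) ≤ 1 / 4 := by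
          rw [Real.rpow_neg hB0.le, one_div]
          gcongr
        have h10 : (0 : ℝ) ≤ B ^ (-(ε / 2)) := by positivity
        have h11 : 4 ≤ (Z : ℝ) * B ^ (-(ε / 2)) := by
          calc (4 : ℝ) ≤ B ^ (ε / 2) := h4
            _ = B ^ ε * B ^ (-(ε / 2)) := by rw [← Real.rpow_add hB0]; ring_nf
            _ ≤ Z * B ^ (-(ε / 2)) := by gcongr
        rw [h8]
        have h12 : (Z : ℝ) * (B ^ (-(ε / 2)) * B ^ (-(ε / 2))) ≤ (Z : ℝ) * B ^ (-(ε / 2)) * (1 / 4) := by
          rw [← mul_assoc]; gcongr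
        linarith
      linarith
    have hstep : ∀ t : ℤ, ∃ G : Finset (Fin (k + 2) → ℤ), t ∈ F' →
        (∀ z ∈ G, (∀ i, IsCoprime (z i) ((W * t.natAbs : ℕ) : ℤ)) ∧
        (∀ i j, i ≠ j → IsCoprime (z i) (z j)) ∧ ∑ i, z i = S - t ∧
        ∀ i, i ≠ Fin.last (k + 1) → (Z : ℤ) < z i ∧ z i ≤ 2 * Z) ∧
        ((Z : ℝ) * B ^ (-ε)) ^ (k + 1) ≤ #G := by
      intro t
      by_cases ht : t ∈ F'
      · have htF := mem_of_mem_erase ht
        have htS := ne_of_mem_erase ht
        obtain ⟨a1, a2, a3, a4, a5⟩ := hF t htF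
        have ht0 : 0 < t := lt_of_le_of_lt (Int.natCast_nonneg Z) a1
        have htn : 1 ≤ t.natAbs := Int.natAbs_pos.2 ht0.ne'
        have htr : ((t.natAbs : ℕ) : ℝ) ≤ 2 * B ^ C := by
          have h6 : ((t.natAbs : ℕ) : ℤ) ≤ 2 * Z := by omega
          have h7 : ((t.natAbs : ℕ) : ℝ) ≤ 2 * Z := by exact_mod_cast h6
          linarith
        have hodd : Odd t := by
          have h6 : IsCoprime t 2 := a3.of_isCoprime_of_dvd_right (by
            have := hWe.two_dvd
            exact_mod_cast this)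
          rw [← Int.not_even_iff_odd]
          intro h7
          have h8 : (2 : ℤ) ∣ t := h7.two_dvd
          have h9 := h6.isUnit_of_dvd' h8 dvd_rfl
          norm_num [Int.isUnit_iff] at h9
        have hpar : Even (S - t - k) := by
          obtain ⟨u, hu⟩ := hSe
          obtain ⟨v, hv⟩ := hodd
          push_cast at hu
          exact ⟨u - v, by linarith⟩
        obtain ⟨G, hG, hGc⟩ := h1 (S - t) (W * t.natAbs) Z (sub_ne_zero.2 (Ne.symm htS))
          (Nat.mul_pos hW htn) (hWe.mul_right _) hpar (by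
            have h6 : (((S - t).natAbs : ℕ) : ℝ) ≤ 3 * B ^ C := by
              have h7 : (S - t).natAbs ≤ S.natAbs + t.natAbs := Int.natAbs_sub_le S t
              have h8 : (((S - t).natAbs : ℕ) : ℝ) ≤ (S.natAbs : ℝ) + t.natAbs := by
                exact_mod_cast h7
              linarith
            push_cast
            calc (W : ℝ) * (t.natAbs : ℝ) * ((S - t).natAbs : ℝ)
                ≤ B ^ C * (2 * B ^ C) * (3 * B ^ C) := by gcongr
              _ = 6 * (B ^ C * B ^ C * B ^ C) := by ring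
              _ ≤ B ^ (3 : ℝ) * (B ^ C * B ^ C * B ^ C) := by
                  have h9 : (6 : ℝ) ≤ B ^ (3 : ℝ) := by
                    rw [show (3 : ℝ) = ((3 : ℕ) : ℝ) by norm_num, Real.rpow_natCast]
                    nlinarith [pow_le_pow_left₀ (by norm_num : (0 : ℝ) ≤ 8) h5 3]
                  gcongr
              _ = B ^ (3 * C + 3) := by
                  rw [← Real.rpow_add hB0, ← Real.rpow_add hB0, ← Real.rpow_add hB0]; ring_nf)
          hZ2 (hZC.trans (Real.rpow_le_rpow_of_exponent_le hB1 (by linarith)))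
        refine ⟨G, fun _ => ⟨hG, le_trans ?_ hGc⟩⟩
        have : B ^ (-ε) ≤ B ^ (-(ε / 2)) :=
          Real.rpow_le_rpow_of_exponent_le hB1 (by linarith)
        gcongr
      · exact ⟨∅, fun h => absurd h ht⟩
    choose G hG using hstep
    refine ⟨F'.biUnion (fun t => (G t).image (fun w : Fin (k + 2) → ℤ => (Fin.cons t w : Fin (k + 3) → ℤ))), ?_, ?_⟩
    · intro z hz
      obtain ⟨t, ht, hz2⟩ := mem_biUnion.1 hz
      obtain ⟨w, hw, rfl⟩ := mem_image.1 hz2
      obtain ⟨b1, b2, b3, b4⟩ := (hG t ht).1 w hw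
      obtain ⟨a1, a2, a3, a4, a5⟩ := hF t (mem_of_mem_erase ht)
      have b1W : ∀ i, IsCoprime (w i) W := fun i =>
        (b1 i).of_isCoprime_of_dvd_right (by push_cast; exact Dvd.intro _ rfl)
      have b1t : ∀ i, IsCoprime (w i) t := fun i =>
        (b1 i).of_isCoprime_of_dvd_right (by
          push_cast
          exact Dvd.dvd.mul_left (self_dvd_abs t) _)
      refine ⟨?_, ?_, ?_, ?_⟩
      · intro i
        refine Fin.cases ?_ (fun i => ?_) i
        · rw [Fin.cons_zero]; exact a3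
        · rw [Fin.cons_succ]; exact b1W i
      · intro i j
        refine Fin.cases ?_ (fun i => ?_) i
        · refine Fin.cases ?_ (fun j => ?_) j
          · intro h; exact absurd rfl h
          · intro _
            rw [Fin.cons_zero, Fin.cons_succ]
            exact (b1t j).symm
        · refine Fin.cases ?_ (fun j => ?_) j
          · intro _
            rw [Fin.cons_zero, Fin.cons_succ]
            exact b1t i
          · intro h
            rw [Fin.cons_succ, Fin.cons_succ]
            exact b2 i j fun h' => h (by rw [h'])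
      · rw [Fin.sum_univ_succ, Fin.cons_zero]
        simp only [Fin.cons_succ]
        rw [b3]; ring
      · intro i
        refine Fin.cases ?_ (fun i => ?_) i
        · intro _; rw [Fin.cons_zero]; exact ⟨a1, a2⟩
        · intro h
          rw [Fin.cons_succ]
          refine b4 i fun h' => h ?_
          rw [h']
          rfl
    · rw [card_biUnion]
      · have h6 : ∀ t ∈ F', ((Z : ℝ) * B ^ (-ε)) ^ (k + 1) ≤
            ((#((G t).image (fun w : Fin (k + 2) → ℤ => (Fin.cons t w : Fin (k + 3) → ℤ))) : ℕ) : ℝ) := by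
          intro t ht
          rw [card_image_of_injective _ (Fin.cons_right_injective (α := fun _ => ℤ) t)]
          exact (hG t ht).2
        push_cast
        calc ((Z : ℝ) * B ^ (-ε)) ^ (k + 1 + 1)
            = (Z : ℝ) * B ^ (-ε) * ((Z : ℝ) * B ^ (-ε)) ^ (k + 1) := by rw [pow_succ]; ring
          _ ≤ #F' * ((Z : ℝ) * B ^ (-ε)) ^ (k + 1) := by gcongr
          _ = ∑ t ∈ F', ((Z : ℝ) * B ^ (-ε)) ^ (k + 1) := by rw [sum_const, nsmul_eq_mul]
          _ ≤ _ := sum_le_sum h6
      · intro a _ b _ hab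
        rw [Function.onFun, disjoint_left]
        intro z hz1 hz2
        obtain ⟨w1, _, rfl⟩ := mem_image.1 hz1
        obtain ⟨w2, _, h⟩ := mem_image.1 hz2
        apply hab
        have := congrFun h 0
        rw [Fin.cons_zero, Fin.cons_zero] at this
        exact this.symm

end Pool.Agent.V5helper53.TM
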